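import Pool.Agent.S5.E.T.Defs

/-!
# Mixed chains, block E: instances `a = 3, 4, 5` of the half round 0
-/

set_option autoImplicit false

namespace Pool.Agent.S5.E.X3.L0

open Pool.Agent.S5.E

def C3_0 : List Inst := [
  ⟨3, false, some false, ⟨543, 1080, 0, 1035, 0⟩, ⟨543, 1080, 200, 1035, 0⟩, ⟨590, 1000, 0, 627, 0⟩, ⟨729, 917, 122, 369, 0⟩⟩,
  ⟨3, false, some false, ⟨543, 1080, 0, 1035, 0⟩, ⟨590, 1000, 0, 627, 0⟩, ⟨590, 1000, 0, 627, 0⟩, ⟨729, 917, 122, 369, 0⟩⟩,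
  ⟨3, false, some true, ⟨670, 1080, 200, 1035, 0⟩, ⟨530, 1080, 0, 1035, 0⟩, ⟨590, 1000, 0, 627, 0⟩, ⟨710, 924, 191, 501, 0⟩⟩,
  ⟨3, false, some true, ⟨543, 708, 553, 1000, 0⟩, ⟨530, 1080, 0, 1035, 0⟩, ⟨590, 1000, 0, 627, 0⟩, ⟨681, 852, 213, 465, 0⟩⟩,
  ⟨3, false, some true, ⟨590, 1000, 0, 627, 0⟩, ⟨530, 1080, 0, 1035, 0⟩, ⟨590, 1000, 0, 627, 0⟩, ⟨704, 923, 241, 555, 0⟩⟩,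
  ⟨3, true, some false, ⟨530, 1080, 0, 1035, 0⟩, ⟨543, 1080, 200, 1035, 0⟩, ⟨590, 1000, 0, 627, 0⟩, ⟨680, 924, 191, 555, 0⟩⟩,
  ⟨3, true, some false, ⟨530, 1080, 0, 1035, 0⟩, ⟨590, 1000, 0, 627, 0⟩, ⟨590, 1000, 0, 627, 0⟩, ⟨680, 924, 191, 555, 0⟩⟩,
  ⟨3, true, some true, ⟨660, 1080, 340, 1035, 0⟩, ⟨530, 1000, 0, 777, 0⟩, ⟨530, 1000, 0, 777, 0⟩, ⟨729, 945, 393, 716, 0⟩⟩,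
  ⟨3, true, some true, ⟨530, 1000, 0, 777, 0⟩, ⟨530, 1080, 0, 1035, 0⟩, ⟨530, 1000, 0, 777, 0⟩, ⟨698, 945, 332, 716, 0⟩⟩,
  ⟨3, false, none, ⟨670, 1080, 200, 1035, 0⟩, ⟨0, 0, 0, 0, 0⟩, ⟨590, 1000, 0, 627, 0⟩, ⟨647, 771, 144, 340, 0⟩⟩,
  ⟨3, false, none, ⟨543, 708, 553, 1000, 0⟩, ⟨0, 0, 0, 0, 0⟩, ⟨590, 1000, 0, 627, 0⟩, ⟨637, 703, 136, 230, 0⟩⟩,
  ⟨3, false, none, ⟨590, 1000, 0, 627, 0⟩, ⟨0, 0, 0, 0, 0⟩, ⟨590, 1000, 0, 627, 0⟩, ⟨616, 748, 185, 387, 0⟩⟩,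
  ⟨3, true, none, ⟨660, 1080, 340, 1035, 0⟩, ⟨0, 0, 0, 0, 0⟩, ⟨530, 1000, 0, 777, 0⟩, ⟨560, 707, 405, 681, 0⟩⟩,
  ⟨3, true, none, ⟨530, 1000, 0, 777, 0⟩, ⟨0, 0, 0, 0, 0⟩, ⟨530, 1000, 0, 777, 0⟩, ⟨543, 717, 292, 607, 0⟩⟩]

def C4_0 : List Inst := [
  ⟨4, false, some false, ⟨543, 1080, 0, 1035, 0⟩, ⟨543, 1080, 0, 1035, 0⟩, ⟨590, 1000, 0, 627, 0⟩, ⟨785, 900, 67, 214, 0⟩⟩,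
  ⟨4, false, some true, ⟨543, 1080, 200, 1035, 0⟩, ⟨530, 1080, 0, 1035, 0⟩, ⟨590, 1000, 0, 627, 0⟩, ⟨751, 900, 105, 283, 0⟩⟩,
  ⟨4, false, some true, ⟨590, 1000, 0, 627, 0⟩, ⟨530, 1080, 0, 1035, 0⟩, ⟨590, 1000, 0, 627, 0⟩, ⟨753, 894, 125, 304, 0⟩⟩,
  ⟨4, true, some false, ⟨530, 1080, 0, 1035, 0⟩, ⟨543, 1080, 0, 1035, 0⟩, ⟨590, 1000, 0, 627, 0⟩, ⟨746, 900, 105, 304, 0⟩⟩,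
  ⟨4, true, some true, ⟨530, 1080, 0, 1035, 0⟩, ⟨530, 1080, 0, 1035, 0⟩, ⟨530, 1000, 0, 777, 0⟩, ⟨705, 900, 163, 438, 0⟩⟩,
  ⟨4, false, none, ⟨590, 1080, 0, 1035, 0⟩, ⟨0, 0, 0, 0, 0⟩, ⟨590, 1000, 0, 627, 0⟩, ⟨731, 831, 52, 185, 0⟩⟩,
  ⟨4, false, none, ⟨543, 708, 553, 1000, 0⟩, ⟨0, 0, 0, 0, 0⟩, ⟨590, 1000, 0, 627, 0⟩, ⟨752, 797, 50, 104, 0⟩⟩,
  ⟨4, true, none, ⟨530, 1080, 0, 1035, 0⟩, ⟨0, 0, 0, 0, 0⟩, ⟨530, 1000, 0, 777, 0⟩, ⟨659, 791, 101, 287, 0⟩⟩]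

def C5_0 : List Inst := [
  ⟨5, false, some false, ⟨543, 1080, 0, 1035, 0⟩, ⟨543, 1080, 0, 1035, 0⟩, ⟨590, 1000, 0, 627, 0⟩, ⟨835, 919, 34, 136, 0⟩⟩,
  ⟨5, false, some true, ⟨543, 1080, 0, 1035, 0⟩, ⟨530, 1080, 0, 1035, 0⟩, ⟨590, 1000, 0, 627, 0⟩, ⟨806, 910, 54, 185, 0⟩⟩,
  ⟨5, true, some false, ⟨530, 1080, 0, 1035, 0⟩, ⟨543, 1080, 0, 1035, 0⟩, ⟨590, 1000, 0, 627, 0⟩, ⟨806, 910, 54, 185, 0⟩⟩,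
  ⟨5, true, some true, ⟨530, 1080, 0, 1035, 0⟩, ⟨530, 1080, 0, 1035, 0⟩, ⟨530, 1000, 0, 777, 0⟩, ⟨769, 907, 82, 260, 0⟩⟩,
  ⟨5, false, none, ⟨543, 1080, 0, 1035, 0⟩, ⟨0, 0, 0, 0, 0⟩, ⟨590, 1000, 0, 627, 0⟩, ⟨810, 878, 20, 100, 0⟩⟩,
  ⟨5, true, none, ⟨530, 1080, 0, 1035, 0⟩, ⟨0, 0, 0, 0, 0⟩, ⟨530, 1000, 0, 777, 0⟩, ⟨768, 849, 42, 137, 0⟩⟩]

/-- The instances with `3` half twists. -/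
def I3 : List Inst := C3_0

/-- The instances with `4` half twists. -/
def I4 : List Inst := C4_0

/-- The instances with `5` half twists. -/
def I5 : List Inst := C5_0

/-- All instances of this half round with `a = 3, 4, 5`. -/
def I : List Inst := I3 ++ I4 ++ I5

end Pool.Agent.S5.E.X3.L0
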