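import Pool.Agent.S5.E.X3.All
import Pool.Agent.S5.E.X3.IL0

/-!
# Mixed chains, block E: instances `a = 3, 4, 5` of the half round 0, proof codes
-/

set_option autoImplicit false

namespace Pool.Agent.S5.E.X3.L0

open Pool.Agent.S5.E

def D5_0 : List ℕ := [
  0x1102210e4380841084e8042420884209c423821688411800e73de2688427042a085a2100013a0e42104721c820108300c20184220106018460184213a0473a04219c0119c01080473840338201084484110440c20408610810332040081024088410c030204308c663090231843098430840040801418c230902080231a82a0c02318ca5100a00814a488a01054148841318c1118c230843318c21006108c2631826309610880603183600211b181004c06084b294420980008440,
  0x1d044090009087410883a041020402108418020090e740861101022110210c0300461004220108300c030808408c01080e841d0208ce810c2008461398e83984110d6008c2b0044011ce100143580e002830084224110822088121030840140008105020808d110840a1a30044020c0120c030206110c0810c206a00223443191a3008600840d10c010050340cc810d6610026100c8101020a043599663084158560119021acc2409661844102cc2004481002032cc24082008084091a222824205a1689a210c6a5344d108210014a688411800a0b5ad08c00524414884318d6c1940128440000635054118d49494001042319400528a228845014410244208c6a0a82a5144201441594400056b288a01014a4940250522504a012c0100422,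
  0x722004238213908420c011840e181c1084e8220e1010e7208403802120c2300c2300c2308440101413808821088010830050308c201842000484180241806118061010607382370c01004600840840d03080e810021400673184810ccc19801100c008ce610cc030020088060040e7382a08c0a0806319c00028270020108822410880108300c20210601800300522081034206c0058008d8c600236306108180609820802c1010c0802023824705c47104e08443001ce138212106023823039c10a441009ce4884e084600244a4894108c63630200006a18ca3284400286a5292210823284a1280020882319420294a0104015140118d8000d294952208001195220b00048829504a9100a0504291098000422,
  0x1d08220e8120410050009084210441802009060184203a08420c20408281840300500120441806118102184601802308084208601800a210605046000823004e81990219cc2408010190200467598486302110c6b000265840508960004465840050d41280e0028300842242084180030048420424180830108410c0008522180030052240d0c6046c0058008ca02802c1018c080202244a210225046350420505295244118122008030294910d415286a094005054100c6a080635042a0a4431a82150522280a00014148840504020a44a4894108c65028a2294420854510525008a0284a000422,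
  0x1c8721c84180610048300c0120c03024210040738ce008c2b00d6509420494050042b00401,
  0x1ce7210e0004e009c04210870106008c2020c01010830108300020080e308c233800308c20224231a429084631a421486a04842500009084e509c050940508021]

set_option maxRecDepth 100000 in
theorem ok5_0 : ∀ x ∈ C5_0, x.Ok3 := allX_sound (m := D5_0) (by decide +kernel)

end Pool.Agent.S5.E.X3.L0
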