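import Pool.Agent.S5.E.T.App
import Pool.Agent.S5.E.X3.RL6_0
import Pool.Agent.S5.E.X3.RL6_1
import Pool.Agent.S5.E.X3.RL6_2
import Pool.Agent.S5.E.X3.RL6_3
import Pool.Agent.S5.E.X3.RL6_4
import Pool.Agent.S5.E.X3.RL6_5
import Pool.Agent.S5.E.X3.RL6_6
import Pool.Agent.S5.E.X3.RL6_7
import Pool.Agent.S5.E.X3.RL6_8
import Pool.Agent.S5.E.X3.RL6_9

/-!
# Mixed chains, block E: the instances `a = 3, 4, 5` of the half round 6 are correct
-/

set_option autoImplicit false

namespace Pool.Agent.S5.E.X3.L6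

open Pool.Agent.S5.E

set_option maxRecDepth 100000 in
theorem ok3 : ∀ x ∈ I3, x.Ok := by
  have h3 : ∀ x ∈ I3, x.Ok3 := by
    intro x hx
    unfold I3 at hx
    simp only [List.mem_append] at hx
    rcases hx with ((((((((h | h) | h) | h) | h) | h) | h) | h) | h) | h
    · exact ok3_0 x h
    · exact ok3_1 x h
    · exact ok3_2 x h
    · exact ok3_3 x h
    · exact ok3_4 x h
    · exact ok3_5 x h
    · exact ok3_6 x h
    · exact ok3_7 x h
    · exact ok3_8 x h
    · exact ok3_9 x h
  have h2 : (I3.all fun x => Nat.beq x.a 3) = true := by decide +kernel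
  intro x hx
  rw [List.all_eq_true] at h2
  have h4 := Nat.eq_of_beq_eq_true (h2 x hx)
  unfold Inst.Ok
  rw [if_neg (by omega)]
  exact ⟨by omega, h3 x hx⟩

set_option maxRecDepth 100000 in
theorem ok4 : ∀ x ∈ I4, x.Ok := by
  have h3 : ∀ x ∈ I4, x.Ok3 := by
    intro x hx
    unfold I4 at hx
    simp only [List.mem_append] at hx
    rcases hx with ((((h | h) | h) | h) | h) | h
    · exact ok4_0 x h
    · exact ok4_1 x h
    · exact ok4_2 x h
    · exact ok4_3 x h
    · exact ok4_4 x h
    · exact ok4_5 x h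
  have h2 : (I4.all fun x => Nat.beq x.a 4) = true := by decide +kernel
  intro x hx
  rw [List.all_eq_true] at h2
  have h4 := Nat.eq_of_beq_eq_true (h2 x hx)
  unfold Inst.Ok
  rw [if_neg (by omega)]
  exact ⟨by omega, h3 x hx⟩

set_option maxRecDepth 100000 in
theorem ok5 : ∀ x ∈ I5, x.Ok := by
  have h3 : ∀ x ∈ I5, x.Ok3 := by
    intro x hx
    unfold I5 at hx
    simp only [List.mem_append] at hx
    rcases hx with (h | h) | h
    · exact ok5_0 x h
    · exact ok5_1 x h
    · exact ok5_2 x h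
  have h2 : (I5.all fun x => Nat.beq x.a 5) = true := by decide +kernel
  intro x hx
  rw [List.all_eq_true] at h2
  have h4 := Nat.eq_of_beq_eq_true (h2 x hx)
  unfold Inst.Ok
  rw [if_neg (by omega)]
  exact ⟨by omega, h3 x hx⟩

theorem ok : ∀ x ∈ I, x.Ok := by
  intro x hx
  unfold I at hx
  simp only [List.mem_append] at hx
  rcases hx with (h | h) | h
  · exact ok3 x h
  · exact ok4 x h
  · exact ok5 x h

end Pool.Agent.S5.E.X3.L6
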