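import Pool.Agent.S5.E.X3.All

/-!
# Mixed chains, block E: instances `a = 3, 4, 5` of the block 104, with proof codes
-/

set_option autoImplicit false

namespace Pool.Agent.S5.E.X3.R4T

open Pool.Agent.S5.E

def I0 : List Inst := [
  ⟨4, false, some true, ⟨862, 956, 538, 689, 0⟩, ⟨766, 941, 423, 706, 0⟩, ⟨824, 870, 156, 209, 0⟩, ⟨826, 862, 163, 207, 0⟩⟩,
  ⟨4, false, some true, ⟨763, 949, 369, 587, 0⟩, ⟨766, 941, 423, 706, 0⟩, ⟨813, 870, 156, 228, 0⟩, ⟨815, 863, 171, 226, 0⟩⟩,
  ⟨4, false, some true, ⟨630, 652, 823, 874, 0⟩, ⟨766, 941, 423, 706, 0⟩, ⟨796, 849, 156, 196, 0⟩, ⟨797, 828, 157, 194, 0⟩⟩,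
  ⟨4, false, some false, ⟨642, 656, 861, 922, 0⟩, ⟨642, 656, 861, 922, 0⟩, ⟨825, 860, 82, 150, 0⟩, ⟨832, 840, 83, 92, 0⟩⟩]

def D0 : List ℕ := [
  0x1189d02002718cc21984f189e28008e440884210600800440908080413a1030844810041408042108d1088d10c01009a221084689a21108418401408830206110c2100884181021850210c03080481108468860109a2180611802300c20084e83a0474086701c0330cc0408610810b40820408415806b5a06b0184110c2b0080b00421121081a00800c6858408101604090208421148004084a3826a2282d11060505ad180021800a6a9ad6846000802504226b5ad50429105220a44200c6350d43005221812248841180230040a50d415040a081491244a18122504604886318c650040100d43514401054a280a0114a010029280405294510009104091082b18c6b0042a18d60029600ac02505410ad600096018c6b0010200c2318ca00940108ca1280a1280a2284a10aca2020a128442580091294912442a0122088320027400401,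
  0x46323a041002648c624211a2688416880910402984e43808702860084e0129600a2280480421c07020409182040902084842108418423080016a1a820c03085020204d1802100844210881088300c2100904409081842021083004044090010c01408222108810c221810210c2300c21010830204218460408613a0614006739842408011204018ce319c061006112040184010350040044211416882d10860688601806009ce812d0b408235816058022580225810840cc018560408260204140022409635a0435802810d6030c22080615a10b4082110d605802012c0860ca009401106400050252860505aa6882a0b4435344300c010094a1800a0844d68c0d18149105220812210c0318c6a5286a094a200842194050082150c6a58065014220054a29402280a210445488400040a5294a2804a0804a0814a180605040a0a4435244118ca0028a20a8a20944051441280091082b1aca20ad65108050ac0b008650142501425089600294a0a442506800a4a0104520027400401,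
  0x466189d0201e339cce439267211a300802004415282a0cc21136616b5a3000336b460029220a82910122486610a4404884000027408e739ce108c271a863581410002250541088eb08051401002108420c000802d6a008000474206108902020446888d1804300c2040861180234006102041184e81204740c2308861581032802218560580282844018d414886018c6b2880a28821580a20002a48949128a2288000a82912ca2024414884b0480100a7400420,
  0x10870211339d02120400cce47066139d043a040711e111c841344818402184e7408663080600440004223014750c030282b028220282b050211004d985086a063630206000140801301020bde300c0a488231b001600a51040aa0029101414892265020a0429100460502008440]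

set_option maxRecDepth 100000 in
theorem ok0 : ∀ x ∈ I0, x.Ok3 := allX_sound (m := D0) (by decide +kernel)

end Pool.Agent.S5.E.X3.R4T
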