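import Pool.Agent.S5.E.X3.Chk

/-!
# Mixed chains, block E: proof codes, lists of instances

`chkX x d`: the proof code `d` proves the instance `x` (`a = 3, 4, 5`).
-/

set_option autoImplicit false

namespace Pool.Agent.S5.E.X3

open Pool.Agent.S5.E.B2 (Rg InR)

def chkX (x : Inst) (d : ℕ) : Bool :=
  br (Nat.beq x.a 3) (chk3 x d) (br (Nat.beq x.a 4) (chk4 x d) (chk5 x d))

theorem chkX_sound {x : Inst} {d : ℕ} (h : chkX x d = true) : x.Ok3 := by
  have key : ∀ (x y z : Bool), br x y z = true → y = true ∨ z = true := by
    intro x y z h
    cases x
    · right; exact h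
    · left; exact h
  unfold chkX at h
  rcases key _ _ _ h with h | h
  · exact chk3_sound h
  · rcases key _ _ _ h with h | h
    · exact chk4_sound h
    · exact chk5_sound h

/-- A list of instances and the list of their proof codes. -/
def allX : List Inst → List ℕ → Bool
  | [], _ => true
  | _ :: _, [] => false
  | x :: l, d :: m => an (chkX x d) (allX l m)

theorem allX_sound {l : List Inst} : ∀ {m : List ℕ}, allX l m = true → ∀ x ∈ l, x.Ok3 := by
  induction l with
  | nil =>
    intro m _ x hx
    exact absurd hx (by simp)
  | cons y l ih =>
    intro m h x hx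
    cases m with
    | nil => exact absurd h (by simp [allX])
    | cons d m =>
      unfold allX at h
      rw [an_iff] at h
      rcases List.mem_cons.1 hx with rfl | hx
      · exact chkX_sound h.1
      · exact ih h.2 x hx

end Pool.Agent.S5.E.X3
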