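import Pool.Agent.S5.E.X3.Re

/-!
# Mixed chains, block E: proof codes, the bounds of a box
-/

set_option autoImplicit false
set_option maxHeartbeats 4000000

namespace Pool.Agent.S5.E.X3

open Real
open Pool.Agent.S5.E.B2 (Rg)
open Pool.Agent.S5.E.V (tan_ge_of tan_le_of gam_ge gam_le Kd ath tanh_ath le_of_tanh_le tanh_diff
  vf_mono al_arctan)
open Pool.Agent.S3.E (al ph tt k2 s2 cc gg al_pos al_lt)

/-- The data of the number of the half twists are correct. -/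
structure Fa.Ok (f : Fa) (a : ℕ) : Prop where
  a3 : 3 ≤ a
  td : ∀ M : ℕ, 0 < f.td M
  th : ∀ M : ℕ, M < 16384 → tanh (a * ath (rr M)) = ((f.tn M : ℕ) : ℝ) / ((f.td M : ℕ) : ℝ)
  s : ∀ x : ℕ, sin (a * arctan (rr x)) * 16384 ^ a =
    cos (arctan (rr x)) ^ a * (((f.sp x : ℕ) : ℝ) - ((f.sn x : ℕ) : ℝ))
  c : ∀ x : ℕ, cos (a * arctan (rr x)) * 16384 ^ a =
    cos (arctan (rr x)) ^ a * (((f.cp x : ℕ) : ℝ) - ((f.cn x : ℕ) : ℝ))
  n : ∀ x : ℕ, ((f.nn x : ℕ) : ℝ) = (268435456 + (x : ℝ) ^ 2) ^ a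
  xu : ∀ x : ℕ, x ≤ f.xm → a * arctan (rr x) ≤ 3 * π / 2
  cx : f.cx ≤ f.xm

/-- A point of a box. -/
structure Bm (f : Fa) (b : Bx) (x m u : ℝ) : Prop where
  x0 : rr b.x0 ≤ x
  x1 : x ≤ rr b.x1
  m0 : rr b.m0 ≤ m
  m1 : m ≤ rr b.m1
  u0 : rr b.u0 ≤ u
  u1 : u ≤ rr b.u1
  p0 : 1 ≤ b.x0
  px : b.x1 ≤ f.xm
  pm : b.m1 < 16384
  pu : b.u1 ≤ 16384

theorem rr_lt_one {n : ℕ} (h : n < 16384) : rr n < 1 := by
  rw [← rr_one]
  exact rr_lt h

theorem rr_pos {n : ℕ} (h : 1 ≤ n) : 0 < rr n := by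
  unfold rr
  have : (0 : ℝ) < n := by exact_mod_cast h
  positivity

section box

variable {f : Fa} {b : Bx} {x m u : ℝ}

theorem Bm.xp (h : Bm f b x m u) : 0 < x := lt_of_lt_of_le (rr_pos h.p0) h.x0
theorem Bm.mp (h : Bm f b x m u) : 0 ≤ m := (rr_nonneg _).trans h.m0
theorem Bm.ml (h : Bm f b x m u) : m < 1 := lt_of_le_of_lt h.m1 (rr_lt_one h.pm)
theorem Bm.mm (h : Bm f b x m u) : b.m0 ≤ b.m1 := rr_iff.1 (h.m0.trans h.m1)
theorem Bm.xx (h : Bm f b x m u) : b.x0 ≤ b.x1 := rr_iff.1 (h.x0.trans h.x1)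
theorem Bm.uu (h : Bm f b x m u) : b.u0 ≤ b.u1 := rr_iff.1 (h.u0.trans h.u1)
theorem Bm.x1p (h : Bm f b x m u) : 1 ≤ b.x1 := h.p0.trans h.xx

theorem T_up (h : Bm f b x m u) : 0 < TdU b ∧
    Tq x m ≤ ((TnU b : ℕ) : ℝ) / ((TdU b : ℕ) : ℝ) := by
  unfold TdU TnU
  have hx := h.xp
  have hx0 := rr_pos h.p0
  have hx1 := rr_pos h.x1p
  rcases hb : Nat.ble (Nat.mul b.x0 b.x1) 268435456 with _ | _
  · have e : cU b = b.x1 := by unfold cU; rw [hb]; rfl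
    rw [e]
    obtain ⟨g1, g2⟩ := Tq_cast (X := b.x1) (M := b.m1) h.x1p h.pm
    refine ⟨g1, ?_⟩
    rw [← g2]
    refine Tq_mono hx ?_ h.mp h.m1 (rr_lt_one h.pm)
    have h1 : 268435456 < b.x0 * b.x1 := by
      by_contra hc
      push Not at hc
      have : Nat.ble (Nat.mul b.x0 b.x1) 268435456 = true := by
        rw [Nat.ble_eq]
        exact hc
      rw [hb] at this
      exact absurd this (by decide)
    have h2 : 1 < rr b.x0 * rr b.x1 := by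
      have h3 : (268435456 : ℝ) < (b.x0 : ℝ) * b.x1 := by exact_mod_cast h1
      rw [cast_rr b.x0, cast_rr b.x1] at h3
      linarith
    have h3 : 1 ≤ x * rr b.x1 := by nlinarith [h.x0]
    have h4 : x + x⁻¹ - (rr b.x1 + (rr b.x1)⁻¹) = -((rr b.x1 - x) * (x * rr b.x1 - 1) /
        (x * rr b.x1)) := by
      field_simp
      ring
    have h5 : 0 ≤ (rr b.x1 - x) * (x * rr b.x1 - 1) / (x * rr b.x1) := by
      apply div_nonneg _ (by positivity)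
      exact mul_nonneg (by linarith [h.x1]) (by linarith)
    linarith
  · have e : cU b = b.x0 := by unfold cU; rw [hb]; rfl
    rw [e]
    obtain ⟨g1, g2⟩ := Tq_cast (X := b.x0) (M := b.m1) h.p0 h.pm
    refine ⟨g1, ?_⟩
    rw [← g2]
    refine Tq_mono hx ?_ h.mp h.m1 (rr_lt_one h.pm)
    have h1 : b.x0 * b.x1 ≤ 268435456 := by
      rw [Nat.ble_eq] at hb
      exact hb
    have h2 : rr b.x0 * rr b.x1 ≤ 1 := by
      have h3 : (b.x0 : ℝ) * b.x1 ≤ (268435456 : ℝ) := by exact_mod_cast h1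
      rw [cast_rr b.x0, cast_rr b.x1] at h3
      linarith
    have h3 : x * rr b.x0 ≤ 1 := by nlinarith [h.x1]
    have h4 : rr b.x0 + (rr b.x0)⁻¹ - (x + x⁻¹) = (x - rr b.x0) * (1 - x * rr b.x0) /
        (x * rr b.x0) := by
      field_simp
      ring
    have h5 : 0 ≤ (x - rr b.x0) * (1 - x * rr b.x0) / (x * rr b.x0) := by
      apply div_nonneg _ (by positivity)
      exact mul_nonneg (by linarith [h.x0]) (by linarith)
    linarith

theorem T_lo (h : Bm f b x m u) : 0 < TdL b ∧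
    ((TnL b : ℕ) : ℝ) / ((TdL b : ℕ) : ℝ) ≤ Tq x m := by
  unfold TdL TnL
  have hx := h.xp
  have hx0 := rr_pos h.p0
  have hx1 := rr_pos h.x1p
  have hm0 : b.m0 < 16384 := lt_of_le_of_lt h.mm h.pm
  have key : ∀ X : ℕ, 0 < X → rr X + (rr X)⁻¹ ≤ x + x⁻¹ → 0 < tD X b.m0 ∧
      ((tN X b.m0 : ℕ) : ℝ) / ((tD X b.m0 : ℕ) : ℝ) ≤ Tq x m := by
    intro X hX hc
    obtain ⟨g1, g2⟩ := Tq_cast (X := X) (M := b.m0) hX hm0
    refine ⟨g1, ?_⟩
    rw [← g2]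
    exact Tq_mono (rr_pos hX) hc (rr_nonneg _) h.m0 h.ml
  rcases hb : Nat.ble 16384 b.x0 with _ | _
  · rcases hc : Nat.ble b.x1 16384 with _ | _
    · have e : cL b = 16384 := by unfold cL; rw [hb, hc]; rfl
      rw [e]
      apply key _ (by norm_num)
      rw [rr_one]
      have h4 : x + x⁻¹ - (1 + (1 : ℝ)⁻¹) = (x - 1) ^ 2 / x := by
        field_simp
        ring
      have : 0 ≤ (x - 1) ^ 2 / x := by positivity
      linarith
    · have e : cL b = b.x1 := by unfold cL; rw [hb, hc]; rfl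
      rw [e]
      apply key _ h.x1p
      have h1 : rr b.x1 ≤ 1 := by
        rw [Nat.ble_eq] at hc
        rw [← rr_one]
        exact rr_le hc
      have h4 : x + x⁻¹ - (rr b.x1 + (rr b.x1)⁻¹) = (rr b.x1 - x) * (1 - x * rr b.x1) /
          (x * rr b.x1) := by
        field_simp
        ring
      have h5 : 0 ≤ (rr b.x1 - x) * (1 - x * rr b.x1) / (x * rr b.x1) := by
        apply div_nonneg _ (by positivity)
        exact mul_nonneg (by linarith [h.x1]) (by nlinarith [h.x1])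
      linarith
  · have e : cL b = b.x0 := by unfold cL; rw [hb]; rfl
    rw [e]
    apply key _ h.p0
    have h1 : 1 ≤ rr b.x0 := by
      rw [Nat.ble_eq] at hb
      rw [← rr_one]
      exact rr_le hb
    have h4 : x + x⁻¹ - (rr b.x0 + (rr b.x0)⁻¹) = (x - rr b.x0) * (x * rr b.x0 - 1) /
        (x * rr b.x0) := by
      field_simp
      ring
    have h5 : 0 ≤ (x - rr b.x0) * (x * rr b.x0 - 1) / (x * rr b.x0) := by
      apply div_nonneg _ (by positivity)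
      exact mul_nonneg (by linarith [h.x0]) (by nlinarith [h.x0])
    linarith

theorem Z_up (h : Bm f b x m u) : 0 < ZdU b ∧
    Zq x m ≤ ((ZnU b : ℕ) : ℝ) / ((ZdU b : ℕ) : ℝ) := by
  unfold ZdU ZnU
  obtain ⟨g1, g2⟩ := Zq_cast b.x1 (mU b)
  refine ⟨by exact_mod_cast g1, ?_⟩
  rw [← g2]
  refine (Zq_x h.xp.le h.x1 h.mp h.ml.le).trans ?_
  rcases hb : Nat.ble 16384 b.x1 with _ | _
  · have e : mU b = b.m1 := by unfold mU; rw [hb]; rfl
    rw [e]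
    refine Zq_m_le ?_ h.mp h.m1
    have h1 : b.x1 < 16384 := by
      by_contra hc
      push Not at hc
      rw [← Nat.ble_eq, hb] at hc
      exact absurd hc (by decide)
    have := rr_lt_one h1
    have := rr_nonneg b.x1
    nlinarith
  · have e : mU b = b.m0 := by unfold mU; rw [hb]; rfl
    rw [e]
    refine Zq_m_ge ?_ (rr_nonneg _) h.m0
    have h1 : 1 ≤ rr b.x1 := by
      rw [Nat.ble_eq] at hb
      rw [← rr_one]
      exact rr_le hb
    nlinarith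

theorem Z_lo (h : Bm f b x m u) : 0 < ZdL b ∧
    ((ZnL b : ℕ) : ℝ) / ((ZdL b : ℕ) : ℝ) ≤ Zq x m := by
  unfold ZdL ZnL
  obtain ⟨g1, g2⟩ := Zq_cast b.x0 (mL b)
  refine ⟨by exact_mod_cast g1, ?_⟩
  rw [← g2]
  refine le_trans ?_ (Zq_x (rr_nonneg _) h.x0 h.mp h.ml.le)
  rcases hb : Nat.ble 16384 b.x0 with _ | _
  · have e : mL b = b.m0 := by unfold mL; rw [hb]; rfl
    rw [e]
    refine Zq_m_le ?_ (rr_nonneg _) h.m0
    have h1 : b.x0 < 16384 := by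
      by_contra hc
      push Not at hc
      rw [← Nat.ble_eq, hb] at hc
      exact absurd hc (by decide)
    have := rr_lt_one h1
    have := rr_nonneg b.x0
    nlinarith
  · have e : mL b = b.m1 := by unfold mL; rw [hb]; rfl
    rw [e]
    refine Zq_m_ge ?_ h.mp h.m1
    have h1 : 1 ≤ rr b.x0 := by
      rw [Nat.ble_eq] at hb
      rw [← rr_one]
      exact rr_le hb
    nlinarith

end box

/-! ### `tanh p` -/

/-- Bounds of `tanh p`. -/
structure SB (hn hd kn kd : ℕ) (p : ℝ) : Prop where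
  d0 : 0 < hd
  d1 : 0 < kd
  lo : (hn : ℝ) / hd ≤ tanh p
  up : tanh p ≤ (kn : ℝ) / kd

theorem SB.lt {hn hd kn kd : ℕ} {p : ℝ} (h : SB hn hd kn kd p) : hn < hd := by
  have h1 : (0 : ℝ) < hd := by exact_mod_cast h.d0
  have h2 := lt_of_le_of_lt h.lo (tanh_lt_one p)
  rw [div_lt_one h1] at h2
  exact_mod_cast h2

section tau

variable {f : Fa} {a : ℕ} {b : Bx} {x m u I : ℝ}

theorem tau_lo (hf : f.Ok a) {M : ℕ} (hM : M < 16384) (h : rr M ≤ tanh I) :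
    ((f.tn M : ℕ) : ℝ) / ((f.td M : ℕ) : ℝ) ≤ tanh (a * I) := by
  rw [← hf.th M hM]
  apply tanh_mono
  apply mul_le_mul_of_nonneg_left _ (Nat.cast_nonneg a)
  apply le_of_tanh_le
  rw [tanh_ath (by linarith [rr_nonneg M]) (rr_lt_one hM)]
  exact h

theorem tau_up (hf : f.Ok a) {M : ℕ} (hM : M < 16384) (h : tanh I ≤ rr M) :
    tanh (a * I) ≤ ((f.tn M : ℕ) : ℝ) / ((f.td M : ℕ) : ℝ) := by
  rw [← hf.th M hM]
  apply tanh_mono
  apply mul_le_mul_of_nonneg_left _ (Nat.cast_nonneg a)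
  apply le_of_tanh_le
  rw [tanh_ath (by linarith [rr_nonneg M]) (rr_lt_one hM)]
  exact h

theorem tn_lt_td (hf : f.Ok a) {M : ℕ} (hM : M < 16384) : f.tn M < f.td M := by
  have h1 := hf.th M hM
  have h2 := tanh_lt_one (a * ath (rr M))
  have h3 : (0 : ℝ) < ((f.td M : ℕ) : ℝ) := by exact_mod_cast hf.td M
  rw [h1, div_lt_one h3] at h2
  exact_mod_cast h2

/-- `vn / vd` -/
theorem v_cast (hf : f.Ok a) {M V : ℕ} (hM : M < 16384) (hV : V ≤ 16384) :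
    0 < vd f M V ∧ ((vd f M V : ℕ) : ℝ) =
        16384 * ((f.td M : ℕ) : ℝ) * (1 - ((f.tn M : ℕ) : ℝ) / ((f.td M : ℕ) : ℝ) * rr V) ∧
      ((vn f M V : ℕ) : ℝ) = max (16384 * ((f.td M : ℕ) : ℝ) *
        (((f.tn M : ℕ) : ℝ) / ((f.td M : ℕ) : ℝ) - rr V)) 0 := by
  have h1 := tn_lt_td hf hM
  have h2 : V * f.tn M < 16384 * f.td M := by
    have h3 : V * f.tn M ≤ 16384 * f.tn M := Nat.mul_le_mul_right _ hV
    have h4 : 16384 * f.tn M < 16384 * f.td M := by omega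
    omega
  have h3 : (0 : ℝ) < ((f.td M : ℕ) : ℝ) := by exact_mod_cast hf.td M
  refine ⟨Nat.sub_pos_of_lt h2, ?_, ?_⟩
  · unfold vd
    rw [csub_le (show Nat.mul V (f.tn M) ≤ Nat.mul 16384 (f.td M) from h2.le), cmul, cmul]
    unfold rr
    push_cast
    field_simp
  · unfold vn
    rw [csub, cmul, cmul]
    congr 1
    unfold rr
    push_cast
    field_simp

theorem v_lo (hf : f.Ok a) {M V : ℕ} (hM : M < 16384) (hV : V ≤ 16384) {p₁ p₂ : ℝ}
    (h0 : 0 ≤ p₁) (h1 : 0 ≤ p₂) (hI : a * I = p₁ + p₂) (hm : rr M ≤ tanh I)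
    (hu : tanh p₁ ≤ rr V) : ((vn f M V : ℕ) : ℝ) / ((vd f M V : ℕ) : ℝ) ≤ tanh p₂ := by
  obtain ⟨g1, g2, g3⟩ := v_cast hf hM hV
  have g4 : (0 : ℝ) < ((vd f M V : ℕ) : ℝ) := by exact_mod_cast g1
  have h3 : (0 : ℝ) < ((f.td M : ℕ) : ℝ) := by exact_mod_cast hf.td M
  set τ₀ : ℝ := ((f.tn M : ℕ) : ℝ) / ((f.td M : ℕ) : ℝ) with hτ₀
  have hτ := tau_lo hf hM hm
  rw [← hτ₀] at hτ
  have e : p₂ = a * I - p₁ := by linarith
  rcases le_total τ₀ (rr V) with hc | hc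
  · rw [g3, max_eq_right, zero_div]
    · exact tanh_nonneg h1
    · exact mul_nonpos_of_nonneg_of_nonpos (by positivity) (by linarith)
  · have g5 : 0 ≤ 16384 * ((f.td M : ℕ) : ℝ) * (τ₀ - rr V) :=
      mul_nonneg (by positivity) (by linarith)
    rw [g3, max_eq_left g5, g2]
    have ht : τ₀ < 1 := by
      rw [hτ₀, div_lt_one h3]
      exact_mod_cast tn_lt_td hf hM
    have ht0 : 0 ≤ τ₀ := (rr_nonneg V).trans hc
    have g6 : 16384 * ((f.td M : ℕ) : ℝ) ≠ 0 := by positivity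
    rw [mul_div_mul_left _ _ g6, e, tanh_diff]
    exact vf_mono hτ (tanh_lt_one _) hu (tanh_nonneg h0) (lt_of_le_of_lt hc ht) ht0

theorem v_up (hf : f.Ok a) {M V : ℕ} (hM : M < 16384) (hV : V ≤ 16384) {p₁ p₂ : ℝ}
    (h0 : 0 ≤ p₁) (h1 : 0 ≤ p₂) (hI : a * I = p₁ + p₂) (hm : tanh I ≤ rr M)
    (hu : rr V ≤ tanh p₁) : tanh p₂ ≤ ((vn f M V : ℕ) : ℝ) / ((vd f M V : ℕ) : ℝ) := by
  obtain ⟨g1, g2, g3⟩ := v_cast hf hM hV
  have h3 : (0 : ℝ) < ((f.td M : ℕ) : ℝ) := by exact_mod_cast hf.td M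
  set τ₀ : ℝ := ((f.tn M : ℕ) : ℝ) / ((f.td M : ℕ) : ℝ) with hτ₀
  have hτ := tau_up hf hM hm
  rw [← hτ₀] at hτ
  have e : p₂ = a * I - p₁ := by linarith
  have hc : rr V ≤ τ₀ := by
    refine hu.trans (le_trans (tanh_mono ?_) hτ)
    linarith
  have g5 : 0 ≤ 16384 * ((f.td M : ℕ) : ℝ) * (τ₀ - rr V) :=
    mul_nonneg (by positivity) (by linarith)
  rw [g3, max_eq_left g5, g2]
  have ht : τ₀ < 1 := by
    rw [hτ₀, div_lt_one h3]
    exact_mod_cast tn_lt_td hf hM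
  have g6 : 16384 * ((f.td M : ℕ) : ℝ) ≠ 0 := by positivity
  rw [mul_div_mul_left _ _ g6, e, tanh_diff]
  refine vf_mono hτ ht hu (rr_nonneg V) (tanh_lt_one _) ?_
  exact (tanh_nonneg h0).trans (tanh_mono (by linarith))

end tau

/-! ### `tan r` -/

/-- The region of a slot. -/
def Sp.rg (s : Sp) : Rg := ⟨s.k0, s.k1, s.t0, s.t1, 0⟩

section gam

variable {R I ρ β p r : ℝ} {s : Sp} {n d hn hd kn kd : ℕ}

theorem gD_cast (n d t : ℕ) : ((gD n d t : ℕ) : ℝ) = 1000 * d + t * n := by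
  unfold gD
  rw [cadd, cmul, cmul]
  norm_num

theorem gPN_cast (n d t : ℕ) :
    ((gP n d t : ℕ) : ℝ) - ((gN n d t : ℕ) : ℝ) = 1000 * n - t * d := by
  unfold gP gN
  rw [csub_csub, cmul, cmul]
  norm_num

theorem aN_cast (n d t : ℕ) : ((aN n d t : ℕ) : ℝ) = 1000 * n + t * d := by
  unfold aN
  rw [cadd, cmul, cmul]
  norm_num

theorem aD_cast {n d t : ℕ} (h : 0 < aD n d t) : ((aD n d t : ℕ) : ℝ) = 1000 * d - t * n ∧
    (0 : ℝ) < 1000 * d - t * n := by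
  unfold aD at h ⊢
  obtain ⟨h1, h2⟩ := csub_of_pos h
  rw [h1]
  rw [cmul, cmul] at h2 ⊢
  norm_num at h2 ⊢
  exact h2

theorem r_lo (hs : Slot R I ρ β p r) (h : 0 < R) (h' : R < π / 2) (hI : 0 < I)
    (c : 0 < cos r) (k : Kd (!s.k) s.rg ρ β) (hd0 : 0 < d) (hT : (n : ℝ) / d ≤ TT R I)
    (sb : SB hn hd kn kd p) (hL : 0 < Ld s n d hd kd) :
    (((Lp s n d hn kd : ℕ) : ℝ) - ((Ln s n d kn hd : ℕ) : ℝ)) / ((Ld s n d hd kd : ℕ) : ℝ) ≤
      tan r := by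
  have hal := al_arctan h h' hI
  have hα : arctan ((n : ℝ) / d) ≤ al R I := by rw [hal]; exact arctan_mono hT
  have hd1 : (0 : ℝ) < d := by exact_mod_cast hd0
  have e0 : (0 : ℝ) < hd := by exact_mod_cast sb.d0
  have e1 : (0 : ℝ) < kd := by exact_mod_cast sb.d1
  have hlo := sb.lo
  have hup := sb.up
  have hn0 : (0 : ℝ) ≤ n := Nat.cast_nonneg _
  rcases hk : s.k with _ | _
  · -- S
    rw [hk] at k
    obtain ⟨hb, -⟩ := k.sgn.1 rfl
    have hb' : arctan (-((s.t1 : ℝ) / 1000)) ≤ β := hb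
    have ht0 : (0 : ℝ) ≤ (s.t1 : ℝ) := Nat.cast_nonneg _
    have h1 : (n : ℝ) / d * -((s.t1 : ℝ) / 1000) < 1 := by
      have : 0 ≤ (n : ℝ) / d * ((s.t1 : ℝ) / 1000) := by positivity
      linarith
    have hΓ := tan_ge_of hs c (gam_ge hα hb' h1 hs.g1)
    have e2 : Lp s n d hn kd = Nat.mul (gP n d s.t1) (Nat.mul hn kd) := by unfold Lp; rw [hk]; rfl
    have e3 : Ln s n d kn hd = Nat.mul (gN n d s.t1) (Nat.mul kn hd) := by unfold Ln; rw [hk]; rfl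
    have e4 : Ld s n d hd kd = Nat.mul (gD n d s.t1) (Nat.mul hd kd) := by unfold Ld; rw [hk]; rfl
    rw [e2, e3, e4, cmul, cmul, cmul, cmul, cmul, cmul, gD_cast]
    have f1 := gPN_cast n d s.t1
    have f2 : (0 : ℝ) ≤ ((gP n d s.t1 : ℕ) : ℝ) := Nat.cast_nonneg _
    have f3 : (0 : ℝ) ≤ ((gN n d s.t1 : ℕ) : ℝ) := Nat.cast_nonneg _
    have f4 : (0 : ℝ) < 1000 * d + s.t1 * n := by positivity
    have f5 : (((n : ℝ) / d + -((s.t1 : ℝ) / 1000)) / (1 - (n : ℝ) / d * -((s.t1 : ℝ) / 1000))) =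
        (((gP n d s.t1 : ℕ) : ℝ) - ((gN n d s.t1 : ℕ) : ℝ)) / (1000 * d + s.t1 * n) := by
      rw [f1]
      have g1 : 1 - (n : ℝ) / d * -((s.t1 : ℝ) / 1000) = (1000 * d + s.t1 * n) / (1000 * d) := by
        field_simp
        ring
      rw [g1]
      field_simp
      ring
    rw [f5] at hΓ
    refine le_trans ?_ hΓ
    have g2 : ((gP n d s.t1 : ℕ) : ℝ) * ((hn : ℝ) / hd) ≤ ((gP n d s.t1 : ℕ) : ℝ) * tanh p :=
      mul_le_mul_of_nonneg_left hlo f2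
    have g3 : ((gN n d s.t1 : ℕ) : ℝ) * tanh p ≤ ((gN n d s.t1 : ℕ) : ℝ) * ((kn : ℝ) / kd) :=
      mul_le_mul_of_nonneg_left hup f3
    have g4 : (((gP n d s.t1 : ℕ) : ℝ) * ((hn : ℝ) * kd) - ((gN n d s.t1 : ℕ) : ℝ) *
        ((kn : ℝ) * hd)) / ((1000 * d + s.t1 * n) * ((hd : ℝ) * kd)) =
        (((gP n d s.t1 : ℕ) : ℝ) * ((hn : ℝ) / hd) - ((gN n d s.t1 : ℕ) : ℝ) * ((kn : ℝ) / kd)) /
          (1000 * d + s.t1 * n) := by
      field_simp
    rw [g4, div_mul_eq_mul_div]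
    apply div_le_div_of_nonneg_right _ f4.le
    linarith
  · -- A
    rw [hk] at k
    obtain ⟨hb, -⟩ := k.sgn.2 rfl
    have hb' : arctan ((s.t0 : ℝ) / 1000) ≤ β := hb
    have e2 : Lp s n d hn kd = Nat.mul (aN n d s.t0) (Nat.mul hn kd) := by unfold Lp; rw [hk]; rfl
    have e3 : Ln s n d kn hd = Nat.mul 0 (Nat.mul kn hd) := by unfold Ln; rw [hk]; rfl
    have e4 : Ld s n d hd kd = Nat.mul (aD n d s.t0) (Nat.mul hd kd) := by unfold Ld; rw [hk]; rfl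
    rw [e4] at hL
    have h0 : 0 < aD n d s.t0 := by
      rcases Nat.eq_zero_or_pos (aD n d s.t0) with hz | hz
      · rw [hz] at hL
        have : Nat.mul 0 (Nat.mul hd kd) = 0 := Nat.zero_mul _
        omega
      · exact hz
    obtain ⟨f1, f2⟩ := aD_cast h0
    have g1 : 1 - (n : ℝ) / d * ((s.t0 : ℝ) / 1000) = (1000 * d - s.t0 * n) / (1000 * d) := by
      field_simp
    have h1 : (n : ℝ) / d * ((s.t0 : ℝ) / 1000) < 1 := by
      have : 0 < 1 - (n : ℝ) / d * ((s.t0 : ℝ) / 1000) := by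
        rw [g1]
        positivity
      linarith
    have hΓ := tan_ge_of hs c (gam_ge hα hb' h1 hs.g1)
    rw [e2, e3, e4, cmul, cmul, cmul, cmul, cmul, cmul, f1, aN_cast]
    have f5 : (((n : ℝ) / d + ((s.t0 : ℝ) / 1000)) / (1 - (n : ℝ) / d * ((s.t0 : ℝ) / 1000))) =
        (1000 * n + s.t0 * d) / (1000 * d - s.t0 * n) := by
      rw [g1]
      field_simp
    rw [f5] at hΓ
    refine le_trans ?_ hΓ
    have e5 : ((0 : ℕ) : ℝ) = 0 := by norm_num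
    have f6 : 0 ≤ (1000 * (n : ℝ) + s.t0 * d) / (1000 * d - s.t0 * n) := by positivity
    have g4 : ((1000 * (n : ℝ) + s.t0 * d) * ((hn : ℝ) * kd) - ((0 : ℕ) : ℝ) * ((kn : ℝ) * hd)) /
        ((1000 * d - s.t0 * n) * ((hd : ℝ) * kd)) =
        (1000 * (n : ℝ) + s.t0 * d) / (1000 * d - s.t0 * n) * ((hn : ℝ) / hd) := by
      rw [e5]
      field_simp
      ring
    rw [g4]
    exact mul_le_mul_of_nonneg_left hlo f6

theorem r_up (hs : Slot R I ρ β p r) (h : 0 < R) (h' : R < π / 2) (hI : 0 < I)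
    (c : 0 < cos r) (k : Kd (!s.k) s.rg ρ β) (hd0 : 0 < d) (hT : TT R I ≤ (n : ℝ) / d)
    (sb : SB hn hd kn kd p) (hL : 0 < Ud s n d hd kd) :
    tan r ≤ (((Up s n d kn hd : ℕ) : ℝ) - ((Un s n d hn kd : ℕ) : ℝ)) /
      ((Ud s n d hd kd : ℕ) : ℝ) := by
  have hal := al_arctan h h' hI
  have hα : al R I ≤ arctan ((n : ℝ) / d) := by rw [hal]; exact arctan_mono hT
  have hd1 : (0 : ℝ) < d := by exact_mod_cast hd0
  have e0 : (0 : ℝ) < hd := by exact_mod_cast sb.d0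
  have e1 : (0 : ℝ) < kd := by exact_mod_cast sb.d1
  have hlo := sb.lo
  have hup := sb.up
  have hn0 : (0 : ℝ) ≤ n := Nat.cast_nonneg _
  rcases hk : s.k with _ | _
  · -- S
    rw [hk] at k
    obtain ⟨-, hb⟩ := k.sgn.1 rfl
    have hb' : β ≤ arctan (-((s.t0 : ℝ) / 1000)) := hb
    have ht0 : (0 : ℝ) ≤ (s.t0 : ℝ) := Nat.cast_nonneg _
    have h1 : (n : ℝ) / d * -((s.t0 : ℝ) / 1000) < 1 := by
      have : 0 ≤ (n : ℝ) / d * ((s.t0 : ℝ) / 1000) := by positivity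
      linarith
    have hΓ := tan_le_of hs c (gam_le hα hb' h1 hs.g0)
    have e2 : Up s n d kn hd = Nat.mul (gP n d s.t0) (Nat.mul kn hd) := by unfold Up; rw [hk]; rfl
    have e3 : Un s n d hn kd = Nat.mul (gN n d s.t0) (Nat.mul hn kd) := by unfold Un; rw [hk]; rfl
    have e4 : Ud s n d hd kd = Nat.mul (gD n d s.t0) (Nat.mul hd kd) := by unfold Ud; rw [hk]; rfl
    rw [e2, e3, e4, cmul, cmul, cmul, cmul, cmul, cmul, gD_cast]
    have f1 := gPN_cast n d s.t0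
    have f2 : (0 : ℝ) ≤ ((gP n d s.t0 : ℕ) : ℝ) := Nat.cast_nonneg _
    have f3 : (0 : ℝ) ≤ ((gN n d s.t0 : ℕ) : ℝ) := Nat.cast_nonneg _
    have f4 : (0 : ℝ) < 1000 * d + s.t0 * n := by positivity
    have f5 : (((n : ℝ) / d + -((s.t0 : ℝ) / 1000)) / (1 - (n : ℝ) / d * -((s.t0 : ℝ) / 1000))) =
        (((gP n d s.t0 : ℕ) : ℝ) - ((gN n d s.t0 : ℕ) : ℝ)) / (1000 * d + s.t0 * n) := by
      rw [f1]
      have g1 : 1 - (n : ℝ) / d * -((s.t0 : ℝ) / 1000) = (1000 * d + s.t0 * n) / (1000 * d) := by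
        field_simp
        ring
      rw [g1]
      field_simp
      ring
    rw [f5] at hΓ
    refine hΓ.trans ?_
    have g2 : ((gP n d s.t0 : ℕ) : ℝ) * tanh p ≤ ((gP n d s.t0 : ℕ) : ℝ) * ((kn : ℝ) / kd) :=
      mul_le_mul_of_nonneg_left hup f2
    have g3 : ((gN n d s.t0 : ℕ) : ℝ) * ((hn : ℝ) / hd) ≤ ((gN n d s.t0 : ℕ) : ℝ) * tanh p :=
      mul_le_mul_of_nonneg_left hlo f3
    have g4 : (((gP n d s.t0 : ℕ) : ℝ) * ((kn : ℝ) * hd) - ((gN n d s.t0 : ℕ) : ℝ) *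
        ((hn : ℝ) * kd)) / ((1000 * d + s.t0 * n) * ((hd : ℝ) * kd)) =
        (((gP n d s.t0 : ℕ) : ℝ) * ((kn : ℝ) / kd) - ((gN n d s.t0 : ℕ) : ℝ) * ((hn : ℝ) / hd)) /
          (1000 * d + s.t0 * n) := by
      field_simp
    rw [g4, div_mul_eq_mul_div]
    apply div_le_div_of_nonneg_right _ f4.le
    linarith
  · -- A
    rw [hk] at k
    obtain ⟨-, hb⟩ := k.sgn.2 rfl
    have hb' : β ≤ arctan ((s.t1 : ℝ) / 1000) := hb
    have e2 : Up s n d kn hd = Nat.mul (aN n d s.t1) (Nat.mul kn hd) := by unfold Up; rw [hk]; rfl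
    have e3 : Un s n d hn kd = Nat.mul 0 (Nat.mul hn kd) := by unfold Un; rw [hk]; rfl
    have e4 : Ud s n d hd kd = Nat.mul (aD n d s.t1) (Nat.mul hd kd) := by unfold Ud; rw [hk]; rfl
    rw [e4] at hL
    have h0 : 0 < aD n d s.t1 := by
      rcases Nat.eq_zero_or_pos (aD n d s.t1) with hz | hz
      · rw [hz] at hL
        have : Nat.mul 0 (Nat.mul hd kd) = 0 := Nat.zero_mul _
        omega
      · exact hz
    obtain ⟨f1, f2⟩ := aD_cast h0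
    have g1 : 1 - (n : ℝ) / d * ((s.t1 : ℝ) / 1000) = (1000 * d - s.t1 * n) / (1000 * d) := by
      field_simp
    have h1 : (n : ℝ) / d * ((s.t1 : ℝ) / 1000) < 1 := by
      have : 0 < 1 - (n : ℝ) / d * ((s.t1 : ℝ) / 1000) := by
        rw [g1]
        positivity
      linarith
    have hΓ := tan_le_of hs c (gam_le hα hb' h1 hs.g0)
    rw [e2, e3, e4, cmul, cmul, cmul, cmul, cmul, cmul, f1, aN_cast]
    have f5 : (((n : ℝ) / d + ((s.t1 : ℝ) / 1000)) / (1 - (n : ℝ) / d * ((s.t1 : ℝ) / 1000))) =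
        (1000 * n + s.t1 * d) / (1000 * d - s.t1 * n) := by
      rw [g1]
      field_simp
    rw [f5] at hΓ
    refine hΓ.trans ?_
    have e5 : ((0 : ℕ) : ℝ) = 0 := by norm_num
    have f6 : 0 ≤ (1000 * (n : ℝ) + s.t1 * d) / (1000 * d - s.t1 * n) := by positivity
    have g4 : ((1000 * (n : ℝ) + s.t1 * d) * ((kn : ℝ) * hd) - ((0 : ℕ) : ℝ) * ((hn : ℝ) * kd)) /
        ((1000 * d - s.t1 * n) * ((hd : ℝ) * kd)) =
        (1000 * (n : ℝ) + s.t1 * d) / (1000 * d - s.t1 * n) * ((kn : ℝ) / kd) := by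
      rw [e5]
      field_simp
      ring
    rw [g4]
    exact mul_le_mul_of_nonneg_left hup f6

end gam

end Pool.Agent.S5.E.X3
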