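import Pool.Agent.S5.E.X3.Ok
import Pool.Agent.S5.E.T.Defs

/-!
# Mixed chains, block E: proof codes, the checker of the instances with `a = 3, 4, 5`
-/

set_option autoImplicit false
set_option maxHeartbeats 4000000

namespace Pool.Agent.S5.E.X3

open Real
open Pool.Agent.S5.E.B2 (Rg InR)
open Pool.Agent.S5.E.V (Kd m_le x_le x_ge k2_xm)
open Pool.Agent.S3.E (al ph tt k2 s2 cc gg al_pos al_lt tt_pos)

/-- The bounds needed for the crude estimates. -/
def okR (r : Rg) : Bool := an (Nat.ble 490 r.k0) (an (Nat.ble r.k1 1100) (Nat.ble r.t1 1040))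

def spO (s : Option Bool) (r : Rg) : Sp :=
  match s with
  | none => ⟨false, 0, 0, 0, 0⟩
  | some s => ⟨!s, r.k0, r.k1, r.t0, r.t1⟩

def isE (s : Option Bool) : Bool :=
  match s with
  | none => true
  | some _ => false

/-- The constants of an instance. -/
def csOf (f : Fa) (x : Inst) : Cs :=
  ⟨f, isE x.s₂, spO (some x.s₁) x.r₁, spO x.s₂ x.r₂,
    ⟨true, x.own.k0, x.own.k1, x.own.t0, x.own.t1⟩,
    ⟨true, x.out.k0, x.out.k1, x.out.t0, x.out.t1⟩⟩

/-- The checker. -/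
def chkF (f : Fa) (n X0 X1 : ℕ) (x : Inst) (d : ℕ) : Bool :=
  an (Nat.beq x.a n) (an (Nat.beq x.out.m 0) (an (okR x.r₁) (an (br (isE x.s₂) true (okR x.r₂))
    (Nat.ble 1 (ck (csOf f x) 100 d X0 X1 0 11011 0 (bn (isE x.s₂) 0 16384))))))

/-- The checkers for `a = 3, 4, 5`. -/
def chk3 (x : Inst) (d : ℕ) : Bool := chkF F3 3 7438 35013 x d
def chk4 (x : Inst) (d : ℕ) : Bool := chkF F4 4 6422 35013 x d
def chk5 (x : Inst) (d : ℕ) : Bool := chkF F5 5 5144 16384 x d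

section conv

variable {R I ρ φ : ℝ}

theorem Kq_eq (h : 0 < R) (h' : R < π / 2) :
    (cos R * cosh I) ^ 2 + (sin R * sinh I) ^ 2 = Kq (tan R) (tanh I) := by
  have e : Kq (tan R) (tanh I) = k2 R I := by
    rw [k2_xm h h']
    unfold Kq
    have h1 := tanh_lt_one I
    have h2 := neg_one_lt_tanh I
    have h3 : 1 - tanh I ^ 2 ≠ 0 := by nlinarith
    have h4 : 1 + tan R ^ 2 ≠ 0 := by positivity
    field_simp
    ring
  rw [e]
  unfold k2 cc gg
  rw [cosh_two_mul, cosh_sq I, cos_two_mul]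
  have h1 := sin_sq_add_cos_sq R
  have h2 := cosh_sq I
  linear_combination sinh I ^ 2 * h1 + cos R ^ 2 * h2

theorem uv_eq (h : 0 < R) (h' : R < π / 2) :
    sin R * sinh I = (tan R * tanh I) * (cos R * cosh I) := by
  have hc : cos R ≠ 0 := (cos_pos_of_mem_Ioo ⟨by linarith [pi_pos], h'⟩).ne'
  have hc' := (cosh_pos I).ne'
  rw [tan_eq_sin_div_cos, tanh_eq_sinh_div_cosh]
  field_simp

theorem Gq_of (h : 0 < R) (h' : R < π / 2) {r : Rg}
    (hz : InR r (cos R * cosh I) (sin R * sinh I)) :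
    Gq ⟨true, r.k0, r.k1, r.t0, r.t1⟩ (tan R) (tanh I) := by
  have hc := cos_pos_of_mem_Ioo (x := R) ⟨by linarith [pi_pos], h'⟩
  have hu : 0 < cos R * cosh I := mul_pos hc (cosh_pos I)
  have h1 := hz.lo
  have h2 := hz.hi
  have h3 := hz.a0
  have h4 := hz.a1
  rw [Kq_eq h h'] at h1 h2
  rw [uv_eq h h'] at h3 h4
  exact ⟨le_of_mul_le_mul_right h3 hu, le_of_mul_le_mul_right h4 hu, h1, h2⟩

theorem InR_of (h : 0 < R) (h' : R < π / 2) (hI : 0 < I) {r : Rg} (hm : r.m = 0)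
    (hz : Gq ⟨true, r.k0, r.k1, r.t0, r.t1⟩ (tan R) (tanh I)) :
    InR r (cos R * cosh I) (sin R * sinh I) := by
  have hc := cos_pos_of_mem_Ioo (x := R) ⟨by linarith [pi_pos], h'⟩
  have hs := sin_pos_of_pos_of_lt_pi h (by linarith [pi_pos])
  have hu : 0 < cos R * cosh I := mul_pos hc (cosh_pos I)
  have hv : 0 < sin R * sinh I := mul_pos hs (sinh_pos_iff.2 hI)
  refine ⟨hu.le, hv.le, ?_, ?_, ?_, ?_, ?_⟩
  · rw [Kq_eq h h']
    exact hz.k0
  · rw [Kq_eq h h']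
    exact hz.k1
  · rw [uv_eq h h']
    exact mul_le_mul_of_nonneg_right hz.t0 hu.le
  · rw [uv_eq h h']
    exact mul_le_mul_of_nonneg_right hz.t1 hu.le
  · rw [hm]
    norm_num
    positivity

theorem slot_of {s : Bool} {r : Rg} (h : InP (some s) r ρ φ) :
    Kd s ⟨r.k0, r.k1, r.t0, r.t1, 0⟩ ρ (sg s * φ) := by
  obtain ⟨h1, h2, h3, h4⟩ := h
  have hc := cos_pos_of_mem_Ioo (x := φ) ⟨by linarith, h3⟩
  have g1 := h4.lo
  have g2 := h4.hi
  have e : (ρ * cos φ) ^ 2 + (ρ * sin φ) ^ 2 = ρ ^ 2 := by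
    linear_combination ρ ^ 2 * sin_sq_add_cos_sq φ
  rw [e] at g1 g2
  have hρc : 0 < ρ * cos φ := mul_pos h1 hc
  have g3 := h4.a0
  have g4 := h4.a1
  have e2 : ρ * sin φ = tan φ * (ρ * cos φ) := by
    rw [tan_eq_sin_div_cos]
    field_simp
  rw [e2] at g3 g4
  have g5 := le_of_mul_le_mul_right g3 hρc
  have g6 := le_of_mul_le_mul_right g4 hρc
  have e3 : (if s then -(sg s * φ) else sg s * φ) = φ := by
    cases s <;> simp [sg]
  refine ⟨?_, ?_, ?_, ?_⟩
  · exact (abs_le_of_sq_le_sq' g1 h1.le).2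
  · exact (abs_le_of_sq_le_sq' g2 (by positivity)).2
  · rw [e3]
    have := arctan_mono g5
    rwa [arctan_tan (by linarith) h3] at this
  · rw [e3]
    have := arctan_mono g6
    rwa [arctan_tan (by linarith) h3] at this

theorem in_of {s : Bool} {r : Rg} (h : InP (some s) r ρ φ) (hr : okR r = true) :
    In ρ (sg s * φ) ∧ 0.49 ≤ ρ := by
  unfold okR at hr
  rw [an_iff, an_iff] at hr
  obtain ⟨r1, r2, r3⟩ := hr
  have r1' := ble_real r1
  have r2' := ble_real r2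
  have r3' := ble_real r3
  norm_num at r1' r2' r3'
  have k := slot_of h
  have k0 := k.k0
  have k1 := k.k1
  have k2 := k.t1
  have h2 : 0 < φ := h.2.1
  have e3 : (if s then -(sg s * φ) else sg s * φ) = φ := by
    cases s <;> simp [sg]
  rw [e3] at k2
  have h3 : arctan ((r.t1 : ℝ) / 1000) ≤ arctan 1.04 := by
    apply arctan_mono
    rw [div_le_iff₀ (by norm_num)]
    norm_num
    linarith
  have k3 : φ ≤ arctan 1.04 := by
    refine le_trans ?_ h3
    exact k2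
  have hρ : 0.49 ≤ ρ := by
    refine le_trans ?_ k0
    rw [le_div_iff₀ (by norm_num)]
    norm_num
    linarith
  have hρ' : ρ ≤ 1.1 := by
    refine le_trans k1 ?_
    rw [div_le_iff₀ (by norm_num)]
    norm_num
    linarith
  have hpos : 0 < arctan 1.04 := by
    rw [arctan_pos]
    norm_num
  refine ⟨⟨hρ', Or.inr hρ, ?_, ?_⟩, hρ⟩
  · cases s
    · have : sg false * φ = φ := by simp [sg]
      rw [this]
      linarith
    · have : sg true * φ = -φ := by simp [sg]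
      rw [this]
      linarith
  · cases s
    · have : sg false * φ = φ := by simp [sg]
      rw [this]
      linarith
    · have : sg true * φ = -φ := by simp [sg]
      rw [this]
      linarith

theorem in_zero : In 0 0 := by
  have hpos : 0 < arctan 1.04 := by
    rw [arctan_pos]
    norm_num
  exact ⟨by norm_num, Or.inl rfl, by linarith, by linarith⟩

theorem kd_zero : Kd true ⟨0, 0, 0, 0, 0⟩ 0 0 := by
  constructor <;> norm_num

end conv

section vx

variable {a R I ρ₁ β₁ p₁ r₁ ρ₂ β₂ p₂ r₂ : ℝ}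

theorem cos_pos_of (h : Vx a R I ρ₁ β₁ p₁ r₁ ρ₂ β₂ p₂ r₂) (ha : 3 ≤ a) (i₁ : In ρ₁ β₁)
    (i₂ : In ρ₂ β₂) (hρ : 0.49 ≤ ρ₁) : 0 < cos r₁ := by
  have h1 := h.A3 ha i₁ i₂ hρ
  have h2 := i₁.βl
  have h3 := arctan_lt_pi_div_two 1.04
  have h4 := al_pos h.R0 h.R1 h.I0
  have hc : 0 < cos (al R I + β₁) := cos_pos_of_mem_Ioo ⟨by linarith, h1⟩
  have e := h.sl₁.e1
  have h5 : 0 < sinh p₁ * cos r₁ := by
    rw [e]
    exact mul_pos (mul_pos (by linarith) (tt_pos h.R0 h.R1)) hc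
  exact pos_of_mul_pos_right h5 (sinh_nonneg_iff.2 h.sl₁.p0)

theorem x_le5 (h : Vx a R I ρ₁ β₁ p₁ r₁ ρ₂ β₂ p₂ r₂) (ha : 5 ≤ a) (i₁ : In ρ₁ β₁)
    (i₂ : In ρ₂ β₂) : tan R ≤ 1 := by
  have hR : R ≤ π / 4 := by
    rcases le_total (TT R I) 1.04 with hT | hT
    · have h1 := h.sl₁.r_ge_p h.R0 h.R1 h.I0 i₁ hT
      have h2 := h.sl₂.r_ge_p h.R0 h.R1 h.I0 i₂ hT
      have h3 : a * (R - GA (TT R I) * I) ≤ π := by
        have h4 := h.hR
        have h5 : GA (TT R I) * p₁ + GA (TT R I) * p₂ = GA (TT R I) * (a * I) := by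
          rw [h.hI]
          ring
        have h6 : a * (R - GA (TT R I) * I) = a * R - GA (TT R I) * (a * I) := by ring
        rw [h6, ← h5]
        linarith
      have h7 := h.GI hT
      have h8 := sin_le_one (2 * R)
      have h9 : R - GA (TT R I) * I ≤ π / 5 := by
        rcases le_total (R - GA (TT R I) * I) 0 with h10 | h10
        · linarith [pi_pos]
        · have := mul_le_mul_of_nonneg_right ha h10
          linarith
      have := pi_gt_d4
      linarith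
    · have h1 := h.sl₁.r_nonneg h.R0 h.R1 h.I0 i₁ hT
      have h2 := h.sl₂.r_nonneg h.R0 h.R1 h.I0 i₂ hT
      have h3 := mul_le_mul_of_nonneg_right ha h.R0.le
      linarith [h.hR, pi_pos]
  rw [← tan_pi_div_four]
  rcases hR.eq_or_lt with h1 | h1
  · rw [h1]
  · exact (tan_lt_tan_of_lt_of_lt_pi_div_two (by linarith [h.R0, pi_pos]) (by linarith [pi_pos]) h1).le

theorem x_ge' (h : Vx a R I ρ₁ β₁ p₁ r₁ ρ₂ β₂ p₂ r₂) (ha : 3 ≤ a) (i₁ : In ρ₁ β₁)
    (i₂ : In ρ₂ β₂) {X : ℕ} (hX : (X : ℝ) ≤ 7438) (h2 : a * (rr X) ≤ 1.5707) : rr X ≤ tan R := by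
  rcases x_ge h ha i₁ i₂ with h1 | h1
  · refine le_trans ?_ h1
    unfold rr
    rw [div_le_iff₀ (by norm_num)]
    norm_num
    linarith
  · have h3 := le_tan h.R0.le h.R1
    have h4 := pi_gt_d4
    have h5 : a * rr X < a * R := by linarith
    have h6 := lt_of_mul_lt_mul_left h5 (by linarith)
    linarith

end vx

/-- **Soundness.** -/
theorem chkF_sound {f : Fa} {n X0 X1 : ℕ} (hf : f.Ok n) (hn : n ≠ 8) (h1 : 1 ≤ X0)
    (h2 : X0 ≤ 7438) (h3 : n * X0 ≤ 25733) (h4 : X1 ≤ f.xm) (h5 : X1 = 35013 ∨ (5 ≤ n ∧ X1 = 16384))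
    {x : Inst} {d : ℕ} (h : chkF f n X0 X1 x d = true) : x.Ok3 := by
  intro a R I ρ₁ φ₁ p₁ r₁ ρ₂ φ₂ p₂ r₂ hv ha hp1 hp2 hz
  unfold chkF at h
  rw [an_iff, an_iff, an_iff, an_iff] at h
  obtain ⟨ga, gm, g1, g2, hk⟩ := h
  have ea : x.a = n := Nat.eq_of_beq_eq_true ga
  have em : x.out.m = 0 := Nat.eq_of_beq_eq_true gm
  have haa : a = (n : ℝ) := by
    unfold HasA at ha
    rw [ea, if_neg hn] at ha
    exact ha
  subst haa
  have hn3 : (3 : ℝ) ≤ (n : ℝ) := by exact_mod_cast hf.a3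
  obtain ⟨i₁, hρ₁⟩ := in_of hp1 g1
  -- the second slot
  have hs2 : In ρ₂ (sgO x.s₂ * φ₂) ∧ 0 < cos r₂ ∧
      Kd (!(spO x.s₂ x.r₂).k) (spO x.s₂ x.r₂).rg ρ₂ (sgO x.s₂ * φ₂) ∧ (isE x.s₂ = true → p₂ = 0) := by
    rcases hs : x.s₂ with _ | s
    · rw [hs] at hp2 hv
      obtain ⟨e1, e2⟩ := hp2
      subst e1 e2
      obtain ⟨z1, z2⟩ := hv.sl₂.zero
      have e3 : sgO none * 0 = 0 := by simp
      rw [e3]
      refine ⟨in_zero, ?_, kd_zero, fun _ => z1⟩
      rw [z2, cos_zero]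
      exact one_pos
    · rw [hs] at hp2 hv g2
      have g2' : okR x.r₂ = true := g2
      obtain ⟨i₂, hρ₂⟩ := in_of hp2 g2'
      refine ⟨i₂, cos_pos_of hv.swap hn3 i₂ i₁ hρ₂, ?_, fun hh => absurd hh (by simp [isE])⟩
      have := slot_of hp2
      show Kd (!(!s)) _ _ _
      rw [Bool.not_not]
      exact this
  obtain ⟨i₂, c₂, k₂, e₂⟩ := hs2
  have c₁ := cos_pos_of hv hn3 i₁ i₂ hρ₁
  have H : Hy n (csOf f x) R I ρ₁ (sg x.s₁ * φ₁) p₁ r₁ ρ₂ (sgO x.s₂ * φ₂) p₂ r₂ := by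
    refine ⟨hf, hv, c₁, c₂, ?_, k₂, e₂, ?_⟩
    · have := slot_of hp1
      show Kd (!(!x.s₁)) _ _ _
      rw [Bool.not_not]
      exact this
    · exact Gq_of hv.R0 hv.R1 (r := x.own) hz
  -- the box
  set u : ℝ := if isE x.s₂ = true then 0 else tanh p₁ with hu
  have hu1 : (csOf f x).e = false → u = tanh p₁ := by
    intro he
    have he' : isE x.s₂ = false := he
    rw [hu, he']
    simp
  have hX0 : rr X0 ≤ tan R := by
    refine x_ge' hv hn3 i₁ i₂ (by exact_mod_cast h2) ?_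
    have : ((n * X0 : ℕ) : ℝ) ≤ 25733 := by exact_mod_cast h3
    push_cast at this
    unfold rr
    rw [mul_div_assoc', div_le_iff₀ (by norm_num)]
    norm_num
    linarith
  have hX1 : tan R ≤ rr X1 := by
    rcases h5 with h5 | ⟨h5, h6⟩
    · have := x_le hv hn3 i₁ i₂
      rw [h5]
      unfold rr
      norm_num at this ⊢
      linarith
    · rw [h6, rr_one]
      exact x_le5 hv (by exact_mod_cast h5) i₁ i₂
  have hM1 : tanh I ≤ rr 11011 := by
    have := m_le hv hn3 i₁ i₂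
    unfold rr
    norm_num at this ⊢
    linarith
  have hM0 : rr 0 ≤ tanh I := by
    unfold rr
    norm_num
    exact (tanh_pos hv.I0).le
  have B : Bm (csOf f x).f ⟨X0, X1, 0, 11011, 0, bn (isE x.s₂) 0 16384⟩ (tan R) (tanh I) u := by
    refine ⟨hX0, hX1, hM0, hM1, ?_, ?_, h1, h4, by norm_num, ?_⟩
    · show rr 0 ≤ u
      have e0 : rr 0 = 0 := by unfold rr; norm_num
      rw [e0, hu]
      split_ifs
      · exact le_rfl
      · exact tanh_nonneg hv.sl₁.p0
    · show u ≤ rr (bn (isE x.s₂) 0 16384)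
      rw [hu]
      rcases he : isE x.s₂ with _ | _
      · simp only [Bool.false_eq_true, if_false, bn_false]
        rw [rr_one]
        exact (tanh_lt_one _).le
      · simp only [if_true, bn_true]
        exact rr_nonneg 0
    · show bn (isE x.s₂) 0 16384 ≤ 16384
      rcases isE x.s₂ with _ | _
      · rw [bn_false]
      · rw [bn_true]
        norm_num
  rw [Nat.ble_eq] at hk
  have hfin : Gq (csOf f x).g (tan R) (tanh I) :=
    ck_sound (c := csOf f x) (fun b t ht B => leaf_sound H B hu1 ht) 100 d X0 X1 0 11011 0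
      (bn (isE x.s₂) 0 16384) (by omega) B
  exact InR_of hv.R0 hv.R1 hv.I0 em hfin

theorem chk3_sound {x : Inst} {d : ℕ} (h : chk3 x d = true) : x.Ok3 :=
  chkF_sound F3_ok (by norm_num) (by norm_num) (by norm_num) (by norm_num) (by decide)
    (Or.inl rfl) h

theorem chk4_sound {x : Inst} {d : ℕ} (h : chk4 x d = true) : x.Ok3 :=
  chkF_sound F4_ok (by norm_num) (by norm_num) (by norm_num) (by norm_num) (by decide)
    (Or.inl rfl) h

theorem chk5_sound {x : Inst} {d : ℕ} (h : chk5 x d = true) : x.Ok3 :=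
  chkF_sound F5_ok (by norm_num) (by norm_num) (by norm_num) (by norm_num) (by decide)
    (Or.inr ⟨by norm_num, rfl⟩) h

end Pool.Agent.S5.E.X3
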