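import Mathlib

/-!
# Mixed chains, block E: proof codes for the vertex boxes, definitions

`x = tan R`, `m = tanh I`, `u = tanh p₁` in units of `2 ^ (-14)`.  A proof code is a number whose
digits (base 32) describe a subdivision of the box of `(x, m, u)` and, for every cell, the test
which excludes it (or shows that it lies in the goal).  All tests are exact integer inequalities.
-/

set_option autoImplicit false

namespace Pool.Agent.S5.E.X3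

/-- if then else -/
def br (c x y : Bool) : Bool := Bool.rec (motive := fun _ => Bool) y x c
/-- if then else, numbers -/
def bn (c : Bool) (x y : ℕ) : ℕ := Bool.rec (motive := fun _ => ℕ) y x c
/-- and -/
def an (x y : Bool) : Bool := Bool.rec (motive := fun _ => Bool) false y x
/-- `a < b` -/
def lt (a b : ℕ) : Bool := Nat.ble (Nat.succ a) b

/-- The functions of the number `a` of the half twists. -/
structure Fa where
  /-- `tanh (a I) = tn M / td M` -/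
  tn : ℕ → ℕ
  td : ℕ → ℕ
  /-- `sin (a θ) U ^ a = cos ^ a θ (sp - sn)`, `cos (a θ) U ^ a = cos ^ a θ (cp - cn)` -/
  sp : ℕ → ℕ
  sn : ℕ → ℕ
  cp : ℕ → ℕ
  cn : ℕ → ℕ
  /-- `(U² + X²) ^ a` -/
  nn : ℕ → ℕ
  /-- `tan (π / 2 a) ≤ cx` -/
  cx : ℕ
  /-- bound of `x` -/
  xm : ℕ

/-- A slot: kind (`true`: `A`), bounds of `|b|` and of `|tan arg b|` in units of `1 / 1000`. -/
structure Sp where
  k : Bool
  k0 : ℕ
  k1 : ℕ
  t0 : ℕ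
  t1 : ℕ

/-- The constants of an instance. -/
structure Cs where
  f : Fa
  /-- one slot -/
  e : Bool
  s1 : Sp
  s2 : Sp
  /-- the prior region -/
  o : Sp
  /-- the goal -/
  g : Sp

/-- A box. -/
structure Bx where
  x0 : ℕ
  x1 : ℕ
  m0 : ℕ
  m1 : ℕ
  u0 : ℕ
  u1 : ℕ

/-! ### `T = tan α` -/

def tN (X M : ℕ) : ℕ := Nat.mul M (Nat.add (Nat.mul X X) 268435456)
def tD (X M : ℕ) : ℕ := Nat.mul X (Nat.sub 268435456 (Nat.mul M M))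
/-- corner of the upper bound -/
def cU (b : Bx) : ℕ := bn (Nat.ble (Nat.mul b.x0 b.x1) 268435456) b.x0 b.x1
/-- corner of the lower bound -/
def cL (b : Bx) : ℕ := bn (Nat.ble 16384 b.x0) b.x0 (bn (Nat.ble b.x1 16384) b.x1 16384)

def TnU (b : Bx) : ℕ := tN (cU b) b.m1
def TdU (b : Bx) : ℕ := tD (cU b) b.m1
def TnL (b : Bx) : ℕ := tN (cL b) b.m0
def TdL (b : Bx) : ℕ := tD (cL b) b.m0

/-! ### `|tan z|²` -/

def zN (X M : ℕ) : ℕ := Nat.mul 268435456 (Nat.add (Nat.mul X X) (Nat.mul M M))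
def zD (X M : ℕ) : ℕ := Nat.add 72057594037927936 (Nat.mul (Nat.mul X X) (Nat.mul M M))
def mU (b : Bx) : ℕ := bn (Nat.ble 16384 b.x1) b.m0 b.m1
def mL (b : Bx) : ℕ := bn (Nat.ble 16384 b.x0) b.m1 b.m0
def ZnU (b : Bx) : ℕ := zN b.x1 (mU b)
def ZdU (b : Bx) : ℕ := zD b.x1 (mU b)
def ZnL (b : Bx) : ℕ := zN b.x0 (mL b)
def ZdL (b : Bx) : ℕ := zD b.x0 (mL b)

/-! ### `tanh p` -/

def vn (f : Fa) (M V : ℕ) : ℕ := Nat.sub (Nat.mul 16384 (f.tn M)) (Nat.mul V (f.td M))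
def vd (f : Fa) (M V : ℕ) : ℕ := Nat.sub (Nat.mul 16384 (f.td M)) (Nat.mul V (f.tn M))

/-- numerators and denominators of the bounds of `tanh p₁` -/
def a1 (c : Cs) (b : Bx) : ℕ := bn c.e (c.f.tn b.m0) b.u0
def b1 (c : Cs) (b : Bx) : ℕ := bn c.e (c.f.td b.m0) 16384
def c1 (c : Cs) (b : Bx) : ℕ := bn c.e (c.f.tn b.m1) b.u1
def d1 (c : Cs) (b : Bx) : ℕ := bn c.e (c.f.td b.m1) 16384
/-- numerators and denominators of the bounds of `tanh p₂` -/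
def a2 (c : Cs) (b : Bx) : ℕ := bn c.e 0 (vn c.f b.m0 b.u1)
def b2 (c : Cs) (b : Bx) : ℕ := bn c.e 1 (vd c.f b.m0 b.u1)
def c2 (c : Cs) (b : Bx) : ℕ := bn c.e 0 (vn c.f b.m1 b.u0)
def d2 (c : Cs) (b : Bx) : ℕ := bn c.e 1 (vd c.f b.m1 b.u0)

/-! ### `tan r`, bounds from `tan γ`: `(p - n) / d` -/

/-- `Γ` of an `S` slot (bound `t` of `|tan β|`), positive part, negative part, denominator -/
def gP (n d t : ℕ) : ℕ := Nat.sub (Nat.mul 1000 n) (Nat.mul t d)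
def gN (n d t : ℕ) : ℕ := Nat.sub (Nat.mul t d) (Nat.mul 1000 n)
def gD (n d t : ℕ) : ℕ := Nat.add (Nat.mul 1000 d) (Nat.mul t n)
/-- `Γ` of an `A` slot, numerator and denominator -/
def aN (n d t : ℕ) : ℕ := Nat.add (Nat.mul 1000 n) (Nat.mul t d)
def aD (n d t : ℕ) : ℕ := Nat.sub (Nat.mul 1000 d) (Nat.mul t n)

/-- lower bound of `tan r`; `n / d ≤ T`, `hn / hd ≤ tanh p ≤ kn / kd` -/
def Lp (s : Sp) (n d hn kd : ℕ) : ℕ :=
  Nat.mul (bn s.k (aN n d s.t0) (gP n d s.t1)) (Nat.mul hn kd)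
def Ln (s : Sp) (n d kn hd : ℕ) : ℕ :=
  Nat.mul (bn s.k 0 (gN n d s.t1)) (Nat.mul kn hd)
def Ld (s : Sp) (n d hd kd : ℕ) : ℕ :=
  Nat.mul (bn s.k (aD n d s.t0) (gD n d s.t1)) (Nat.mul hd kd)
/-- upper bound of `tan r`; `T ≤ n / d` -/
def Up (s : Sp) (n d kn hd : ℕ) : ℕ :=
  Nat.mul (bn s.k (aN n d s.t1) (gP n d s.t0)) (Nat.mul kn hd)
def Un (s : Sp) (n d hn kd : ℕ) : ℕ :=
  Nat.mul (bn s.k 0 (gN n d s.t0)) (Nat.mul hn kd)
def Ud (s : Sp) (n d hd kd : ℕ) : ℕ :=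
  Nat.mul (bn s.k (aD n d s.t1) (gD n d s.t0)) (Nat.mul hd kd)

def L1p (c : Cs) (b : Bx) : ℕ := Lp c.s1 (TnL b) (TdL b) (a1 c b) (d1 c b)
def L1n (c : Cs) (b : Bx) : ℕ := Ln c.s1 (TnL b) (TdL b) (c1 c b) (b1 c b)
def L1d (c : Cs) (b : Bx) : ℕ := Ld c.s1 (TnL b) (TdL b) (b1 c b) (d1 c b)
def U1p (c : Cs) (b : Bx) : ℕ := Up c.s1 (TnU b) (TdU b) (c1 c b) (b1 c b)
def U1n (c : Cs) (b : Bx) : ℕ := Un c.s1 (TnU b) (TdU b) (a1 c b) (d1 c b)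
def U1d (c : Cs) (b : Bx) : ℕ := Ud c.s1 (TnU b) (TdU b) (b1 c b) (d1 c b)
def L2p (c : Cs) (b : Bx) : ℕ := Lp c.s2 (TnL b) (TdL b) (a2 c b) (d2 c b)
def L2n (c : Cs) (b : Bx) : ℕ := Ln c.s2 (TnL b) (TdL b) (c2 c b) (b2 c b)
def L2d (c : Cs) (b : Bx) : ℕ := Ld c.s2 (TnL b) (TdL b) (b2 c b) (d2 c b)
def U2p (c : Cs) (b : Bx) : ℕ := Up c.s2 (TnU b) (TdU b) (c2 c b) (b2 c b)
def U2n (c : Cs) (b : Bx) : ℕ := Un c.s2 (TnU b) (TdU b) (a2 c b) (d2 c b)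
def U2d (c : Cs) (b : Bx) : ℕ := Ud c.s2 (TnU b) (TdU b) (b2 c b) (d2 c b)

/-! ### Tests -/

/-- `σ (h, y)`, numerator and denominator -/
def sgN (hn hd yn yd : ℕ) : ℕ :=
  Nat.add (Nat.mul (Nat.mul hn hn) (Nat.mul yd yd)) (Nat.mul (Nat.mul hd hd) (Nat.mul yn yn))
def sgD (hn hd yn yd : ℕ) : ℕ :=
  Nat.mul (Nat.sub (Nat.mul hd hd) (Nat.mul hn hn)) (Nat.add (Nat.mul yd yd) (Nat.mul yn yn))
/-- `|b|² |t|² < σ (h, y)` -/
def big (k zn zd hn hd yn yd : ℕ) : Bool := an (lt 0 yd)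
  (lt (Nat.mul (Nat.mul (Nat.mul k k) zn) (sgD hn hd yn yd))
    (Nat.mul (Nat.mul 1000000 zd) (sgN hn hd yn yd)))
/-- `σ (h, y) < |b|² |t|²` -/
def sml (k zn zd hn hd yn yd : ℕ) : Bool := an (lt 0 yd)
  (lt (Nat.mul (Nat.mul 1000000 zd) (sgN hn hd yn yd))
    (Nat.mul (Nat.mul (Nat.mul k k) zn) (sgD hn hd yn yd)))

/-- `P = cn - cp`, `Q = sp - sn` -/
def fP (f : Fa) (x : ℕ) : ℕ := Nat.sub (f.cn x) (f.cp x)
/-- `λ₁ λ₂`, negative and positive part of `1 - λ₁ λ₂` -/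
def nL (p n q m : ℕ) : ℕ := Nat.add (Nat.mul p q) (Nat.mul n m)
def nR (p n d q m e : ℕ) : ℕ := Nat.add (Nat.mul d e) (Nat.add (Nat.mul p m) (Nat.mul n q))
def sA (p d q e : ℕ) : ℕ := Nat.add (Nat.mul p e) (Nat.mul q d)

/-- `a R + r₁ + r₂ < π` for `tan r₁ ≤ (p - n) / d`, `tan r₂ ≤ (q - m) / e`, `R ≤ arctan x` -/
def angU (f : Fa) (p n d q m e x : ℕ) : Bool :=
  an (lt 0 (fP f x)) (an (lt 0 (Nat.mul d e)) (an (lt (nL p n q m) (nR p n d q m e))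
    (lt (Nat.add (Nat.mul (Nat.sub (sA p d q e) (sA n d m e)) (fP f x))
        (Nat.mul (Nat.sub (nR p n d q m e) (nL p n q m)) (Nat.sub (f.sn x) (f.sp x))))
      (Nat.add (Nat.mul (Nat.sub (sA n d m e) (sA p d q e)) (fP f x))
        (Nat.mul (Nat.sub (nR p n d q m e) (nL p n q m)) (Nat.sub (f.sp x) (f.sn x)))))))

/-- `π < a R + r₁ + r₂` for `(p - n) / d ≤ tan r₁`, `(q - m) / e ≤ tan r₂`, `arctan x ≤ R` -/
def angL (f : Fa) (p n d q m e x : ℕ) : Bool :=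
  an (lt 0 (fP f x)) (an (lt 0 (Nat.mul d e)) (br (lt (nL p n q m) (nR p n d q m e))
    (lt (Nat.add (Nat.mul (Nat.sub (sA n d m e) (sA p d q e)) (fP f x))
        (Nat.mul (Nat.sub (nR p n d q m e) (nL p n q m)) (Nat.sub (f.sp x) (f.sn x))))
      (Nat.add (Nat.mul (Nat.sub (sA p d q e) (sA n d m e)) (fP f x))
        (Nat.mul (Nat.sub (nR p n d q m e) (nL p n q m)) (Nat.sub (f.sn x) (f.sp x)))))
    (Nat.ble (Nat.add n m) 0)))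

/-- `tan (π - a θ - r)` for `tan r = (p - n) / d`: positive part, denominator -/
def yP (f : Fa) (p n d x : ℕ) : ℕ :=
  Nat.sub (Nat.add (Nat.mul (f.sp x) d) (Nat.mul (fP f x) n))
    (Nat.add (Nat.mul (f.sn x) d) (Nat.mul (fP f x) p))
def yD (f : Fa) (p n d x : ℕ) : ℕ :=
  Nat.sub (Nat.add (Nat.mul (fP f x) d) (Nat.add (Nat.mul (f.sp x) p) (Nat.mul (f.sn x) n)))
    (Nat.add (Nat.mul (f.sp x) n) (Nat.mul (f.sn x) p))

/-- `0 ≤ tan (π - a θ - r)` -/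
def yS (f : Fa) (p n d x : ℕ) : Bool :=
  Nat.ble (Nat.add (Nat.mul (f.sn x) d) (Nat.mul (fP f x) p))
    (Nat.add (Nat.mul (f.sp x) d) (Nat.mul (fP f x) n))

/-- `|b|² |t|² - sinh² p = wN / wD` -/
def wN (k zn zd hn hd : ℕ) : ℕ :=
  Nat.sub (Nat.mul (Nat.mul (Nat.mul k k) zn) (Nat.sub (Nat.mul hd hd) (Nat.mul hn hn)))
    (Nat.mul (Nat.mul 1000000 zd) (Nat.mul hn hn))
def wD (zd hn hd : ℕ) : ℕ :=
  Nat.mul (Nat.mul 1000000 zd) (Nat.sub (Nat.mul hd hd) (Nat.mul hn hn))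

/-- `s - w₁ - w₂`, positive part, for `s = sn / sd`, numerator -/
def dP (sn sd a b c d : ℕ) : ℕ :=
  Nat.sub (Nat.mul sn (Nat.mul b d)) (Nat.mul sd (Nat.add (Nat.mul a d) (Nat.mul c b)))
/-- `4 w₁ w₂ (1 - s)`, numerator -/
def eP (sn sd a b c d : ℕ) : ℕ :=
  Nat.mul (Nat.mul (Nat.mul 4 (Nat.mul a c)) (Nat.mul b d)) (Nat.mul (Nat.sub sd sn) sd)
/-- `w₁ + w₂ < s` and `4 w₁ w₂ (1 - s) < (s - w₁ - w₂)²` for `w₁ = a / b`, `w₂ = c / d` -/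
def mmU (sn sd a b c d : ℕ) : Bool := an (lt 0 (dP sn sd a b c d))
  (lt (eP sn sd a b c d) (Nat.mul (dP sn sd a b c d) (dP sn sd a b c d)))
def mmL (sn sd a b c d : ℕ) : Bool :=
  lt (Nat.mul (dP sn sd a b c d) (dP sn sd a b c d)) (eP sn sd a b c d)

def sq (n : ℕ) : ℕ := Nat.mul n n
/-- maximum -/
def mx (a b : ℕ) : ℕ := bn (Nat.ble a b) b a
def xU (c : Cs) (b : Bx) : ℕ := mx b.x1 c.f.cx

/-! ### Leaves -/

def lG (c : Cs) (b : Bx) : Bool :=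
  an (Nat.ble (Nat.mul 1000 (Nat.mul b.x1 b.m1)) (Nat.mul c.g.t1 268435456)) (
  an (Nat.ble (Nat.mul c.g.t0 268435456) (Nat.mul 1000 (Nat.mul b.x0 b.m0))) (
  an (Nat.ble (Nat.mul 1000000 (zD b.x0 b.m1))
      (Nat.mul (Nat.mul c.g.k1 c.g.k1) (Nat.mul (Nat.sub 268435456 (Nat.mul b.m1 b.m1))
        (Nat.add 268435456 (Nat.mul b.x0 b.x0)))))
    (Nat.ble (Nat.mul (Nat.mul c.g.k0 c.g.k0) (Nat.mul (Nat.sub 268435456 (Nat.mul b.m0 b.m0))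
        (Nat.add 268435456 (Nat.mul b.x1 b.x1)))) (Nat.mul 1000000 (zD b.x1 b.m0)))))

def lO1 (c : Cs) (b : Bx) : Bool :=
  lt (Nat.mul c.o.t1 268435456) (Nat.mul 1000 (Nat.mul b.x0 b.m0))
def lO2 (c : Cs) (b : Bx) : Bool :=
  lt (Nat.mul 1000 (Nat.mul b.x1 b.m1)) (Nat.mul c.o.t0 268435456)
def lO3 (c : Cs) (b : Bx) : Bool :=
  lt (Nat.mul (Nat.mul c.o.k1 c.o.k1) (Nat.mul (Nat.sub 268435456 (Nat.mul b.m0 b.m0))
        (Nat.add 268435456 (Nat.mul b.x1 b.x1)))) (Nat.mul 1000000 (zD b.x1 b.m0))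
def lO4 (c : Cs) (b : Bx) : Bool :=
  lt (Nat.mul 1000000 (zD b.x0 b.m1))
      (Nat.mul (Nat.mul c.o.k0 c.o.k0) (Nat.mul (Nat.sub 268435456 (Nat.mul b.m1 b.m1))
        (Nat.add 268435456 (Nat.mul b.x0 b.x0))))
def lE (c : Cs) (b : Bx) : Bool :=
  an (bn c.e 0 1 |> lt 0) (lt (Nat.mul 16384 (c.f.tn b.m1)) (Nat.mul b.u0 (c.f.td b.m1)))

def lGG1 (c : Cs) (b : Bx) : Bool :=
  big c.s1.k1 (ZnU b) (ZdU b) (a1 c b) (b1 c b) (L1p c b) (L1d c b)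
def lGG2 (c : Cs) (b : Bx) : Bool :=
  big c.s2.k1 (ZnU b) (ZdU b) (a2 c b) (b2 c b) (L2p c b) (L2d c b)
def lSG1 (c : Cs) (b : Bx) : Bool :=
  an (sml c.s1.k0 (ZnL b) (ZdL b) (c1 c b) (d1 c b) (U1p c b) (U1d c b))
    (br c.s1.k true (sml c.s1.k0 (ZnL b) (ZdL b) (c1 c b) (d1 c b) (L1n c b) (L1d c b)))
def lSG2 (c : Cs) (b : Bx) : Bool :=
  an (sml c.s2.k0 (ZnL b) (ZdL b) (c2 c b) (d2 c b) (U2p c b) (U2d c b))
    (br c.s2.k true (sml c.s2.k0 (ZnL b) (ZdL b) (c2 c b) (d2 c b) (L2n c b) (L2d c b)))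
def lAU (c : Cs) (b : Bx) : Bool :=
  angU c.f (U1p c b) (U1n c b) (U1d c b) (U2p c b) (U2n c b) (U2d c b) (xU c b)
def lAL (c : Cs) (b : Bx) : Bool :=
  angL c.f (L1p c b) (L1n c b) (L1d c b) (L2p c b) (L2n c b) (L2d c b) b.x0
/-- `r₁ ≥ arctan y > 0` from the upper bound of `r₂` -/
def lBA1 (c : Cs) (b : Bx) : Bool := an (lt 0 (fP c.f (xU c b))) (an (lt 0 (U2d c b))
  (big c.s1.k1 (ZnU b) (ZdU b) (a1 c b) (b1 c b)
    (yP c.f (U2p c b) (U2n c b) (U2d c b) (xU c b)) (yD c.f (U2p c b) (U2n c b) (U2d c b) (xU c b))))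
def lBA2 (c : Cs) (b : Bx) : Bool := an (lt 0 (fP c.f (xU c b))) (an (lt 0 (U1d c b))
  (big c.s2.k1 (ZnU b) (ZdU b) (a2 c b) (b2 c b)
    (yP c.f (U1p c b) (U1n c b) (U1d c b) (xU c b)) (yD c.f (U1p c b) (U1n c b) (U1d c b) (xU c b))))
/-- `r₁ ≤ arctan y` from the lower bound of `r₂`, and the lower bound of `r₁` -/
def lSB1 (c : Cs) (b : Bx) : Bool := an (lt 0 (fP c.f b.x0)) (an (lt 0 (L2d c b))
  (an (sml c.s1.k0 (ZnL b) (ZdL b) (c1 c b) (d1 c b)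
    (yP c.f (L2p c b) (L2n c b) (L2d c b) b.x0) (yD c.f (L2p c b) (L2n c b) (L2d c b) b.x0))
  (br c.s1.k true (sml c.s1.k0 (ZnL b) (ZdL b) (c1 c b) (d1 c b) (L1n c b) (L1d c b)))))
def lSB2 (c : Cs) (b : Bx) : Bool := an (lt 0 (fP c.f b.x0)) (an (lt 0 (L1d c b))
  (an (sml c.s2.k0 (ZnL b) (ZdL b) (c2 c b) (d2 c b)
    (yP c.f (L1p c b) (L1n c b) (L1d c b) b.x0) (yD c.f (L1p c b) (L1n c b) (L1d c b) b.x0))
  (br c.s2.k true (sml c.s2.k0 (ZnL b) (ZdL b) (c2 c b) (d2 c b) (L2n c b) (L2d c b)))))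
/-- `0 ≤ r₁ ≤ arctan y` from the bounds of `r₂` -/
def lSC1 (c : Cs) (b : Bx) : Bool := an (lt 0 (fP c.f b.x0)) (an (lt 0 (L2d c b))
  (an (lt 0 (fP c.f (xU c b))) (an (lt 0 (U2d c b))
  (an (lt 0 (yD c.f (U2p c b) (U2n c b) (U2d c b) (xU c b)))
  (an (yS c.f (U2p c b) (U2n c b) (U2d c b) (xU c b))
  (sml c.s1.k0 (ZnL b) (ZdL b) (c1 c b) (d1 c b)
    (yP c.f (L2p c b) (L2n c b) (L2d c b) b.x0) (yD c.f (L2p c b) (L2n c b) (L2d c b) b.x0)))))))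
def lSC2 (c : Cs) (b : Bx) : Bool := an (lt 0 (fP c.f b.x0)) (an (lt 0 (L1d c b))
  (an (lt 0 (fP c.f (xU c b))) (an (lt 0 (U1d c b))
  (an (lt 0 (yD c.f (U1p c b) (U1n c b) (U1d c b) (xU c b)))
  (an (yS c.f (U1p c b) (U1n c b) (U1d c b) (xU c b))
  (sml c.s2.k0 (ZnL b) (ZdL b) (c2 c b) (d2 c b)
    (yP c.f (L1p c b) (L1n c b) (L1d c b) b.x0) (yD c.f (L1p c b) (L1n c b) (L1d c b) b.x0)))))))
def lMU (c : Cs) (b : Bx) : Bool := an (lt 0 (fP c.f (xU c b)))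
  (mmU (sq (Nat.sub (c.f.sp (xU c b)) (c.f.sn (xU c b)))) (c.f.nn (xU c b))
    (wN c.s1.k1 (ZnU b) (ZdU b) (a1 c b) (b1 c b)) (wD (ZdU b) (a1 c b) (b1 c b))
    (wN c.s2.k1 (ZnU b) (ZdU b) (a2 c b) (b2 c b)) (wD (ZdU b) (a2 c b) (b2 c b)))
def lML (c : Cs) (b : Bx) : Bool := an (lt 0 (fP c.f b.x0)) (
  an (Nat.ble (c.f.sn b.x0) (c.f.sp b.x0)) (an (Nat.ble (Nat.add (L1n c b) (L2n c b)) 0)
  (mmL (sq (Nat.sub (c.f.sp b.x0) (c.f.sn b.x0))) (c.f.nn b.x0)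
    (wN c.s1.k0 (ZnL b) (ZdL b) (c1 c b) (d1 c b)) (wD (ZdL b) (c1 c b) (d1 c b))
    (wN c.s2.k0 (ZnL b) (ZdL b) (c2 c b) (d2 c b)) (wD (ZdL b) (c2 c b) (d2 c b)))))

/-- The leaf tests: `G, AL, AU, MU, GG1, GG2, SG1, SG2, BA1, BA2, SB1, SB2, ML, E, O1, O3, O4, O2,
SC1, SC2` have the numbers `3, 4, …, 22`. -/
def leaf (c : Cs) (b : Bx) (k : ℕ) : Bool :=
  br (Nat.ble k 6)
    (br (Nat.ble k 4) (br (Nat.ble k 3) (lG c b) (lAL c b))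
      (br (Nat.ble k 5) (lAU c b) (lMU c b)))
    (br (Nat.ble k 12)
      (br (Nat.ble k 8) (br (Nat.ble k 7) (lGG1 c b) (lGG2 c b))
        (br (Nat.ble k 10) (br (Nat.ble k 9) (lSG1 c b) (lSG2 c b))
          (br (Nat.ble k 11) (lBA1 c b) (lBA2 c b))))
      (br (Nat.ble k 16)
        (br (Nat.ble k 14) (br (Nat.ble k 13) (lSB1 c b) (lSB2 c b))
          (br (Nat.ble k 15) (lML c b) (lE c b)))
        (br (Nat.ble k 18) (br (Nat.ble k 17) (lO1 c b) (lO3 c b))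
          (br (Nat.ble k 20) (br (Nat.ble k 19) (lO4 c b) (lO2 c b))
            (br (Nat.ble k 21) (lSC1 c b) (lSC2 c b))))))

def md (a b : ℕ) : ℕ := Nat.div (Nat.add a b) 2

/-- Force the evaluation of a number. -/
def fc (n : ℕ) (k : ℕ → ℕ) : ℕ := Nat.rec (motive := fun _ => ℕ) (k 0) (fun m _ => k (Nat.succ m)) n
/-- continue if positive -/
def nx (n : ℕ) (k : ℕ → ℕ) : ℕ := Nat.rec (motive := fun _ => ℕ) 0 (fun m _ => k m) n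

/-- The walk through a proof code: `0` if it fails, else one more than the remaining code. -/
def ck (c : Cs) : ℕ → ℕ → ℕ → ℕ → ℕ → ℕ → ℕ → ℕ → ℕ := fun k =>
  Nat.rec (motive := fun _ => ℕ → ℕ → ℕ → ℕ → ℕ → ℕ → ℕ → ℕ)
    (fun _ _ _ _ _ _ _ => 0)
    (fun _ ih d x0 x1 m0 m1 u0 u1 =>
      fc (Nat.div d 32) fun r => fc (Nat.mod d 32) fun t =>
      Nat.rec (motive := fun _ => ℕ)
        (fc (md x0 x1) fun y => nx (ih r x0 y m0 m1 u0 u1) fun r' => ih r' y x1 m0 m1 u0 u1)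
        (fun t1 _ => Nat.rec (motive := fun _ => ℕ)
          (fc (md m0 m1) fun y => nx (ih r x0 x1 m0 y u0 u1) fun r' => ih r' x0 x1 y m1 u0 u1)
          (fun t2 _ => Nat.rec (motive := fun _ => ℕ)
            (fc (md u0 u1) fun y => nx (ih r x0 x1 m0 m1 u0 y) fun r' => ih r' x0 x1 m0 m1 y u1)
            (fun _ _ => bn (leaf c ⟨x0, x1, m0, m1, u0, u1⟩ t) (Nat.succ r) 0)
            t2)
          t1)
        t) k

/-- `a = 3` -/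
def F3 : Fa where
  tn M := Nat.mul M (Nat.add 805306368 (Nat.mul M M))
  td M := Nat.mul 16384 (Nat.add 268435456 (Nat.mul 3 (Nat.mul M M)))
  sp X := Nat.mul 805306368 X
  sn X := Nat.mul X (Nat.mul X X)
  cp _ := 4398046511104
  cn X := Nat.mul 49152 (Nat.mul X X)
  nn X := Nat.pow (Nat.add 268435456 (Nat.mul X X)) 3
  cx := 9461
  xm := 35013

/-- `a = 4` -/
def F4 : Fa where
  tn M := Nat.mul 65536 (Nat.mul M (Nat.add 268435456 (Nat.mul M M)))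
  td M := Nat.add 72057594037927936 (Nat.mul (Nat.mul M M) (Nat.add 1610612736 (Nat.mul M M)))
  sp X := Nat.mul 17592186044416 X
  sn X := Nat.mul 65536 (Nat.mul X (Nat.mul X X))
  cp X := Nat.add 72057594037927936 (Nat.mul (Nat.mul X X) (Nat.mul X X))
  cn X := Nat.mul 1610612736 (Nat.mul X X)
  nn X := Nat.pow (Nat.add 268435456 (Nat.mul X X)) 4
  cx := 6788
  xm := 35013

/-- `a = 5` -/
def F5 : Fa where
  tn M := Nat.mul M (Nat.add 360287970189639680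
    (Nat.mul (Nat.mul M M) (Nat.add 2684354560 (Nat.mul M M))))
  td M := Nat.mul 16384 (Nat.add 72057594037927936
    (Nat.mul (Nat.mul M M) (Nat.add 2684354560 (Nat.mul 5 (Nat.mul M M)))))
  sp X := Nat.mul X (Nat.add 360287970189639680 (Nat.mul (Nat.mul X X) (Nat.mul X X)))
  sn X := Nat.mul 2684354560 (Nat.mul X (Nat.mul X X))
  cp X := Nat.mul 16384 (Nat.add 72057594037927936 (Nat.mul 5 (Nat.mul (Nat.mul X X) (Nat.mul X X))))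
  cn X := Nat.mul 43980465111040 (Nat.mul X X)
  nn X := Nat.pow (Nat.add 268435456 (Nat.mul X X)) 5
  cx := 5325
  xm := 16384

end Pool.Agent.S5.E.X3
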