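import Pool.Agent.S5.E.X3.Sd

/-!
# Mixed chains, block E: proof codes, the data for `a = 3, 4, 5`
-/

set_option autoImplicit false
set_option maxHeartbeats 4000000

namespace Pool.Agent.S5.E.X3

open Real
open Pool.Agent.S5.E.V (ath tanh_ath sc_arctan tanh_four tanh_five arctan_ge3)

theorem c30 : ((805306368 : ℕ) : ℝ) = 805306368 := by norm_num
theorem c14 : ((16384 : ℕ) : ℝ) = 16384 := by norm_num

theorem ath_rr {M : ℕ} (hM : M < 16384) : tanh (ath (rr M)) = rr M :=
  tanh_ath (by linarith [rr_nonneg M]) (rr_lt_one hM)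

theorem F3_ok : F3.Ok 3 where
  a3 := le_rfl
  td := fun M => by
    show 0 < 16384 * (268435456 + 3 * (M * M))
    positivity
  th := by
    intro M hM
    have h := tanh_three (ath (rr M))
    rw [ath_rr hM] at h
    have e1 : ((F3.tn M : ℕ) : ℝ) = 16384 ^ 3 * (3 * rr M + rr M ^ 3) := by
      show ((M * (805306368 + M * M) : ℕ) : ℝ) = _
      unfold rr
      push_cast
      ring
    have e2 : ((F3.td M : ℕ) : ℝ) = 16384 ^ 3 * (1 + 3 * rr M ^ 2) := by
      show ((16384 * (268435456 + 3 * (M * M)) : ℕ) : ℝ) = _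
      unfold rr
      push_cast
      ring
    have hp : 0 < 1 + 3 * rr M ^ 2 := by positivity
    rw [e1, e2, mul_div_mul_left _ _ (by norm_num), eq_div_iff hp.ne']
    exact_mod_cast h
  s := by
    intro x
    obtain ⟨h1, h2⟩ := sc_arctan (rr x)
    have e : ((3 : ℕ) : ℝ) * arctan (rr x) = 3 * arctan (rr x) := by norm_num
    have e1 : ((F3.sp x : ℕ) : ℝ) = 16384 ^ 3 * (3 * rr x) := by
      show ((805306368 * x : ℕ) : ℝ) = _
      unfold rr
      push_cast
      ring
    have e2 : ((F3.sn x : ℕ) : ℝ) = 16384 ^ 3 * (rr x ^ 3) := by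
      show ((x * (x * x) : ℕ) : ℝ) = _
      unfold rr
      push_cast
      ring
    rw [e, e1, e2, sin_three_mul, h1]
    set X := rr x
    set c := cos (arctan X)
    linear_combination (-(16384 : ℝ) ^ 3 * 3 * X * c) * h2
  c := by
    intro x
    obtain ⟨h1, h2⟩ := sc_arctan (rr x)
    have e : ((3 : ℕ) : ℝ) * arctan (rr x) = 3 * arctan (rr x) := by norm_num
    have e1 : ((F3.cp x : ℕ) : ℝ) = 16384 ^ 3 := by
      show ((4398046511104 : ℕ) : ℝ) = _
      norm_num
    have e2 : ((F3.cn x : ℕ) : ℝ) = 16384 ^ 3 * (3 * rr x ^ 2) := by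
      show ((49152 * (x * x) : ℕ) : ℝ) = _
      unfold rr
      push_cast
      ring
    rw [e, e1, e2, cos_three_mul]
    set X := rr x
    set c := cos (arctan X)
    linear_combination ((16384 : ℝ) ^ 3 * 3 * c) * h2
  n := by
    intro x
    show (((268435456 + x * x) ^ 3 : ℕ) : ℝ) = _
    push_cast
    ring
  xu := by
    intro x _
    have := arctan_lt_pi_div_two (rr x)
    push_cast
    linarith
  cx := by decide

theorem F4_ok : F4.Ok 4 where
  a3 := by norm_num
  td := fun M => by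
    show 0 < 72057594037927936 + (M * M) * (1610612736 + M * M)
    positivity
  th := by
    intro M hM
    have h := tanh_four (ath (rr M))
    rw [ath_rr hM] at h
    have e1 : ((F4.tn M : ℕ) : ℝ) = 16384 ^ 4 * (4 * rr M * (1 + rr M ^ 2)) := by
      show ((65536 * (M * (268435456 + M * M)) : ℕ) : ℝ) = _
      unfold rr
      push_cast
      ring
    have e2 : ((F4.td M : ℕ) : ℝ) = 16384 ^ 4 * (1 + 6 * rr M ^ 2 + (rr M ^ 2) ^ 2) := by
      show ((72057594037927936 + (M * M) * (1610612736 + M * M) : ℕ) : ℝ) = _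
      unfold rr
      push_cast
      ring
    have hp : 0 < 1 + 6 * rr M ^ 2 + (rr M ^ 2) ^ 2 := by positivity
    rw [e1, e2, mul_div_mul_left _ _ (by norm_num), eq_div_iff hp.ne']
    exact_mod_cast h
  s := by
    intro x
    obtain ⟨h1, h2⟩ := sc_arctan (rr x)
    have e : ((4 : ℕ) : ℝ) * arctan (rr x) = 2 * (2 * arctan (rr x)) := by push_cast; ring
    have e1 : ((F4.sp x : ℕ) : ℝ) = 16384 ^ 4 * (4 * rr x) := by
      show ((17592186044416 * x : ℕ) : ℝ) = _
      unfold rr
      push_cast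
      ring
    have e2 : ((F4.sn x : ℕ) : ℝ) = 16384 ^ 4 * (4 * rr x ^ 3) := by
      show ((65536 * (x * (x * x)) : ℕ) : ℝ) = _
      unfold rr
      push_cast
      ring
    rw [e, e1, e2, sin_two_mul, sin_two_mul, cos_two_mul, h1]
    set X := rr x
    set c := cos (arctan X)
    linear_combination ((16384 : ℝ) ^ 4 * 4 * X * c ^ 2) * h2
  c := by
    intro x
    obtain ⟨h1, h2⟩ := sc_arctan (rr x)
    have e : ((4 : ℕ) : ℝ) * arctan (rr x) = 2 * (2 * arctan (rr x)) := by push_cast; ring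
    have e1 : ((F4.cp x : ℕ) : ℝ) = 16384 ^ 4 * (1 + rr x ^ 4) := by
      show ((72057594037927936 + (x * x) * (x * x) : ℕ) : ℝ) = _
      unfold rr
      push_cast
      ring
    have e2 : ((F4.cn x : ℕ) : ℝ) = 16384 ^ 4 * (6 * rr x ^ 2) := by
      show ((1610612736 * (x * x) : ℕ) : ℝ) = _
      unfold rr
      push_cast
      ring
    rw [e, e1, e2, cos_two_mul, cos_two_mul]
    set X := rr x
    set c := cos (arctan X)
    linear_combination ((16384 : ℝ) ^ 4 * (-1 - c ^ 2 * (1 + X ^ 2) + 8 * c ^ 2)) * h2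
  n := by
    intro x
    show (((268435456 + x * x) ^ 4 : ℕ) : ℝ) = _
    push_cast
    ring
  xu := by
    intro x hx
    have h1 : rr x ≤ 2.2 := by
      refine (rr_le hx).trans ?_
      unfold rr
      norm_num [F4]
    have h2 := arctan_mono h1
    have h3 := arctan_inv_of_pos (x := 2.2) (by norm_num)
    have h4 : (0.423 : ℝ) ≤ arctan (2.2)⁻¹ :=
      le_trans (by norm_num) (arctan_ge3 (x := (2.2)⁻¹) (by norm_num))
    have h5 := pi_lt_d4
    push_cast
    linarith
  cx := by decide

theorem F5_ok : F5.Ok 5 where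
  a3 := by norm_num
  td := fun M => by
    show 0 < 16384 * (72057594037927936 + (M * M) * (2684354560 + 5 * (M * M)))
    positivity
  th := by
    intro M hM
    have h := tanh_five (ath (rr M))
    rw [ath_rr hM] at h
    have e1 : ((F5.tn M : ℕ) : ℝ) = 16384 ^ 5 * (rr M * (5 + 10 * rr M ^ 2 + (rr M ^ 2) ^ 2)) := by
      show ((M * (360287970189639680 + (M * M) * (2684354560 + M * M)) : ℕ) : ℝ) = _
      unfold rr
      push_cast
      ring
    have e2 : ((F5.td M : ℕ) : ℝ) = 16384 ^ 5 * (1 + 10 * rr M ^ 2 + 5 * (rr M ^ 2) ^ 2) := by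
      show ((16384 * (72057594037927936 + (M * M) * (2684354560 + 5 * (M * M))) : ℕ) : ℝ) = _
      unfold rr
      push_cast
      ring
    have hp : 0 < 1 + 10 * rr M ^ 2 + 5 * (rr M ^ 2) ^ 2 := by positivity
    rw [e1, e2, mul_div_mul_left _ _ (by norm_num), eq_div_iff hp.ne']
    exact_mod_cast h
  s := by
    intro x
    obtain ⟨h1, h2⟩ := sc_arctan (rr x)
    have e : ((5 : ℕ) : ℝ) * arctan (rr x) = 2 * (2 * arctan (rr x)) + arctan (rr x) := by
      push_cast; ring
    have e1 : ((F5.sp x : ℕ) : ℝ) = 16384 ^ 5 * (5 * rr x + rr x ^ 5) := by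
      show ((x * (360287970189639680 + (x * x) * (x * x)) : ℕ) : ℝ) = _
      unfold rr
      push_cast
      ring
    have e2 : ((F5.sn x : ℕ) : ℝ) = 16384 ^ 5 * (10 * rr x ^ 3) := by
      show ((2684354560 * (x * (x * x)) : ℕ) : ℝ) = _
      unfold rr
      push_cast
      ring
    rw [e, e1, e2, sin_add, sin_two_mul, sin_two_mul, cos_two_mul, cos_two_mul, cos_two_mul, h1]
    set X := rr x
    set c := cos (arctan X)
    linear_combination ((16384 : ℝ) ^ 5 * (X * c * ((11 - X ^ 2) * c ^ 2 - 1))) * h2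
  c := by
    intro x
    obtain ⟨h1, h2⟩ := sc_arctan (rr x)
    have e : ((5 : ℕ) : ℝ) * arctan (rr x) = 2 * (2 * arctan (rr x)) + arctan (rr x) := by
      push_cast; ring
    have e1 : ((F5.cp x : ℕ) : ℝ) = 16384 ^ 5 * (1 + 5 * rr x ^ 4) := by
      show ((16384 * (72057594037927936 + 5 * ((x * x) * (x * x))) : ℕ) : ℝ) = _
      unfold rr
      push_cast
      ring
    have e2 : ((F5.cn x : ℕ) : ℝ) = 16384 ^ 5 * (10 * rr x ^ 2) := by
      show ((43980465111040 * (x * x) : ℕ) : ℝ) = _
      unfold rr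
      push_cast
      ring
    rw [e, e1, e2, cos_add, sin_two_mul, sin_two_mul, cos_two_mul, cos_two_mul, h1]
    set X := rr x
    set c := cos (arctan X)
    linear_combination ((16384 : ℝ) ^ 5 * (c * ((7 - 5 * X ^ 2) * c ^ 2 - 1))) * h2
  n := by
    intro x
    show (((268435456 + x * x) ^ 5 : ℕ) : ℝ) = _
    push_cast
    ring
  xu := by
    intro x hx
    have h1 : rr x ≤ 1 := by
      rw [← rr_one]
      exact rr_le hx
    have h2 := arctan_mono h1
    rw [arctan_one] at h2
    push_cast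
    linarith [pi_pos]
  cx := by decide

end Pool.Agent.S5.E.X3
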