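import Pool.Agent.S5.E.X3.Def
import Pool.Agent.S5.E.V.Goal

/-!
# Mixed chains, block E: proof codes, real lemmas
-/

set_option autoImplicit false
set_option maxHeartbeats 4000000

namespace Pool.Agent.S5.E.X3

open Real
open Pool.Agent.S5.E.V (tan_ge_of tan_le_of gam_ge gam_le sinh_sq_eq Kd)
open Pool.Agent.S3.E (al ph tt k2 s2 cc gg al_pos al_lt)

/-! ### Booleans and numbers -/

theorem lt_iff {a b : ℕ} : lt a b = true ↔ a < b := by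
  unfold lt
  rw [Nat.ble_eq]
  exact Nat.succ_le_iff

theorem lt_real {a b : ℕ} (h : lt a b = true) : (a : ℝ) < b := by exact_mod_cast lt_iff.1 h

theorem ble_real {a b : ℕ} (h : Nat.ble a b = true) : (a : ℝ) ≤ b := by
  rw [Nat.ble_eq] at h
  exact_mod_cast h

theorem an_iff {x y : Bool} : an x y = true ↔ x = true ∧ y = true := by
  cases x <;> cases y <;> simp [an]

theorem bn_true (x y : ℕ) : bn true x y = x := rfl
theorem bn_false (x y : ℕ) : bn false x y = y := rfl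
theorem br_true (x y : Bool) : br true x y = x := rfl
theorem br_false (x y : Bool) : br false x y = y := rfl

theorem cadd (a b : ℕ) : ((Nat.add a b : ℕ) : ℝ) = a + b := Nat.cast_add a b
theorem cmul (a b : ℕ) : ((Nat.mul a b : ℕ) : ℝ) = a * b := Nat.cast_mul a b

theorem csub (a b : ℕ) : ((Nat.sub a b : ℕ) : ℝ) = max ((a : ℝ) - b) 0 := by
  show ((a - b : ℕ) : ℝ) = _
  rcases le_total b a with h | h
  · rw [Nat.cast_sub h, max_eq_left]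
    have : (b : ℝ) ≤ a := by exact_mod_cast h
    linarith
  · rw [Nat.sub_eq_zero_of_le h, max_eq_right]
    · norm_num
    · have : (a : ℝ) ≤ b := by exact_mod_cast h
      linarith

theorem csub_le {a b : ℕ} (h : b ≤ a) : ((Nat.sub a b : ℕ) : ℝ) = (a : ℝ) - b := by
  show ((a - b : ℕ) : ℝ) = _
  rw [Nat.cast_sub h]

theorem csub_of_pos {a b : ℕ} (h : 0 < Nat.sub a b) : ((Nat.sub a b : ℕ) : ℝ) = (a : ℝ) - b ∧
    (0 : ℝ) < (a : ℝ) - b := by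
  have h1 : b < a := by
    have : 0 < a - b := h
    omega
  refine ⟨csub_le h1.le, ?_⟩
  have : (b : ℝ) < a := by exact_mod_cast h1
  linarith

theorem csub_csub (a b : ℕ) : ((Nat.sub a b : ℕ) : ℝ) - ((Nat.sub b a : ℕ) : ℝ) = (a : ℝ) - b := by
  rw [csub, csub]
  rcases le_total (a : ℝ) b with h | h
  · rw [max_eq_right (by linarith), max_eq_left (by linarith)]
    ring
  · rw [max_eq_left (by linarith), max_eq_right (by linarith)]
    ring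

theorem c28 : ((268435456 : ℕ) : ℝ) = 268435456 := by norm_num
theorem c56 : ((72057594037927936 : ℕ) : ℝ) = 72057594037927936 := by norm_num

/-- `n / 2 ^ 14` -/
noncomputable def rr (n : ℕ) : ℝ := (n : ℝ) / 16384

theorem rr_nonneg (n : ℕ) : 0 ≤ rr n := by unfold rr; positivity
theorem rr_le {a b : ℕ} (h : a ≤ b) : rr a ≤ rr b := by
  unfold rr
  exact div_le_div_of_nonneg_right (by exact_mod_cast h) (by norm_num)
theorem rr_lt {a b : ℕ} (h : a < b) : rr a < rr b := by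
  unfold rr
  exact div_lt_div_of_pos_right (by exact_mod_cast h) (by norm_num)
theorem rr_one : rr 16384 = 1 := by unfold rr; norm_num
theorem cast_rr (n : ℕ) : (n : ℝ) = 16384 * rr n := by unfold rr; ring
theorem rr_iff {a b : ℕ} : rr a ≤ rr b ↔ a ≤ b := by
  constructor
  · intro h
    by_contra hc
    push Not at hc
    have := rr_lt hc
    linarith
  · exact rr_le

/-! ### `σ` -/

noncomputable def sg2 (h y : ℝ) : ℝ := (1 - h ^ 2)⁻¹ - (1 + y ^ 2)⁻¹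

theorem sg2_mono {h h' y y' : ℝ} (h0 : 0 ≤ h) (hh : h ≤ h') (h1 : h' < 1) (hy : y ^ 2 ≤ y' ^ 2) :
    sg2 h y ≤ sg2 h' y' := by
  unfold sg2
  have e1 : 0 < 1 - h' ^ 2 := by nlinarith
  have e2 : 1 - h' ^ 2 ≤ 1 - h ^ 2 := by nlinarith
  have e3 := inv_anti₀ e1 e2
  have e4 : (1 + y' ^ 2)⁻¹ ≤ (1 + y ^ 2)⁻¹ := inv_anti₀ (by positivity) (by linarith)
  linarith

section slot

variable {R I ρ β p r : ℝ}

theorem sg2_slot (hs : Slot R I ρ β p r) (c : 0 < cos r) :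
    sg2 (tanh p) (tan r) = ρ ^ 2 * tt R I ^ 2 := by
  have h1 := hs.norm_sq
  rw [mul_pow] at h1
  have h2 := inv_one_add_tan_sq c.ne'
  have hc := cosh_pos p
  have h3 : (1 - tanh p ^ 2)⁻¹ = cosh p ^ 2 := by
    have h4 := cosh_sq p
    have : 1 - tanh p ^ 2 = (cosh p ^ 2)⁻¹ := by
      rw [tanh_eq_sinh_div_cosh]
      field_simp
      linarith
    rw [this, inv_inv]
  unfold sg2
  rw [h2, h3]
  have h4 := cosh_sq p
  have h5 := sin_sq_add_cos_sq r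
  linarith

end slot

theorem sgD_cast {hn hd yn yd : ℕ} (h : hn ≤ hd) : ((sgD hn hd yn yd : ℕ) : ℝ) =
    ((hd : ℝ) ^ 2 - (hn : ℝ) ^ 2) * ((yd : ℝ) ^ 2 + (yn : ℝ) ^ 2) := by
  unfold sgD
  rw [cmul, csub_le (show Nat.mul hn hn ≤ Nat.mul hd hd from Nat.mul_le_mul h h), cadd, cmul, cmul,
    cmul, cmul]
  ring

theorem sgN_cast (hn hd yn yd : ℕ) : ((sgN hn hd yn yd : ℕ) : ℝ) =
    (hn : ℝ) ^ 2 * (yd : ℝ) ^ 2 + (hd : ℝ) ^ 2 * (yn : ℝ) ^ 2 := by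
  unfold sgN
  rw [cadd, cmul, cmul, cmul, cmul, cmul, cmul]
  ring

theorem sg_eq {hn hd yn yd : ℕ} (h : hn < hd) (hy : 0 < yd) :
    sg2 ((hn : ℝ) / hd) ((yn : ℝ) / yd) * ((sgD hn hd yn yd : ℕ) : ℝ) =
      ((sgN hn hd yn yd : ℕ) : ℝ) ∧ (0 : ℝ) < ((sgD hn hd yn yd : ℕ) : ℝ) := by
  have e0 : (0 : ℝ) ≤ (hn : ℝ) := Nat.cast_nonneg _
  have e1 : (hn : ℝ) < hd := by exact_mod_cast h
  have e2 : (0 : ℝ) < yd := by exact_mod_cast hy
  have e3 : (0 : ℝ) < hd := by linarith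
  have e4 : 0 < (hd : ℝ) ^ 2 - (hn : ℝ) ^ 2 := by nlinarith
  have e5 : 0 < (yd : ℝ) ^ 2 + (yn : ℝ) ^ 2 := by positivity
  rw [sgD_cast h.le, sgN_cast]
  refine ⟨?_, mul_pos e4 e5⟩
  unfold sg2
  have f1 : 1 - ((hn : ℝ) / hd) ^ 2 = ((hd : ℝ) ^ 2 - (hn : ℝ) ^ 2) / (hd : ℝ) ^ 2 := by
    field_simp
  have f2 : 1 + ((yn : ℝ) / yd) ^ 2 = ((yd : ℝ) ^ 2 + (yn : ℝ) ^ 2) / (yd : ℝ) ^ 2 := by
    field_simp
  rw [f1, f2, inv_div, inv_div]
  field_simp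
  ring

theorem big_sound {k zn zd hn hd yn yd : ℕ} (h : big k zn zd hn hd yn yd = true) (h1 : hn < hd)
    (h0 : 0 < zd) : 0 < yd ∧
    ((k : ℝ) / 1000) ^ 2 * ((zn : ℝ) / zd) < sg2 ((hn : ℝ) / hd) ((yn : ℝ) / yd) := by
  unfold big at h
  rw [an_iff, lt_iff] at h
  obtain ⟨hy, h⟩ := h
  have h2 := lt_real h
  rw [cmul, cmul, cmul, cmul, cmul] at h2
  obtain ⟨e1, e2⟩ := sg_eq (yn := yn) h1 hy
  refine ⟨hy, ?_⟩
  have e3 : (0 : ℝ) < zd := by exact_mod_cast h0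
  rw [← e1] at h2
  have h3 : ((k : ℝ) * k * zn) * ((sgD hn hd yn yd : ℕ) : ℝ) <
      (1000000 * zd * sg2 ((hn : ℝ) / hd) ((yn : ℝ) / yd)) * ((sgD hn hd yn yd : ℕ) : ℝ) := by
    have e4 : ((1000000 : ℕ) : ℝ) = 1000000 := by norm_num
    rw [e4] at h2
    linarith
  have h4 := lt_of_mul_lt_mul_right h3 e2.le
  have e5 : ((k : ℝ) / 1000) ^ 2 * ((zn : ℝ) / zd) = ((k : ℝ) * k * zn) / (1000000 * zd) := by
    field_simp
    ring
  rw [e5, div_lt_iff₀ (by positivity)]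
  linarith

theorem sml_sound {k zn zd hn hd yn yd : ℕ} (h : sml k zn zd hn hd yn yd = true)
    (h0 : 0 < zd) : 0 < yd ∧ hn < hd ∧
    sg2 ((hn : ℝ) / hd) ((yn : ℝ) / yd) < ((k : ℝ) / 1000) ^ 2 * ((zn : ℝ) / zd) := by
  unfold sml at h
  rw [an_iff, lt_iff] at h
  obtain ⟨hy, h⟩ := h
  have h1 : hn < hd := by
    by_contra hc
    push Not at hc
    have h2 := lt_iff.1 h
    have h3 : sgD hn hd yn yd = 0 := by
      unfold sgD
      have h4 : hd * hd ≤ hn * hn := Nat.mul_le_mul hc hc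
      have h5 : Nat.sub (Nat.mul hd hd) (Nat.mul hn hn) = 0 := Nat.sub_eq_zero_of_le h4
      rw [h5]
      exact Nat.zero_mul _
    rw [h3] at h2
    have h4 : Nat.mul (Nat.mul (Nat.mul k k) zn) 0 = 0 := Nat.mul_zero _
    rw [h4] at h2
    exact Nat.not_lt_zero _ h2
  have h2 := lt_real h
  rw [cmul, cmul, cmul, cmul, cmul] at h2
  obtain ⟨e1, e2⟩ := sg_eq (yn := yn) h1 hy
  refine ⟨hy, h1, ?_⟩
  have e3 : (0 : ℝ) < zd := by exact_mod_cast h0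
  rw [← e1] at h2
  have h3 : (1000000 * zd * sg2 ((hn : ℝ) / hd) ((yn : ℝ) / yd)) * ((sgD hn hd yn yd : ℕ) : ℝ) <
      ((k : ℝ) * k * zn) * ((sgD hn hd yn yd : ℕ) : ℝ) := by
    have e4 : ((1000000 : ℕ) : ℝ) = 1000000 := by norm_num
    rw [e4] at h2
    linarith
  have h4 := lt_of_mul_lt_mul_right h3 e2.le
  have e5 : ((k : ℝ) / 1000) ^ 2 * ((zn : ℝ) / zd) = ((k : ℝ) * k * zn) / (1000000 * zd) := by
    field_simp
    ring
  rw [e5, lt_div_iff₀ (by positivity)]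
  linarith

/-! ### `T` -/

noncomputable def Tq (x m : ℝ) : ℝ := m / (1 - m ^ 2) * (x + x⁻¹)

theorem TT_q {R I : ℝ} (h : 0 < R) (h' : R < π / 2) : TT R I = Tq (tan R) (tanh I) := by
  rw [Pool.Agent.S5.E.V.TT_eq h h']
  have hx := tan_pos' h h'
  unfold Tq
  congr 1
  field_simp
  ring

theorem Tq_mono {x y m n : ℝ} (hx : 0 < x) (hy : x + x⁻¹ ≤ y + y⁻¹) (h0 : 0 ≤ m)
    (h : m ≤ n) (h1 : n < 1) : Tq x m ≤ Tq y n := by
  unfold Tq
  have e1 := Pool.Agent.S5.E.V.hm_mono h0 h h1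
  have e2 : 0 ≤ m / (1 - m ^ 2) := div_nonneg h0 (by nlinarith)
  have e3 : 0 ≤ x + x⁻¹ := by positivity
  exact mul_le_mul e1 hy e3 (e2.trans e1)

theorem Tq_cast {X M : ℕ} (hX : 0 < X) (hM : M < 16384) :
    0 < tD X M ∧ Tq (rr X) (rr M) = ((tN X M : ℕ) : ℝ) / ((tD X M : ℕ) : ℝ) := by
  have hMM : M * M < 268435456 := by nlinarith
  have e1 : ((tD X M : ℕ) : ℝ) = (X : ℝ) * (268435456 - (M : ℝ) ^ 2) := by
    unfold tD
    rw [cmul, csub_le (show Nat.mul M M ≤ 268435456 from hMM.le), cmul, c28]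
    ring
  have e2 : ((tN X M : ℕ) : ℝ) = (M : ℝ) * ((X : ℝ) ^ 2 + 268435456) := by
    unfold tN
    rw [cmul, cadd, cmul, c28]
    ring
  have h1 : (M : ℝ) ^ 2 < 268435456 := by
    have : ((M * M : ℕ) : ℝ) < 268435456 := by exact_mod_cast hMM
    push_cast at this
    linarith
  have h2 : (0 : ℝ) < X := by exact_mod_cast hX
  have h3 : (0 : ℝ) < ((tD X M : ℕ) : ℝ) := by
    rw [e1]
    exact mul_pos h2 (by linarith)
  refine ⟨by exact_mod_cast h3, ?_⟩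
  rw [eq_div_iff h3.ne', e1, e2]
  unfold Tq rr
  have h4 : (268435456 : ℝ) - (M : ℝ) ^ 2 ≠ 0 := by linarith
  have h5 : 1 - ((M : ℝ) / 16384) ^ 2 = (268435456 - (M : ℝ) ^ 2) / 268435456 := by
    ring
  rw [h5]
  field_simp
  ring

/-! ### `|tan z|²` -/

noncomputable def Zq (x m : ℝ) : ℝ := (x ^ 2 + m ^ 2) / (1 + x ^ 2 * m ^ 2)

theorem Zq_cast (X M : ℕ) : (0 : ℝ) < ((zD X M : ℕ) : ℝ) ∧
    Zq (rr X) (rr M) = ((zN X M : ℕ) : ℝ) / ((zD X M : ℕ) : ℝ) := by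
  have e1 : ((zD X M : ℕ) : ℝ) = 72057594037927936 + (X : ℝ) ^ 2 * (M : ℝ) ^ 2 := by
    unfold zD
    rw [cadd, cmul, cmul, cmul, c56]
    ring
  have e2 : ((zN X M : ℕ) : ℝ) = 268435456 * ((X : ℝ) ^ 2 + (M : ℝ) ^ 2) := by
    unfold zN
    rw [cmul, cadd, cmul, cmul, c28]
    ring
  have h3 : (0 : ℝ) < ((zD X M : ℕ) : ℝ) := by
    rw [e1]
    positivity
  refine ⟨h3, ?_⟩
  rw [e1, e2]
  unfold Zq rr
  rw [div_eq_div_iff (by positivity) (by positivity)]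
  ring

theorem Zq_x {x y m : ℝ} (h0 : 0 ≤ x) (h : x ≤ y) (hm0 : 0 ≤ m) (hm : m ≤ 1) :
    Zq x m ≤ Zq y m := by
  unfold Zq
  have h1 : x ^ 2 ≤ y ^ 2 := pow_le_pow_left₀ h0 h 2
  rw [div_le_div_iff₀ (by positivity) (by positivity)]
  have h2 : m ^ 2 ≤ 1 := by nlinarith
  have h3 : m ^ 2 * m ^ 2 ≤ 1 := by nlinarith [sq_nonneg m]
  have : 0 ≤ (y ^ 2 - x ^ 2) * (1 - m ^ 2 * m ^ 2) := mul_nonneg (by linarith) (by linarith)
  nlinarith

theorem Zq_m_le {x m n : ℝ} (hx : x ^ 2 ≤ 1) (h0 : 0 ≤ m) (h : m ≤ n) : Zq x m ≤ Zq x n := by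
  unfold Zq
  have h1 : m ^ 2 ≤ n ^ 2 := pow_le_pow_left₀ h0 h 2
  rw [div_le_div_iff₀ (by positivity) (by positivity)]
  have h3 : x ^ 2 * x ^ 2 ≤ 1 := by nlinarith [sq_nonneg x]
  have : 0 ≤ (n ^ 2 - m ^ 2) * (1 - x ^ 2 * x ^ 2) := mul_nonneg (by linarith) (by linarith)
  nlinarith

theorem Zq_m_ge {x m n : ℝ} (hx : 1 ≤ x ^ 2) (h0 : 0 ≤ m) (h : m ≤ n) : Zq x n ≤ Zq x m := by
  unfold Zq
  have h1 : m ^ 2 ≤ n ^ 2 := pow_le_pow_left₀ h0 h 2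
  rw [div_le_div_iff₀ (by positivity) (by positivity)]
  have h3 : 1 ≤ x ^ 2 * x ^ 2 := by nlinarith [sq_nonneg x]
  have : 0 ≤ (n ^ 2 - m ^ 2) * (x ^ 2 * x ^ 2 - 1) := mul_nonneg (by linarith) (by linarith)
  nlinarith

end Pool.Agent.S5.E.X3
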