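import Pool.Agent.S5.E.X3.Ts

/-!
# Mixed chains, block E: proof codes, soundness
-/

set_option autoImplicit false
set_option maxHeartbeats 4000000

namespace Pool.Agent.S5.E.X3

open Real
open Pool.Agent.S5.E.V (Kd ath tanh_ath slot_lt)
open Pool.Agent.S3.E (al ph tt k2 s2 cc gg al_pos al_lt)

/-- `|cos z|²` -/
noncomputable def Kq (x m : ℝ) : ℝ := (1 + x ^ 2 * m ^ 2) / ((1 - m ^ 2) * (1 + x ^ 2))

/-- The region `g` in terms of `x` and `m`. -/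
structure Gq (g : Sp) (x m : ℝ) : Prop where
  t0 : (g.t0 : ℝ) / 1000 ≤ x * m
  t1 : x * m ≤ (g.t1 : ℝ) / 1000
  k0 : ((g.k0 : ℝ) / 1000) ^ 2 ≤ Kq x m
  k1 : Kq x m ≤ ((g.k1 : ℝ) / 1000) ^ 2

/-- The hypotheses. -/
structure Hy (a : ℕ) (c : Cs) (R I ρ₁ β₁ p₁ r₁ ρ₂ β₂ p₂ r₂ : ℝ) : Prop where
  f : c.f.Ok a
  v : Vx (a : ℝ) R I ρ₁ β₁ p₁ r₁ ρ₂ β₂ p₂ r₂
  c₁ : 0 < cos r₁
  c₂ : 0 < cos r₂
  k₁ : Kd (!c.s1.k) c.s1.rg ρ₁ β₁
  k₂ : Kd (!c.s2.k) c.s2.rg ρ₂ β₂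
  e : c.e = true → p₂ = 0
  o : Gq c.o (tan R) (tanh I)

theorem Kq_mono {x y m n : ℝ} (hy : 0 ≤ y) (hyx : y ≤ x) (h0 : 0 ≤ m) (h : m ≤ n) (h1 : n < 1) :
    Kq x m ≤ Kq y n := by
  have e : ∀ x m : ℝ, m ^ 2 < 1 → Kq x m = (1 + x ^ 2)⁻¹ + m ^ 2 / (1 - m ^ 2) := by
    intro x m hm
    unfold Kq
    have h2 : 1 - m ^ 2 ≠ 0 := by linarith
    have h3 : 1 + x ^ 2 ≠ 0 := by positivity
    field_simp
    ring
  have hm : m ^ 2 < 1 := by nlinarith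
  have hn : n ^ 2 < 1 := by nlinarith
  rw [e x m hm, e y n hn]
  have h2 : (1 + x ^ 2)⁻¹ ≤ (1 + y ^ 2)⁻¹ := inv_anti₀ (by positivity) (by nlinarith)
  have h3 : m ^ 2 / (1 - m ^ 2) ≤ n ^ 2 / (1 - n ^ 2) := by
    rw [div_le_div_iff₀ (by linarith) (by linarith)]
    have : m ^ 2 ≤ n ^ 2 := pow_le_pow_left₀ h0 h 2
    nlinarith
  linarith

theorem Kq_cast {X M : ℕ} (hM : M < 16384) :
    Kq (rr X) (rr M) * (((Nat.mul (Nat.sub 268435456 (Nat.mul M M))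
      (Nat.add 268435456 (Nat.mul X X)) : ℕ) : ℝ)) = ((zD X M : ℕ) : ℝ) ∧
    (0 : ℝ) < ((Nat.mul (Nat.sub 268435456 (Nat.mul M M))
      (Nat.add 268435456 (Nat.mul X X)) : ℕ) : ℝ) := by
  have hMM : M * M < 268435456 := by nlinarith
  have h1 : (M : ℝ) ^ 2 < 268435456 := by
    have : ((M * M : ℕ) : ℝ) < 268435456 := by exact_mod_cast hMM
    push_cast at this
    linarith
  have e1 : ((zD X M : ℕ) : ℝ) = 72057594037927936 + (X : ℝ) ^ 2 * (M : ℝ) ^ 2 := by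
    unfold zD
    rw [cadd, cmul, cmul, cmul, c56]
    ring
  have e2 : ((Nat.mul (Nat.sub 268435456 (Nat.mul M M))
      (Nat.add 268435456 (Nat.mul X X)) : ℕ) : ℝ) =
      (268435456 - (M : ℝ) ^ 2) * (268435456 + (X : ℝ) ^ 2) := by
    rw [cmul, csub_le (show Nat.mul M M ≤ 268435456 from hMM.le), cadd, cmul, cmul, c28]
    ring
  rw [e1, e2]
  have h2 : 0 < 268435456 - (M : ℝ) ^ 2 := by linarith
  refine ⟨?_, by positivity⟩
  unfold Kq rr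
  have h3 : 1 - ((M : ℝ) / 16384) ^ 2 = (268435456 - (M : ℝ) ^ 2) / 268435456 := by ring
  have h4 : 1 + ((X : ℝ) / 16384) ^ 2 = (268435456 + (X : ℝ) ^ 2) / 268435456 := by ring
  rw [h3, h4]
  have h5 : 268435456 + (X : ℝ) ^ 2 ≠ 0 := by positivity
  field_simp
  ring

section leaves

variable {a : ℕ} {c : Cs} {b : Bx} {R I ρ₁ β₁ p₁ r₁ ρ₂ β₂ p₂ r₂ u : ℝ}

/-- lower bound of `K` -/
theorem K_lo (B : Bm c.f b (tan R) (tanh I) u) {k : ℕ}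
    (h : Nat.ble (Nat.mul (Nat.mul k k) (Nat.mul (Nat.sub 268435456 (Nat.mul b.m0 b.m0))
        (Nat.add 268435456 (Nat.mul b.x1 b.x1)))) (Nat.mul 1000000 (zD b.x1 b.m0)) = true) :
    ((k : ℝ) / 1000) ^ 2 ≤ Kq (tan R) (tanh I) := by
  have hm0 : b.m0 < 16384 := lt_of_le_of_lt B.mm B.pm
  have h1 := ble_real h
  obtain ⟨g1, g2⟩ := Kq_cast (X := b.x1) hm0
  rw [cmul (Nat.mul k k), cmul k k, cmul 1000000, c6, ← g1] at h1
  refine le_trans ?_ (Kq_mono B.xp.le B.x1 (rr_nonneg _) B.m0 B.ml)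
  have h2 : ((k : ℝ) * k) ≤ 1000000 * Kq (rr b.x1) (rr b.m0) := by
    have h3 : ((k : ℝ) * k) * ((Nat.mul (Nat.sub 268435456 (Nat.mul b.m0 b.m0))
      (Nat.add 268435456 (Nat.mul b.x1 b.x1)) : ℕ) : ℝ) ≤ (1000000 * Kq (rr b.x1) (rr b.m0)) *
      ((Nat.mul (Nat.sub 268435456 (Nat.mul b.m0 b.m0))
      (Nat.add 268435456 (Nat.mul b.x1 b.x1)) : ℕ) : ℝ) := by
      linarith
    exact le_of_mul_le_mul_right h3 g2
  have : ((k : ℝ) / 1000) ^ 2 = (k : ℝ) * k / 1000000 := by ring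
  rw [this, div_le_iff₀ (by norm_num)]
  linarith

/-- upper bound of `K` -/
theorem K_up (B : Bm c.f b (tan R) (tanh I) u) {k : ℕ}
    (h : Nat.ble (Nat.mul 1000000 (zD b.x0 b.m1))
      (Nat.mul (Nat.mul k k) (Nat.mul (Nat.sub 268435456 (Nat.mul b.m1 b.m1))
        (Nat.add 268435456 (Nat.mul b.x0 b.x0)))) = true) :
    Kq (tan R) (tanh I) ≤ ((k : ℝ) / 1000) ^ 2 := by
  have h1 := ble_real h
  obtain ⟨g1, g2⟩ := Kq_cast (X := b.x0) B.pm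
  rw [cmul (Nat.mul k k), cmul k k, cmul 1000000, c6, ← g1] at h1
  refine (Kq_mono (rr_nonneg b.x0) B.x0 B.mp B.m1 (rr_lt_one B.pm)).trans ?_
  have h2 : 1000000 * Kq (rr b.x0) (rr b.m1) ≤ ((k : ℝ) * k) := by
    have h3 : (1000000 * Kq (rr b.x0) (rr b.m1)) *
      ((Nat.mul (Nat.sub 268435456 (Nat.mul b.m1 b.m1))
      (Nat.add 268435456 (Nat.mul b.x0 b.x0)) : ℕ) : ℝ) ≤
      ((k : ℝ) * k) * ((Nat.mul (Nat.sub 268435456 (Nat.mul b.m1 b.m1))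
      (Nat.add 268435456 (Nat.mul b.x0 b.x0)) : ℕ) : ℝ) := by
      linarith
    exact le_of_mul_le_mul_right h3 g2
  have : ((k : ℝ) / 1000) ^ 2 = (k : ℝ) * k / 1000000 := by ring
  rw [this, le_div_iff₀ (by norm_num)]
  linarith

theorem xm_lo (B : Bm c.f b (tan R) (tanh I) u) :
    (b.x0 : ℝ) * b.m0 ≤ 268435456 * (tan R * tanh I) := by
  have h1 : rr b.x0 * rr b.m0 ≤ tan R * tanh I := mul_le_mul B.x0 B.m0 (rr_nonneg _) B.xp.le
  rw [cast_rr b.x0, cast_rr b.m0]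
  linarith

theorem xm_up (B : Bm c.f b (tan R) (tanh I) u) :
    268435456 * (tan R * tanh I) ≤ (b.x1 : ℝ) * b.m1 := by
  have h1 : tan R * tanh I ≤ rr b.x1 * rr b.m1 := mul_le_mul B.x1 B.m1 B.mp (rr_nonneg _)
  rw [cast_rr b.x1, cast_rr b.m1]
  linarith

theorem lG_sound (B : Bm c.f b (tan R) (tanh I) u) (h : lG c b = true) :
    Gq c.g (tan R) (tanh I) := by
  unfold lG at h
  rw [an_iff, an_iff, an_iff] at h
  obtain ⟨h1, h2, h3, h4⟩ := h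
  have h1' := ble_real h1
  have h2' := ble_real h2
  rw [cmul, cmul, cmul, c28] at h1' h2'
  have g1 := xm_lo B
  have g2 := xm_up B
  have e : ((1000 : ℕ) : ℝ) = 1000 := by norm_num
  rw [e] at h1' h2'
  refine ⟨?_, ?_, K_lo B h4, K_up B h3⟩
  · rw [div_le_iff₀ (by norm_num)]
    linarith
  · rw [le_div_iff₀ (by norm_num)]
    linarith

theorem ble_of_lt {x y : ℕ} (h : lt x y = true) : ((x : ℕ) : ℝ) < y := lt_real h

theorem lO_sound (H : Hy a c R I ρ₁ β₁ p₁ r₁ ρ₂ β₂ p₂ r₂) (B : Bm c.f b (tan R) (tanh I) u)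
    (h : lO1 c b = true ∨ lO2 c b = true ∨ lO3 c b = true ∨ lO4 c b = true) : False := by
  have g1 := xm_lo B
  have g2 := xm_up B
  have e : ((1000 : ℕ) : ℝ) = 1000 := by norm_num
  have o := H.o
  have o0 := o.t0
  have o1 := o.t1
  have o2 := o.k0
  have o3 := o.k1
  rw [div_le_iff₀ (by norm_num)] at o0
  rw [le_div_iff₀ (by norm_num)] at o1
  have hm0 : b.m0 < 16384 := lt_of_le_of_lt B.mm B.pm
  rcases h with h | h | h | h
  · unfold lO1 at h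
    have h' := lt_real h
    rw [cmul, cmul, cmul, c28, e] at h'
    linarith
  · unfold lO2 at h
    have h' := lt_real h
    rw [cmul, cmul, cmul, c28, e] at h'
    linarith
  · unfold lO3 at h
    have h' := lt_real h
    obtain ⟨f1, f2⟩ := Kq_cast (X := b.x1) hm0
    rw [cmul (Nat.mul c.o.k1 c.o.k1), cmul c.o.k1 c.o.k1, cmul 1000000, c6, ← f1] at h'
    have h3 : ((c.o.k1 : ℝ) * c.o.k1) * ((Nat.mul (Nat.sub 268435456 (Nat.mul b.m0 b.m0))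
      (Nat.add 268435456 (Nat.mul b.x1 b.x1)) : ℕ) : ℝ) < (1000000 * Kq (rr b.x1) (rr b.m0)) *
      ((Nat.mul (Nat.sub 268435456 (Nat.mul b.m0 b.m0))
      (Nat.add 268435456 (Nat.mul b.x1 b.x1)) : ℕ) : ℝ) := by
      linarith
    have h4 := lt_of_mul_lt_mul_right h3 f2.le
    have h5 := Kq_mono B.xp.le B.x1 (rr_nonneg _) B.m0 B.ml
    have h6 : ((c.o.k1 : ℝ) / 1000) ^ 2 = (c.o.k1 : ℝ) * c.o.k1 / 1000000 := by ring
    rw [h6, le_div_iff₀ (by norm_num)] at o3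
    linarith
  · unfold lO4 at h
    have h' := lt_real h
    obtain ⟨f1, f2⟩ := Kq_cast (X := b.x0) B.pm
    rw [cmul (Nat.mul c.o.k0 c.o.k0), cmul c.o.k0 c.o.k0, cmul 1000000, c6, ← f1] at h'
    have h3 : (1000000 * Kq (rr b.x0) (rr b.m1)) *
      ((Nat.mul (Nat.sub 268435456 (Nat.mul b.m1 b.m1))
      (Nat.add 268435456 (Nat.mul b.x0 b.x0)) : ℕ) : ℝ) <
      ((c.o.k0 : ℝ) * c.o.k0) * ((Nat.mul (Nat.sub 268435456 (Nat.mul b.m1 b.m1))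
      (Nat.add 268435456 (Nat.mul b.x0 b.x0)) : ℕ) : ℝ) := by
      linarith
    have h4 := lt_of_mul_lt_mul_right h3 f2.le
    have h5 := Kq_mono (rr_nonneg b.x0) B.x0 B.mp B.m1 (rr_lt_one B.pm)
    have h6 : ((c.o.k0 : ℝ) / 1000) ^ 2 = (c.o.k0 : ℝ) * c.o.k0 / 1000000 := by ring
    rw [h6, div_le_iff₀ (by norm_num)] at o2
    linarith

theorem sb1 (H : Hy a c R I ρ₁ β₁ p₁ r₁ ρ₂ β₂ p₂ r₂) (B : Bm c.f b (tan R) (tanh I) u)
    (hu : c.e = false → u = tanh p₁) : SB (a1 c b) (b1 c b) (c1 c b) (d1 c b) p₁ := by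
  have hm0 : b.m0 < 16384 := lt_of_le_of_lt B.mm B.pm
  unfold a1 b1 c1 d1
  rcases he : c.e with _ | _
  · simp only [bn_false]
    have h1 := hu he
    refine ⟨by norm_num, by norm_num, ?_, ?_⟩
    · have := B.u0
      rw [h1] at this
      unfold rr at this
      exact_mod_cast this
    · have := B.u1
      rw [h1] at this
      unfold rr at this
      exact_mod_cast this
  · simp only [bn_true]
    have h1 : p₁ = a * I := by
      have := H.v.hI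
      rw [H.e he] at this
      linarith
    refine ⟨H.f.td _, H.f.td _, ?_, ?_⟩
    · rw [h1]
      exact tau_lo H.f hm0 B.m0
    · rw [h1]
      exact tau_up H.f B.pm B.m1

theorem sb2 (H : Hy a c R I ρ₁ β₁ p₁ r₁ ρ₂ β₂ p₂ r₂) (B : Bm c.f b (tan R) (tanh I) u)
    (hu : c.e = false → u = tanh p₁) : SB (a2 c b) (b2 c b) (c2 c b) (d2 c b) p₂ := by
  have hm0 : b.m0 < 16384 := lt_of_le_of_lt B.mm B.pm
  have hu0 : b.u0 ≤ 16384 := B.uu.trans B.pu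
  unfold a2 b2 c2 d2
  rcases he : c.e with _ | _
  · simp only [bn_false]
    have h1 := hu he
    have g1 := B.u0
    have g2 := B.u1
    rw [h1] at g1 g2
    exact ⟨(v_cast H.f hm0 B.pu).1, (v_cast H.f B.pm hu0).1,
      v_lo H.f hm0 B.pu H.v.sl₁.p0 H.v.sl₂.p0 H.v.hI B.m0 g2,
      v_up H.f B.pm hu0 H.v.sl₁.p0 H.v.sl₂.p0 H.v.hI B.m1 g1⟩
  · simp only [bn_true]
    rw [H.e he]
    exact ⟨by norm_num, by norm_num, by norm_num, by norm_num⟩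

theorem TT_lo (H : Hy a c R I ρ₁ β₁ p₁ r₁ ρ₂ β₂ p₂ r₂) (B : Bm c.f b (tan R) (tanh I) u) :
    ((TnL b : ℕ) : ℝ) / ((TdL b : ℕ) : ℝ) ≤ TT R I := by
  rw [TT_q H.v.R0 H.v.R1]
  exact (T_lo B).2

theorem TT_up (H : Hy a c R I ρ₁ β₁ p₁ r₁ ρ₂ β₂ p₂ r₂) (B : Bm c.f b (tan R) (tanh I) u) :
    TT R I ≤ ((TnU b : ℕ) : ℝ) / ((TdU b : ℕ) : ℝ) := by
  rw [TT_q H.v.R0 H.v.R1]
  exact (T_up B).2

/-- The four bounds of `tan r₁`, `tan r₂`. -/
theorem L1_sound (H : Hy a c R I ρ₁ β₁ p₁ r₁ ρ₂ β₂ p₂ r₂) (B : Bm c.f b (tan R) (tanh I) u)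
    (hu : c.e = false → u = tanh p₁) (h : 0 < L1d c b) :
    (((L1p c b : ℕ) : ℝ) - ((L1n c b : ℕ) : ℝ)) / ((L1d c b : ℕ) : ℝ) ≤ tan r₁ :=
  r_lo H.v.sl₁ H.v.R0 H.v.R1 H.v.I0 H.c₁ H.k₁ (T_lo B).1 (TT_lo H B) (sb1 H B hu) h

theorem L2_sound (H : Hy a c R I ρ₁ β₁ p₁ r₁ ρ₂ β₂ p₂ r₂) (B : Bm c.f b (tan R) (tanh I) u)
    (hu : c.e = false → u = tanh p₁) (h : 0 < L2d c b) :
    (((L2p c b : ℕ) : ℝ) - ((L2n c b : ℕ) : ℝ)) / ((L2d c b : ℕ) : ℝ) ≤ tan r₂ :=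
  r_lo H.v.sl₂ H.v.R0 H.v.R1 H.v.I0 H.c₂ H.k₂ (T_lo B).1 (TT_lo H B) (sb2 H B hu) h

theorem U1_sound (H : Hy a c R I ρ₁ β₁ p₁ r₁ ρ₂ β₂ p₂ r₂) (B : Bm c.f b (tan R) (tanh I) u)
    (hu : c.e = false → u = tanh p₁) (h : 0 < U1d c b) :
    tan r₁ ≤ (((U1p c b : ℕ) : ℝ) - ((U1n c b : ℕ) : ℝ)) / ((U1d c b : ℕ) : ℝ) :=
  r_up H.v.sl₁ H.v.R0 H.v.R1 H.v.I0 H.c₁ H.k₁ (T_up B).1 (TT_up H B) (sb1 H B hu) h

theorem U2_sound (H : Hy a c R I ρ₁ β₁ p₁ r₁ ρ₂ β₂ p₂ r₂) (B : Bm c.f b (tan R) (tanh I) u)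
    (hu : c.e = false → u = tanh p₁) (h : 0 < U2d c b) :
    tan r₂ ≤ (((U2p c b : ℕ) : ℝ) - ((U2n c b : ℕ) : ℝ)) / ((U2d c b : ℕ) : ℝ) :=
  r_up H.v.sl₂ H.v.R0 H.v.R1 H.v.I0 H.c₂ H.k₂ (T_up B).1 (TT_up H B) (sb2 H B hu) h

theorem pos_nonneg {R I ρ β p r : ℝ} {s : Sp} (hs : Slot R I ρ β p r) (h : 0 < R) (h' : R < π / 2)
    (hI : 0 < I) (c : 0 < cos r) (k : Kd (!s.k) s.rg ρ β) (hk : s.k = true) : 0 ≤ tan r := by
  rw [hk] at k
  exact Pool.Agent.S5.E.V.gl_false' hs h h' hI c k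

/-- `0 ≤ L` or the trivial bound: `(L⁺)² ≤ tan² r`. -/
theorem sq_of_lo {y : ℝ} {p n d : ℕ} (hd : 0 < d) (h : ((p : ℝ) - n) / d ≤ y)
    (hn : p = 0 ∨ n = 0) : ((p : ℝ) / d) ^ 2 ≤ y ^ 2 := by
  have hd' : (0 : ℝ) < d := by exact_mod_cast hd
  rcases hn with rfl | rfl
  · rw [Nat.cast_zero, zero_div, zero_pow two_ne_zero]
    exact sq_nonneg y
  · rw [Nat.cast_zero, sub_zero] at h
    exact pow_le_pow_left₀ (by positivity) h 2

theorem Lpn (s : Sp) (n d hn kd kn hd : ℕ) : Lp s n d hn kd = 0 ∨ Ln s n d kn hd = 0 := by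
  rcases hk : s.k with _ | _
  · have e2 : Lp s n d hn kd = Nat.mul (gP n d s.t1) (Nat.mul hn kd) := by unfold Lp; rw [hk]; rfl
    have e3 : Ln s n d kn hd = Nat.mul (gN n d s.t1) (Nat.mul kn hd) := by unfold Ln; rw [hk]; rfl
    rw [e2, e3]
    rcases le_total (Nat.mul 1000 n) (Nat.mul s.t1 d) with h | h
    · left
      have : gP n d s.t1 = 0 := Nat.sub_eq_zero_of_le h
      rw [this]
      exact Nat.zero_mul _
    · right
      have : gN n d s.t1 = 0 := Nat.sub_eq_zero_of_le h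
      rw [this]
      exact Nat.zero_mul _
  · right
    have e3 : Ln s n d kn hd = Nat.mul 0 (Nat.mul kn hd) := by unfold Ln; rw [hk]; rfl
    rw [e3]
    exact Nat.zero_mul _

theorem up_of {y : ℝ} {p n d : ℕ} (hd : 0 < d) (h : y ≤ ((p : ℝ) - n) / d) : y ≤ (p : ℝ) / d := by
  have hd' : (0 : ℝ) < d := by exact_mod_cast hd
  refine h.trans (div_le_div_of_nonneg_right ?_ hd'.le)
  have : (0 : ℝ) ≤ n := Nat.cast_nonneg _
  linarith

theorem lo_of {y : ℝ} {p n d : ℕ} (hd : 0 < d) (h : ((p : ℝ) - n) / d ≤ y) :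
    -((n : ℝ) / d) ≤ y := by
  have hd' : (0 : ℝ) < d := by exact_mod_cast hd
  refine le_trans ?_ h
  rw [← neg_div]
  apply div_le_div_of_nonneg_right _ hd'.le
  have : (0 : ℝ) ≤ p := Nat.cast_nonneg _
  linarith

theorem lGG1_sound (H : Hy a c R I ρ₁ β₁ p₁ r₁ ρ₂ β₂ p₂ r₂) (B : Bm c.f b (tan R) (tanh I) u)
    (hu : c.e = false → u = tanh p₁) (h : lGG1 c b = true) : False := by
  unfold lGG1 at h
  obtain ⟨z1, z2⟩ := Z_up B
  refine norm_big H.v.sl₁ H.v.R0 H.v.R1 H.c₁ H.k₁.k1 (sb1 H B hu) z1 z2 h fun hy => ?_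
  exact sq_of_lo hy (L1_sound H B hu hy) (Lpn _ _ _ _ _ _ _)

theorem lGG2_sound (H : Hy a c R I ρ₁ β₁ p₁ r₁ ρ₂ β₂ p₂ r₂) (B : Bm c.f b (tan R) (tanh I) u)
    (hu : c.e = false → u = tanh p₁) (h : lGG2 c b = true) : False := by
  unfold lGG2 at h
  obtain ⟨z1, z2⟩ := Z_up B
  refine norm_big H.v.sl₂ H.v.R0 H.v.R1 H.c₂ H.k₂.k1 (sb2 H B hu) z1 z2 h fun hy => ?_
  exact sq_of_lo hy (L2_sound H B hu hy) (Lpn _ _ _ _ _ _ _)

theorem lSG1_sound (H : Hy a c R I ρ₁ β₁ p₁ r₁ ρ₂ β₂ p₂ r₂) (B : Bm c.f b (tan R) (tanh I) u)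
    (hu : c.e = false → u = tanh p₁) (h : lSG1 c b = true) : False := by
  unfold lSG1 at h
  rw [an_iff] at h
  obtain ⟨z1, z2⟩ := Z_lo B
  exact norm_sml2 H.v.sl₁ H.v.R0 H.v.R1 H.c₁ H.k₁.k0 (sb1 H B hu) z1 z2 h.1 h.2
    (fun hy => up_of hy (U1_sound H B hu hy)) (fun hy => lo_of hy (L1_sound H B hu hy))
    (fun hk => pos_nonneg H.v.sl₁ H.v.R0 H.v.R1 H.v.I0 H.c₁ H.k₁ hk)

theorem lSG2_sound (H : Hy a c R I ρ₁ β₁ p₁ r₁ ρ₂ β₂ p₂ r₂) (B : Bm c.f b (tan R) (tanh I) u)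
    (hu : c.e = false → u = tanh p₁) (h : lSG2 c b = true) : False := by
  unfold lSG2 at h
  rw [an_iff] at h
  obtain ⟨z1, z2⟩ := Z_lo B
  exact norm_sml2 H.v.sl₂ H.v.R0 H.v.R1 H.c₂ H.k₂.k0 (sb2 H B hu) z1 z2 h.1 h.2
    (fun hy => up_of hy (U2_sound H B hu hy)) (fun hy => lo_of hy (L2_sound H B hu hy))
    (fun hk => pos_nonneg H.v.sl₂ H.v.R0 H.v.R1 H.v.I0 H.c₂ H.k₂ hk)

theorem R_le_arc (B : Bm c.f b (tan R) (tanh I) u) (h : 0 < R) (h' : R < π / 2) {X : ℕ}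
    (hX : b.x1 ≤ X) : R ≤ arctan (rr X) := by
  have h1 : arctan (tan R) ≤ arctan (rr X) := arctan_mono (B.x1.trans (rr_le hX))
  rwa [arctan_tan (by linarith [pi_pos]) h'] at h1

theorem arc_le_R (B : Bm c.f b (tan R) (tanh I) u) (h : 0 < R) (h' : R < π / 2) :
    arctan (rr b.x0) ≤ R := by
  have h1 : arctan (rr b.x0) ≤ arctan (tan R) := arctan_mono B.x0
  rwa [arctan_tan (by linarith [pi_pos]) h'] at h1

theorem r_le_arc {r y : ℝ} (h1 : -(π / 2) < r) (h2 : r < π / 2) (h : tan r ≤ y) :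
    r ≤ arctan y := by
  have h3 := arctan_mono h
  rwa [arctan_tan h1 h2] at h3

theorem arc_le_r {r y : ℝ} (h1 : -(π / 2) < r) (h2 : r < π / 2) (h : y ≤ tan r) :
    arctan y ≤ r := by
  have h3 := arctan_mono h
  rwa [arctan_tan h1 h2] at h3

theorem xU_le (c : Cs) (b : Bx) : b.x1 ≤ xU c b := by
  unfold xU mx
  rcases h : Nat.ble b.x1 c.f.cx with _ | _
  · rw [bn_false]
  · rw [bn_true]
    rwa [Nat.ble_eq] at h

theorem xU_xm (hf : c.f.Ok a) (hb : b.x1 ≤ c.f.xm) : xU c b ≤ c.f.xm := by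
  unfold xU mx
  rcases h : Nat.ble b.x1 c.f.cx with _ | _
  · rw [bn_false]
    exact hb
  · rw [bn_true]
    exact hf.cx

theorem lAU_sound (H : Hy a c R I ρ₁ β₁ p₁ r₁ ρ₂ β₂ p₂ r₂) (B : Bm c.f b (tan R) (tanh I) u)
    (hu : c.e = false → u = tanh p₁) (h : lAU c b = true) : False := by
  unfold lAU at h
  obtain ⟨g1, g2, g3⟩ := angU_sound H.f (xU_xm H.f B.px) h
  obtain ⟨s1, s2⟩ := slot_lt H.v.sl₁ H.c₁
  obtain ⟨s3, s4⟩ := slot_lt H.v.sl₂ H.c₂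
  have h1 := r_le_arc s1 s2 (U1_sound H B hu g1)
  have h2 := r_le_arc s3 s4 (U2_sound H B hu g2)
  have h3 := R_le_arc B H.v.R0 H.v.R1 (xU_le c b)
  have h4 : (a : ℝ) * R ≤ a * arctan (rr (xU c b)) :=
    mul_le_mul_of_nonneg_left h3 (Nat.cast_nonneg a)
  have := H.v.hR
  linarith

theorem lAL_sound (H : Hy a c R I ρ₁ β₁ p₁ r₁ ρ₂ β₂ p₂ r₂) (B : Bm c.f b (tan R) (tanh I) u)
    (hu : c.e = false → u = tanh p₁) (h : lAL c b = true) : False := by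
  unfold lAL at h
  obtain ⟨g1, g2, g3⟩ := angL_sound H.f (B.xx.trans B.px) h
  obtain ⟨s1, s2⟩ := slot_lt H.v.sl₁ H.c₁
  obtain ⟨s3, s4⟩ := slot_lt H.v.sl₂ H.c₂
  have h1 := arc_le_r s1 s2 (L1_sound H B hu g1)
  have h2 := arc_le_r s3 s4 (L2_sound H B hu g2)
  have h3 := arc_le_R B H.v.R0 H.v.R1
  have h4 : (a : ℝ) * arctan (rr b.x0) ≤ a * R :=
    mul_le_mul_of_nonneg_left h3 (Nat.cast_nonneg a)
  have := H.v.hR
  linarith

/-- The lower bound `y` of `tan r` from the upper bound of the other slot. -/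
theorem y_lo {A : ℝ} {r r' : ℝ} (hf : c.f.Ok a) {p n d x : ℕ} (hx : x ≤ c.f.xm)
    (hP : lt 0 (fP c.f x) = true) (hd : 0 < d) (hR : A + r + r' = π) (hA : A ≤ a * arctan (rr x))
    (hr' : r' ≤ arctan (((p : ℝ) - n) / d)) (s1 : -(π / 2) < r) (s2 : r < π / 2)
    (hy : 0 < yD c.f p n d x) :
    (((yP c.f p n d x : ℕ) : ℝ) / ((yD c.f p n d x : ℕ) : ℝ)) ^ 2 ≤ tan r ^ 2 := by
  rw [lt_iff] at hP
  obtain ⟨y, h1, h2, -⟩ := y_sound hf hx hP hd hy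
  have h3 : arctan y ≤ r := by linarith
  have h4 : y ≤ tan r := by
    rw [← arctan_tan s1 s2] at h3
    exact arctan_le_arctan_iff.1 h3
  rw [← h2]
  rcases le_total y 0 with hc | hc
  · rw [max_eq_right hc, zero_pow two_ne_zero]
    exact sq_nonneg _
  · rw [max_eq_left hc]
    exact pow_le_pow_left₀ hc h4 2

theorem y_up {A : ℝ} {r r' : ℝ} (hf : c.f.Ok a) {p n d x : ℕ} (hx : x ≤ c.f.xm)
    (hP : lt 0 (fP c.f x) = true) (hd : 0 < d) (hR : A + r + r' = π) (hA : a * arctan (rr x) ≤ A)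
    (hr' : arctan (((p : ℝ) - n) / d) ≤ r') (s1 : -(π / 2) < r) (s2 : r < π / 2)
    (hy : 0 < yD c.f p n d x) :
    tan r ≤ ((yP c.f p n d x : ℕ) : ℝ) / ((yD c.f p n d x : ℕ) : ℝ) := by
  rw [lt_iff] at hP
  obtain ⟨y, h1, h2, -⟩ := y_sound hf hx hP hd hy
  have h3 : r ≤ arctan y := by linarith
  have h4 : tan r ≤ y := by
    rw [← arctan_tan s1 s2] at h3
    exact arctan_le_arctan_iff.1 h3
  rw [← h2]
  exact h4.trans (le_max_left _ _)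

theorem y_pos {A : ℝ} {r r' : ℝ} (hf : c.f.Ok a) {p n d x : ℕ} (hx : x ≤ c.f.xm)
    (hP : lt 0 (fP c.f x) = true) (hd : 0 < d) (hR : A + r + r' = π) (hA : A ≤ a * arctan (rr x))
    (hr' : r' ≤ arctan (((p : ℝ) - n) / d)) (s1 : -(π / 2) < r) (s2 : r < π / 2)
    (hy : 0 < yD c.f p n d x) (hs : yS c.f p n d x = true) : 0 ≤ tan r := by
  rw [lt_iff] at hP
  obtain ⟨y, h1, -, h2⟩ := y_sound hf hx hP hd hy
  have h3 : arctan y ≤ r := by linarith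
  rw [← arctan_tan s1 s2] at h3
  exact (h2 hs).trans (arctan_le_arctan_iff.1 h3)

theorem lBA1_sound (H : Hy a c R I ρ₁ β₁ p₁ r₁ ρ₂ β₂ p₂ r₂) (B : Bm c.f b (tan R) (tanh I) u)
    (hu : c.e = false → u = tanh p₁) (h : lBA1 c b = true) : False := by
  unfold lBA1 at h
  rw [an_iff, an_iff, lt_iff (b := U2d c b)] at h
  obtain ⟨h1, h2, h3⟩ := h
  obtain ⟨z1, z2⟩ := Z_up B
  obtain ⟨s1, s2⟩ := slot_lt H.v.sl₁ H.c₁
  obtain ⟨s3, s4⟩ := slot_lt H.v.sl₂ H.c₂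
  have g := R_le_arc B H.v.R0 H.v.R1 (xU_le c b)
  have g' : (a : ℝ) * R ≤ a * arctan (rr (xU c b)) :=
    mul_le_mul_of_nonneg_left g (Nat.cast_nonneg a)
  refine norm_big H.v.sl₁ H.v.R0 H.v.R1 H.c₁ H.k₁.k1 (sb1 H B hu) z1 z2 h3 fun hy => ?_
  exact y_lo H.f (xU_xm H.f B.px) h1 h2 H.v.hR g' (r_le_arc s3 s4 (U2_sound H B hu h2)) s1 s2 hy

theorem lBA2_sound (H : Hy a c R I ρ₁ β₁ p₁ r₁ ρ₂ β₂ p₂ r₂) (B : Bm c.f b (tan R) (tanh I) u)
    (hu : c.e = false → u = tanh p₁) (h : lBA2 c b = true) : False := by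
  unfold lBA2 at h
  rw [an_iff, an_iff, lt_iff (b := U1d c b)] at h
  obtain ⟨h1, h2, h3⟩ := h
  obtain ⟨z1, z2⟩ := Z_up B
  obtain ⟨s1, s2⟩ := slot_lt H.v.sl₁ H.c₁
  obtain ⟨s3, s4⟩ := slot_lt H.v.sl₂ H.c₂
  have g := R_le_arc B H.v.R0 H.v.R1 (xU_le c b)
  have g' : (a : ℝ) * R ≤ a * arctan (rr (xU c b)) :=
    mul_le_mul_of_nonneg_left g (Nat.cast_nonneg a)
  refine norm_big H.v.sl₂ H.v.R0 H.v.R1 H.c₂ H.k₂.k1 (sb2 H B hu) z1 z2 h3 fun hy => ?_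
  have e : (a : ℝ) * R + r₂ + r₁ = π := by linarith [H.v.hR]
  exact y_lo H.f (xU_xm H.f B.px) h1 h2 e g' (r_le_arc s1 s2 (U1_sound H B hu h2)) s3 s4 hy

theorem lSB1_sound (H : Hy a c R I ρ₁ β₁ p₁ r₁ ρ₂ β₂ p₂ r₂) (B : Bm c.f b (tan R) (tanh I) u)
    (hu : c.e = false → u = tanh p₁) (h : lSB1 c b = true) : False := by
  unfold lSB1 at h
  rw [an_iff, an_iff, an_iff, lt_iff (b := L2d c b)] at h
  obtain ⟨h1, h2, h3, h4⟩ := h
  obtain ⟨z1, z2⟩ := Z_lo B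
  obtain ⟨s1, s2⟩ := slot_lt H.v.sl₁ H.c₁
  obtain ⟨s3, s4⟩ := slot_lt H.v.sl₂ H.c₂
  have g := arc_le_R B H.v.R0 H.v.R1
  have g' : (a : ℝ) * arctan (rr b.x0) ≤ a * R :=
    mul_le_mul_of_nonneg_left g (Nat.cast_nonneg a)
  exact norm_sml2 H.v.sl₁ H.v.R0 H.v.R1 H.c₁ H.k₁.k0 (sb1 H B hu) z1 z2 h3 h4
    (fun hy => y_up H.f (B.xx.trans B.px) h1 h2 H.v.hR g'
      (arc_le_r s3 s4 (L2_sound H B hu h2)) s1 s2 hy)
    (fun hy => lo_of hy (L1_sound H B hu hy))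
    (fun hk => pos_nonneg H.v.sl₁ H.v.R0 H.v.R1 H.v.I0 H.c₁ H.k₁ hk)

theorem lSB2_sound (H : Hy a c R I ρ₁ β₁ p₁ r₁ ρ₂ β₂ p₂ r₂) (B : Bm c.f b (tan R) (tanh I) u)
    (hu : c.e = false → u = tanh p₁) (h : lSB2 c b = true) : False := by
  unfold lSB2 at h
  rw [an_iff, an_iff, an_iff, lt_iff (b := L1d c b)] at h
  obtain ⟨h1, h2, h3, h4⟩ := h
  obtain ⟨z1, z2⟩ := Z_lo B
  obtain ⟨s1, s2⟩ := slot_lt H.v.sl₁ H.c₁
  obtain ⟨s3, s4⟩ := slot_lt H.v.sl₂ H.c₂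
  have g := arc_le_R B H.v.R0 H.v.R1
  have g' : (a : ℝ) * arctan (rr b.x0) ≤ a * R :=
    mul_le_mul_of_nonneg_left g (Nat.cast_nonneg a)
  have e : (a : ℝ) * R + r₂ + r₁ = π := by linarith [H.v.hR]
  exact norm_sml2 H.v.sl₂ H.v.R0 H.v.R1 H.c₂ H.k₂.k0 (sb2 H B hu) z1 z2 h3 h4
    (fun hy => y_up H.f (B.xx.trans B.px) h1 h2 e g'
      (arc_le_r s1 s2 (L1_sound H B hu h2)) s3 s4 hy)
    (fun hy => lo_of hy (L2_sound H B hu hy))
    (fun hk => pos_nonneg H.v.sl₂ H.v.R0 H.v.R1 H.v.I0 H.c₂ H.k₂ hk)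

theorem lSC1_sound (H : Hy a c R I ρ₁ β₁ p₁ r₁ ρ₂ β₂ p₂ r₂) (B : Bm c.f b (tan R) (tanh I) u)
    (hu : c.e = false → u = tanh p₁) (h : lSC1 c b = true) : False := by
  unfold lSC1 at h
  rw [an_iff, an_iff, an_iff, an_iff, an_iff, an_iff, lt_iff (b := L2d c b), lt_iff (b := U2d c b),
    lt_iff (b := yD c.f (U2p c b) (U2n c b) (U2d c b) (xU c b))] at h
  obtain ⟨h1, h2, h3, h4, h5, h6, h7⟩ := h
  obtain ⟨z1, z2⟩ := Z_lo B
  obtain ⟨s1, s2⟩ := slot_lt H.v.sl₁ H.c₁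
  obtain ⟨s3, s4⟩ := slot_lt H.v.sl₂ H.c₂
  have g := arc_le_R B H.v.R0 H.v.R1
  have g' : (a : ℝ) * arctan (rr b.x0) ≤ a * R :=
    mul_le_mul_of_nonneg_left g (Nat.cast_nonneg a)
  have k := R_le_arc B H.v.R0 H.v.R1 (xU_le c b)
  have k' : (a : ℝ) * R ≤ a * arctan (rr (xU c b)) :=
    mul_le_mul_of_nonneg_left k (Nat.cast_nonneg a)
  have hr := y_pos H.f (xU_xm H.f B.px) h3 h4 H.v.hR k' (r_le_arc s3 s4 (U2_sound H B hu h4))
    s1 s2 h5 h6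
  refine norm_sml H.v.sl₁ H.v.R0 H.v.R1 H.c₁ H.k₁.k0 (sb1 H B hu) z1 z2 h7 fun hy => ?_
  exact pow_le_pow_left₀ hr (y_up H.f (B.xx.trans B.px) h1 h2 H.v.hR g'
      (arc_le_r s3 s4 (L2_sound H B hu h2)) s1 s2 hy) 2

theorem lSC2_sound (H : Hy a c R I ρ₁ β₁ p₁ r₁ ρ₂ β₂ p₂ r₂) (B : Bm c.f b (tan R) (tanh I) u)
    (hu : c.e = false → u = tanh p₁) (h : lSC2 c b = true) : False := by
  unfold lSC2 at h
  rw [an_iff, an_iff, an_iff, an_iff, an_iff, an_iff, lt_iff (b := L1d c b), lt_iff (b := U1d c b),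
    lt_iff (b := yD c.f (U1p c b) (U1n c b) (U1d c b) (xU c b))] at h
  obtain ⟨h1, h2, h3, h4, h5, h6, h7⟩ := h
  obtain ⟨z1, z2⟩ := Z_lo B
  obtain ⟨s1, s2⟩ := slot_lt H.v.sl₁ H.c₁
  obtain ⟨s3, s4⟩ := slot_lt H.v.sl₂ H.c₂
  have g := arc_le_R B H.v.R0 H.v.R1
  have g' : (a : ℝ) * arctan (rr b.x0) ≤ a * R :=
    mul_le_mul_of_nonneg_left g (Nat.cast_nonneg a)
  have k := R_le_arc B H.v.R0 H.v.R1 (xU_le c b)
  have k' : (a : ℝ) * R ≤ a * arctan (rr (xU c b)) :=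
    mul_le_mul_of_nonneg_left k (Nat.cast_nonneg a)
  have e : (a : ℝ) * R + r₂ + r₁ = π := by linarith [H.v.hR]
  have hr := y_pos H.f (xU_xm H.f B.px) h3 h4 e k' (r_le_arc s1 s2 (U1_sound H B hu h4))
    s3 s4 h5 h6
  refine norm_sml H.v.sl₂ H.v.R0 H.v.R1 H.c₂ H.k₂.k0 (sb2 H B hu) z1 z2 h7 fun hy => ?_
  exact pow_le_pow_left₀ hr (y_up H.f (B.xx.trans B.px) h1 h2 e g'
      (arc_le_r s1 s2 (L1_sound H B hu h2)) s3 s4 hy) 2

theorem lE_sound (H : Hy a c R I ρ₁ β₁ p₁ r₁ ρ₂ β₂ p₂ r₂) (B : Bm c.f b (tan R) (tanh I) u)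
    (hu : c.e = false → u = tanh p₁) (h : lE c b = true) : False := by
  unfold lE at h
  rw [an_iff] at h
  obtain ⟨h1, h2⟩ := h
  rcases he : c.e with _ | _
  · have h3 := lt_real h2
    rw [cmul, cmul] at h3
    have h4 : tanh p₁ ≤ tanh (a * I) := by
      apply tanh_mono
      rw [H.v.hI]
      linarith [H.v.sl₂.p0]
    have h5 := tau_up H.f B.pm B.m1
    have h6 := B.u0
    rw [hu he] at h6
    have h7 : (0 : ℝ) < ((c.f.td b.m1 : ℕ) : ℝ) := by exact_mod_cast H.f.td b.m1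
    have h8 : rr b.u0 ≤ ((c.f.tn b.m1 : ℕ) : ℝ) / ((c.f.td b.m1 : ℕ) : ℝ) := by linarith
    rw [le_div_iff₀ h7] at h8
    rw [cast_rr b.u0] at h3
    push_cast at h3
    linarith
  · rw [he, bn_true] at h1
    exact absurd h1 (by decide)

theorem sinsq (hf : c.f.Ok a) {x : ℕ} (h : ((c.f.sn x : ℕ) : ℝ) ≤ ((c.f.sp x : ℕ) : ℝ)) :
    sin (a * arctan (rr x)) ^ 2 = ((sq (Nat.sub (c.f.sp x) (c.f.sn x)) : ℕ) : ℝ) /
      ((c.f.nn x : ℕ) : ℝ) := by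
  obtain ⟨h1, h2⟩ := sin_of hf x
  rw [eq_div_iff h2.ne', h1]
  unfold sq
  rw [cmul, csub_le (by exact_mod_cast h)]
  ring

theorem sq_le_nn (hf : c.f.Ok a) {x : ℕ} (h : ((c.f.sn x : ℕ) : ℝ) ≤ ((c.f.sp x : ℕ) : ℝ)) :
    sq (Nat.sub (c.f.sp x) (c.f.sn x)) ≤ c.f.nn x := by
  have h1 := sinsq hf h
  have h2 := (sin_of hf x).2
  have h3 : sin (a * arctan (rr x)) ^ 2 ≤ 1 := by
    have := sin_sq_add_cos_sq (a * arctan (rr x))
    nlinarith [sq_nonneg (cos (a * arctan (rr x)))]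
  rw [h1, div_le_one h2] at h3
  exact_mod_cast h3

theorem sin_nonneg_of (hf : c.f.Ok a) {x : ℕ} (h : ((c.f.sn x : ℕ) : ℝ) ≤ ((c.f.sp x : ℕ) : ℝ)) :
    0 ≤ sin (a * arctan (rr x)) := by
  have hs := hf.s x
  have h1 : 0 ≤ sin (a * arctan (rr x)) * 16384 ^ a := by
    rw [hs]
    exact mul_nonneg (pow_pos (cos_arctan_pos _) _).le (by linarith)
  exact nonneg_of_mul_nonneg_left h1 (by positivity)

theorem lMU_sound (H : Hy a c R I ρ₁ β₁ p₁ r₁ ρ₂ β₂ p₂ r₂) (B : Bm c.f b (tan R) (tanh I) u)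
    (hu : c.e = false → u = tanh p₁) (h : lMU c b = true) : False := by
  unfold lMU at h
  rw [an_iff, lt_iff] at h
  obtain ⟨h1, h2⟩ := h
  set X := xU c b with hX
  obtain ⟨g1, g2, g3, g4⟩ := ang_of H.f (xU_xm H.f B.px) h1
  rw [← hX] at g1 g2 g3 g4
  obtain ⟨z1, z2⟩ := Z_up B
  obtain ⟨v1, v2⟩ := sin_le_w H.v.sl₁ H.v.R0 H.v.R1 H.k₁.k1 (sb1 H B hu) z1 z2
  obtain ⟨v3, v4⟩ := sin_le_w H.v.sl₂ H.v.R0 H.v.R1 H.k₂.k1 (sb2 H B hu) z1 z2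
  obtain ⟨s1, s2⟩ := slot_lt H.v.sl₁ H.c₁
  obtain ⟨s3, s4⟩ := slot_lt H.v.sl₂ H.c₂
  have hnn := (sin_of H.f X).2
  have hsp : ((c.f.sn X : ℕ) : ℝ) ≤ ((c.f.sp X : ℕ) : ℝ) := by
    by_contra hc
    push Not at hc
    have hc' : c.f.sp X ≤ c.f.sn X := by
      have : c.f.sp X < c.f.sn X := by exact_mod_cast hc
      exact this.le
    have e1 : Nat.sub (c.f.sp X) (c.f.sn X) = 0 := Nat.sub_eq_zero_of_le hc'
    rw [e1] at h2
    have e2 : sq 0 = 0 := rfl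
    rw [e2] at h2
    unfold mmU at h2
    rw [an_iff, lt_iff] at h2
    have h3 := h2.1
    unfold dP at h3
    have e3 : ∀ y z : ℕ, Nat.sub (Nat.mul 0 y) z = 0 := by
      intro y z
      show 0 * y - z = 0
      rw [Nat.zero_mul, Nat.zero_sub]
    rw [e3] at h3
    exact lt_irrefl _ h3
  obtain ⟨m1, m2⟩ := mmU_sound hnn v1 v3 (sq_le_nn H.f hsp) h2
  have hA := R_le_arc B H.v.R0 H.v.R1 (xU_le c b)
  rw [← hX] at hA
  have g' : (a : ℝ) * R ≤ a * arctan (rr X) := mul_le_mul_of_nonneg_left hA (Nat.cast_nonneg a)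
  rw [← sinsq H.f hsp] at m1 m2
  exact MU_real H.v.hR g' (sin_nonneg_of H.f hsp) g3 s2 s3 s4 v2 v4 rfl m1 m2

theorem tan_nonneg_of {R I ρ β p r : ℝ} {s : Sp} {n d hn hd kn kd : ℕ} (hs : Slot R I ρ β p r)
    (h : 0 < R) (h' : R < π / 2) (hI : 0 < I) (c : 0 < cos r) (k : Kd (!s.k) s.rg ρ β)
    (hd0 : 0 < d) (hT : (n : ℝ) / d ≤ TT R I) (sb : SB hn hd kn kd p)
    (hL : Ln s n d kn hd = 0) : 0 ≤ tan r := by
  rcases hk : s.k with _ | _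
  · have e4 : Ld s n d hd kd = Nat.mul (gD n d s.t1) (Nat.mul hd kd) := by unfold Ld; rw [hk]; rfl
    have h1 : 0 < Ld s n d hd kd := by
      rw [e4]
      have g1 : 0 < gD n d s.t1 := by
        show 0 < 1000 * d + s.t1 * n
        positivity
      exact Nat.mul_pos g1 (Nat.mul_pos sb.d0 sb.d1)
    have h2 := r_lo hs h h' hI c k hd0 hT sb h1
    rw [hL, Nat.cast_zero, sub_zero] at h2
    exact le_trans (by positivity) h2
  · exact pos_nonneg hs h h' hI c k hk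

theorem r_nonneg_of {r : ℝ} (h1 : -(π / 2) < r) (h2 : r < π / 2) (h : 0 ≤ tan r) : 0 ≤ r := by
  have h3 := arc_le_r h1 h2 h
  rwa [arctan_zero] at h3

theorem lt_of_wD {zd hn hd : ℕ} (h : 0 < wD zd hn hd) : hn < hd := by
  by_contra hc
  push Not at hc
  have h1 : Nat.sub (Nat.mul hd hd) (Nat.mul hn hn) = 0 :=
    Nat.sub_eq_zero_of_le (Nat.mul_le_mul hc hc)
  unfold wD at h
  rw [h1] at h
  have : Nat.mul (Nat.mul 1000000 zd) 0 = 0 := Nat.mul_zero _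
  omega

theorem lML_sound (H : Hy a c R I ρ₁ β₁ p₁ r₁ ρ₂ β₂ p₂ r₂) (B : Bm c.f b (tan R) (tanh I) u)
    (hu : c.e = false → u = tanh p₁) (h : lML c b = true) : False := by
  unfold lML at h
  rw [an_iff, an_iff, an_iff, lt_iff] at h
  obtain ⟨h1, h2, h3, h4⟩ := h
  obtain ⟨g1, g2, g3, g4⟩ := ang_of H.f (B.xx.trans B.px) h1
  obtain ⟨z1, z2⟩ := Z_lo B
  obtain ⟨s1, s2⟩ := slot_lt H.v.sl₁ H.c₁
  obtain ⟨s3, s4⟩ := slot_lt H.v.sl₂ H.c₂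
  have hnn := (sin_of H.f b.x0).2
  have hsp := ble_real h2
  rw [Nat.ble_eq] at h3
  have h3' : L1n c b = 0 ∧ L2n c b = 0 := by
    have : L1n c b + L2n c b ≤ 0 := h3
    omega
  have r1 : 0 ≤ r₁ := r_nonneg_of s1 s2 (tan_nonneg_of H.v.sl₁ H.v.R0 H.v.R1 H.v.I0 H.c₁ H.k₁
    (T_lo B).1 (TT_lo H B) (sb1 H B hu) h3'.1)
  have r2 : 0 ≤ r₂ := r_nonneg_of s3 s4 (tan_nonneg_of H.v.sl₂ H.v.R0 H.v.R1 H.v.I0 H.c₂ H.k₂
    (T_lo B).1 (TT_lo H B) (sb2 H B hu) h3'.2)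
  -- the denominators
  have hw : 0 < wD (ZdL b) (c1 c b) (d1 c b) ∧ 0 < wD (ZdL b) (c2 c b) (d2 c b) := by
    have h5 := lt_iff.1 h4
    have h6 : 0 < eP (sq (Nat.sub (c.f.sp b.x0) (c.f.sn b.x0))) (c.f.nn b.x0)
      (wN c.s1.k0 (ZnL b) (ZdL b) (c1 c b) (d1 c b)) (wD (ZdL b) (c1 c b) (d1 c b))
      (wN c.s2.k0 (ZnL b) (ZdL b) (c2 c b) (d2 c b)) (wD (ZdL b) (c2 c b) (d2 c b)) :=
      lt_of_le_of_lt (Nat.zero_le _) h5
    unfold eP at h6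
    exact nat_pos_of_mul (nat_pos_of_mul (nat_pos_of_mul h6).1).2
  obtain ⟨v1, v2⟩ := w_le_sin H.v.sl₁ H.v.R0 H.v.R1 H.k₁.k0 (sb1 H B hu) z1 (lt_of_wD hw.1) z2
  obtain ⟨v3, v4⟩ := w_le_sin H.v.sl₂ H.v.R0 H.v.R1 H.k₂.k0 (sb2 H B hu) z1 (lt_of_wD hw.2) z2
  have m := mmL_sound hnn v1 v3 (sq_le_nn H.f hsp) h4
  have hA := arc_le_R B H.v.R0 H.v.R1
  have g' : (a : ℝ) * arctan (rr b.x0) ≤ a * R := mul_le_mul_of_nonneg_left hA (Nat.cast_nonneg a)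
  rw [← sinsq H.f hsp] at m
  exact ML_real H.v.hR g' g2 r1 s2 r2 (by positivity) (by positivity) v2 v4 rfl m

/-- All leaves. -/
theorem leaf_sound (H : Hy a c R I ρ₁ β₁ p₁ r₁ ρ₂ β₂ p₂ r₂) (B : Bm c.f b (tan R) (tanh I) u)
    (hu : c.e = false → u = tanh p₁) {k : ℕ} (h : leaf c b k = true) :
    Gq c.g (tan R) (tanh I) := by
  have key : ∀ (x : Bool) (y z : Bool), br x y z = true → y = true ∨ z = true := by
    intro x y z h
    cases x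
    · right; exact h
    · left; exact h
  unfold leaf at h
  rcases key _ _ _ h with h | h
  · rcases key _ _ _ h with h | h
    · rcases key _ _ _ h with h | h
      · exact lG_sound B h
      · exact (lAL_sound H B hu h).elim
    · rcases key _ _ _ h with h | h
      · exact (lAU_sound H B hu h).elim
      · exact (lMU_sound H B hu h).elim
  · rcases key _ _ _ h with h | h
    · rcases key _ _ _ h with h | h
      · rcases key _ _ _ h with h | h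
        · exact (lGG1_sound H B hu h).elim
        · exact (lGG2_sound H B hu h).elim
      · rcases key _ _ _ h with h | h
        · rcases key _ _ _ h with h | h
          · exact (lSG1_sound H B hu h).elim
          · exact (lSG2_sound H B hu h).elim
        · rcases key _ _ _ h with h | h
          · exact (lBA1_sound H B hu h).elim
          · exact (lBA2_sound H B hu h).elim
    · rcases key _ _ _ h with h | h
      · rcases key _ _ _ h with h | h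
        · rcases key _ _ _ h with h | h
          · exact (lSB1_sound H B hu h).elim
          · exact (lSB2_sound H B hu h).elim
        · rcases key _ _ _ h with h | h
          · exact (lML_sound H B hu h).elim
          · exact (lE_sound H B hu h).elim
      · rcases key _ _ _ h with h | h
        · rcases key _ _ _ h with h | h
          · exact (lO_sound H B (Or.inl h)).elim
          · exact (lO_sound H B (Or.inr (Or.inr (Or.inl h)))).elim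
        · rcases key _ _ _ h with h | h
          · rcases key _ _ _ h with h | h
            · exact (lO_sound H B (Or.inr (Or.inr (Or.inr h)))).elim
            · exact (lO_sound H B (Or.inr (Or.inl h))).elim
          · rcases key _ _ _ h with h | h
            · exact (lSC1_sound H B hu h).elim
            · exact (lSC2_sound H B hu h).elim

end leaves

/-! ### The walk -/

theorem fc_eq (n : ℕ) (k : ℕ → ℕ) : fc n k = k n := by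
  cases n <;> rfl

theorem nx_ne {n : ℕ} {k : ℕ → ℕ} (h : nx n k ≠ 0) : n ≠ 0 ∧ k (n - 1) ≠ 0 := by
  cases n with
  | zero => exact absurd rfl h
  | succ m => exact ⟨by omega, h⟩

theorem rr_md (x y : ℕ) (h : x ≤ y) : x ≤ md x y ∧ md x y ≤ y := by
  have e : md x y = (x + y) / 2 := rfl
  rw [e]
  omega

theorem ck_sound {c : Cs} {x m u : ℝ} {P : Prop}
    (hl : ∀ (b : Bx) (t : ℕ), leaf c b t = true → Bm c.f b x m u → P) (k : ℕ) :
    ∀ d x0 x1 m0 m1 u0 u1 : ℕ, ck c k d x0 x1 m0 m1 u0 u1 ≠ 0 →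
      Bm c.f ⟨x0, x1, m0, m1, u0, u1⟩ x m u → P := by
  induction k with
  | zero =>
    intro d x0 x1 m0 m1 u0 u1 h
    exact absurd rfl h
  | succ k ih =>
    intro d x0 x1 m0 m1 u0 u1 h B
    have e : ck c (k + 1) d x0 x1 m0 m1 u0 u1 =
      fc (Nat.div d 32) fun r => fc (Nat.mod d 32) fun t =>
      Nat.rec (motive := fun _ => ℕ)
        (fc (md x0 x1) fun y => nx (ck c k r x0 y m0 m1 u0 u1) fun r' => ck c k r' y x1 m0 m1 u0 u1)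
        (fun t1 _ => Nat.rec (motive := fun _ => ℕ)
          (fc (md m0 m1) fun y => nx (ck c k r x0 x1 m0 y u0 u1) fun r' => ck c k r' x0 x1 y m1 u0 u1)
          (fun t2 _ => Nat.rec (motive := fun _ => ℕ)
            (fc (md u0 u1) fun y => nx (ck c k r x0 x1 m0 m1 u0 y) fun r' =>
              ck c k r' x0 x1 m0 m1 y u1)
            (fun _ _ => bn (leaf c ⟨x0, x1, m0, m1, u0, u1⟩ t) (Nat.succ r) 0)
            t2)
          t1)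
        t := rfl
    rw [e, fc_eq, fc_eq] at h
    rcases ht : Nat.mod d 32 with _ | t
    · rw [ht] at h
      have h' : nx (ck c k (Nat.div d 32) x0 (md x0 x1) m0 m1 u0 u1)
          (fun r' => ck c k r' (md x0 x1) x1 m0 m1 u0 u1) ≠ 0 := by
        rw [← fc_eq (md x0 x1) (fun y => nx (ck c k (Nat.div d 32) x0 y m0 m1 u0 u1)
          fun r' => ck c k r' y x1 m0 m1 u0 u1)]
        exact h
      obtain ⟨g1, g2⟩ := nx_ne h'
      obtain ⟨f1, f2⟩ := rr_md x0 x1 B.xx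
      rcases le_total x (rr (md x0 x1)) with hc | hc
      · exact ih _ _ _ _ _ _ _ g1 ⟨B.x0, hc, B.m0, B.m1, B.u0, B.u1, B.p0, f2.trans B.px, B.pm,
          B.pu⟩
      · exact ih _ _ _ _ _ _ _ g2 ⟨hc, B.x1, B.m0, B.m1, B.u0, B.u1, B.p0.trans f1, B.px, B.pm,
          B.pu⟩
    · rcases t with _ | t
      · rw [ht] at h
        have h' : nx (ck c k (Nat.div d 32) x0 x1 m0 (md m0 m1) u0 u1)
            (fun r' => ck c k r' x0 x1 (md m0 m1) m1 u0 u1) ≠ 0 := by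
          rw [← fc_eq (md m0 m1) (fun y => nx (ck c k (Nat.div d 32) x0 x1 m0 y u0 u1)
            fun r' => ck c k r' x0 x1 y m1 u0 u1)]
          exact h
        obtain ⟨g1, g2⟩ := nx_ne h'
        obtain ⟨f1, f2⟩ := rr_md m0 m1 B.mm
        rcases le_total m (rr (md m0 m1)) with hc | hc
        · exact ih _ _ _ _ _ _ _ g1 ⟨B.x0, B.x1, B.m0, hc, B.u0, B.u1, B.p0, B.px,
            lt_of_le_of_lt f2 B.pm, B.pu⟩
        · exact ih _ _ _ _ _ _ _ g2 ⟨B.x0, B.x1, hc, B.m1, B.u0, B.u1, B.p0, B.px, B.pm, B.pu⟩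
      · rcases t with _ | t
        · rw [ht] at h
          have h' : nx (ck c k (Nat.div d 32) x0 x1 m0 m1 u0 (md u0 u1))
              (fun r' => ck c k r' x0 x1 m0 m1 (md u0 u1) u1) ≠ 0 := by
            rw [← fc_eq (md u0 u1) (fun y => nx (ck c k (Nat.div d 32) x0 x1 m0 m1 u0 y)
              fun r' => ck c k r' x0 x1 m0 m1 y u1)]
            exact h
          obtain ⟨g1, g2⟩ := nx_ne h'
          obtain ⟨f1, f2⟩ := rr_md u0 u1 B.uu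
          rcases le_total u (rr (md u0 u1)) with hc | hc
          · exact ih _ _ _ _ _ _ _ g1 ⟨B.x0, B.x1, B.m0, B.m1, B.u0, hc, B.p0, B.px, B.pm,
              f2.trans B.pu⟩
          · exact ih _ _ _ _ _ _ _ g2 ⟨B.x0, B.x1, B.m0, B.m1, hc, B.u1, B.p0, B.px, B.pm, B.pu⟩
        · rw [ht] at h
          have h' : bn (leaf c ⟨x0, x1, m0, m1, u0, u1⟩ (t + 1 + 1 + 1)) (Nat.succ (Nat.div d 32)) 0 ≠ 0 := h
          rcases hb : leaf c ⟨x0, x1, m0, m1, u0, u1⟩ (t + 1 + 1 + 1) with _ | _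
          · rw [hb] at h'
            exact absurd rfl h'
          · exact hl _ _ hb B

end Pool.Agent.S5.E.X3
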