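import Pool.Agent.S5.E.X3.Bd

/-!
# Mixed chains, block E: proof codes, real forms of the tests
-/

set_option autoImplicit false
set_option maxHeartbeats 4000000

namespace Pool.Agent.S5.E.X3

open Real
open Pool.Agent.S5.E.V (tan_ge_of tan_le_of gam_ge gam_le Kd ath tanh_ath le_of_tanh_le tanh_diff
  vf_mono al_arctan)
open Pool.Agent.S3.E (al ph tt k2 s2 cc gg al_pos al_lt)

theorem c6 : ((1000000 : ℕ) : ℝ) = 1000000 := by norm_num

theorem tt_q {R I : ℝ} (h : 0 < R) (h' : R < π / 2) : tt R I ^ 2 = Zq (tan R) (tanh I) :=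
  Pool.Agent.S5.E.V.tt_eq h h'

/-! ### The norm of one slot -/

section one

variable {R I ρ β p r : ℝ} {k zn zd hn hd kn kd yn yd : ℕ}

theorem norm_big (hs : Slot R I ρ β p r) (h : 0 < R) (h' : R < π / 2) (c : 0 < cos r)
    (hk : ρ ≤ (k : ℝ) / 1000) (sb : SB hn hd kn kd p) (h0 : 0 < zd)
    (hZ : Zq (tan R) (tanh I) ≤ (zn : ℝ) / zd) (ht : big k zn zd hn hd yn yd = true)
    (hy : 0 < yd → ((yn : ℝ) / yd) ^ 2 ≤ tan r ^ 2) : False := by
  obtain ⟨h1, h2⟩ := big_sound ht sb.lt h0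
  have h3 := sg2_mono (h := (hn : ℝ) / hd) (by positivity) sb.lo (tanh_lt_one p) (hy h1)
  rw [sg2_slot hs c, tt_q h h'] at h3
  have h4 : ρ ^ 2 ≤ ((k : ℝ) / 1000) ^ 2 := pow_le_pow_left₀ hs.ρ0 hk 2
  have h5 : 0 ≤ Zq (tan R) (tanh I) := by
    rw [← tt_q h h']
    positivity
  have h6 : ρ ^ 2 * Zq (tan R) (tanh I) ≤ ((k : ℝ) / 1000) ^ 2 * ((zn : ℝ) / zd) :=
    mul_le_mul h4 hZ h5 (sq_nonneg _)
  linarith

theorem norm_sml (hs : Slot R I ρ β p r) (h : 0 < R) (h' : R < π / 2) (c : 0 < cos r)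
    (hk : (k : ℝ) / 1000 ≤ ρ) (sb : SB hn hd kn kd p) (h0 : 0 < zd)
    (hZ : (zn : ℝ) / zd ≤ Zq (tan R) (tanh I)) (ht : sml k zn zd kn kd yn yd = true)
    (hy : 0 < yd → tan r ^ 2 ≤ ((yn : ℝ) / yd) ^ 2) : False := by
  obtain ⟨h1, h2, h3⟩ := sml_sound ht h0
  have h7 : (kn : ℝ) / kd < 1 := by
    have e : (0 : ℝ) < kd := by exact_mod_cast sb.d1
    rw [div_lt_one e]
    exact_mod_cast h2
  have h4 := sg2_mono (tanh_nonneg hs.p0) sb.up h7 (hy h1)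
  rw [sg2_slot hs c, tt_q h h'] at h4
  have h5 : ((k : ℝ) / 1000) ^ 2 ≤ ρ ^ 2 := pow_le_pow_left₀ (by positivity) hk 2
  have h6 : ((k : ℝ) / 1000) ^ 2 * ((zn : ℝ) / zd) ≤ ρ ^ 2 * Zq (tan R) (tanh I) :=
    mul_le_mul h5 hZ (by positivity) (sq_nonneg _)
  linarith

theorem norm_sml2 {kk : Bool} {un ud ln ld : ℕ} (hs : Slot R I ρ β p r) (h : 0 < R)
    (h' : R < π / 2) (c : 0 < cos r)
    (hk : (k : ℝ) / 1000 ≤ ρ) (sb : SB hn hd kn kd p) (h0 : 0 < zd)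
    (hZ : (zn : ℝ) / zd ≤ Zq (tan R) (tanh I)) (ht : sml k zn zd kn kd un ud = true)
    (ht' : br kk true (sml k zn zd kn kd ln ld) = true)
    (hU : 0 < ud → tan r ≤ (un : ℝ) / ud) (hL : 0 < ld → -((ln : ℝ) / ld) ≤ tan r)
    (hA : kk = true → 0 ≤ tan r) : False := by
  rcases le_total 0 (tan r) with hr | hr
  · refine norm_sml hs h h' c hk sb h0 hZ ht fun hy => ?_
    exact pow_le_pow_left₀ hr (hU hy) 2
  · rcases hkk : kk with _ | _
    · rw [hkk, br_false] at ht'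
      refine norm_sml hs h h' c hk sb h0 hZ ht' fun hy => ?_
      have h1 := hL hy
      have h2 : (-tan r) ^ 2 ≤ ((ln : ℝ) / ld) ^ 2 := pow_le_pow_left₀ (by linarith) (by linarith) 2
      rw [neg_sq] at h2
      exact h2
    · have h1 := hA hkk
      have h2 : tan r = 0 := le_antisymm hr h1
      refine norm_sml hs h h' c hk sb h0 hZ ht fun hy => ?_
      rw [h2, zero_pow two_ne_zero]
      positivity

/-- `sin² r ≤ wN / wD` -/
theorem sin_le_w (hs : Slot R I ρ β p r) (h : 0 < R) (h' : R < π / 2)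
    (hk : ρ ≤ (k : ℝ) / 1000) (sb : SB hn hd kn kd p) (h0 : 0 < zd)
    (hZ : Zq (tan R) (tanh I) ≤ (zn : ℝ) / zd) : 0 < wD zd hn hd ∧
    sin r ^ 2 ≤ ((wN k zn zd hn hd : ℕ) : ℝ) / ((wD zd hn hd : ℕ) : ℝ) := by
  have e0 : (0 : ℝ) < zd := by exact_mod_cast h0
  have e1 : (hn : ℝ) < hd := by exact_mod_cast sb.lt
  have e2 : (0 : ℝ) ≤ hn := Nat.cast_nonneg _
  have e3 : (0 : ℝ) < hd := by linarith
  have e4 : 0 < (hd : ℝ) ^ 2 - (hn : ℝ) ^ 2 := by nlinarith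
  have f1 : ((wD zd hn hd : ℕ) : ℝ) = 1000000 * zd * ((hd : ℝ) ^ 2 - (hn : ℝ) ^ 2) := by
    unfold wD
    rw [cmul, cmul, csub_le (show Nat.mul hn hn ≤ Nat.mul hd hd from Nat.mul_le_mul sb.lt.le sb.lt.le),
      cmul, cmul, c6]
    ring
  have f2 : (k : ℝ) * k * zn * ((hd : ℝ) ^ 2 - (hn : ℝ) ^ 2) - 1000000 * zd * (hn : ℝ) ^ 2 ≤
      ((wN k zn zd hn hd : ℕ) : ℝ) := by
    unfold wN
    rw [csub, cmul, cmul, cmul, csub_le (show Nat.mul hn hn ≤ Nat.mul hd hd from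
      Nat.mul_le_mul sb.lt.le sb.lt.le), cmul, cmul, cmul, cmul]
    refine le_trans (le_of_eq ?_) (le_max_left _ _)
    rw [cmul, c6]
    ring
  have f3 : (0 : ℝ) < ((wD zd hn hd : ℕ) : ℝ) := by
    rw [f1]
    positivity
  refine ⟨by exact_mod_cast f3, ?_⟩
  have h1 := hs.norm_sq
  rw [mul_pow, tt_q h h'] at h1
  have h4 : ρ ^ 2 ≤ ((k : ℝ) / 1000) ^ 2 := pow_le_pow_left₀ hs.ρ0 hk 2
  have h5 : 0 ≤ Zq (tan R) (tanh I) := by
    rw [← tt_q h h']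
    positivity
  have h6 : ρ ^ 2 * Zq (tan R) (tanh I) ≤ ((k : ℝ) / 1000) ^ 2 * ((zn : ℝ) / zd) :=
    mul_le_mul h4 hZ h5 (sq_nonneg _)
  have h7 : ((hn : ℝ) / hd) ^ 2 * (1 - ((hn : ℝ) / hd) ^ 2)⁻¹ ≤ sinh p ^ 2 := by
    rw [Pool.Agent.S5.E.V.sinh_sq_eq]
    exact Pool.Agent.S5.E.V.s_mono (by positivity) sb.lo (tanh_lt_one p)
  have h8 : ((hn : ℝ) / hd) ^ 2 * (1 - ((hn : ℝ) / hd) ^ 2)⁻¹ =
      (hn : ℝ) ^ 2 / ((hd : ℝ) ^ 2 - (hn : ℝ) ^ 2) := by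
    have : 1 - ((hn : ℝ) / hd) ^ 2 = ((hd : ℝ) ^ 2 - (hn : ℝ) ^ 2) / (hd : ℝ) ^ 2 := by
      field_simp
    rw [this, inv_div]
    field_simp
  rw [h8] at h7
  have h9 : sin r ^ 2 ≤ ((k : ℝ) / 1000) ^ 2 * ((zn : ℝ) / zd) -
      (hn : ℝ) ^ 2 / ((hd : ℝ) ^ 2 - (hn : ℝ) ^ 2) := by linarith
  refine h9.trans ?_
  rw [le_div_iff₀ f3]
  refine le_trans (le_of_eq ?_) f2
  rw [f1]
  field_simp
  ring

/-- `wN / wD ≤ sin² r` -/
theorem w_le_sin (hs : Slot R I ρ β p r) (h : 0 < R) (h' : R < π / 2)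
    (hk : (k : ℝ) / 1000 ≤ ρ) (sb : SB hn hd kn kd p) (h0 : 0 < zd) (h1 : kn < kd)
    (hZ : (zn : ℝ) / zd ≤ Zq (tan R) (tanh I)) : 0 < wD zd kn kd ∧
    ((wN k zn zd kn kd : ℕ) : ℝ) / ((wD zd kn kd : ℕ) : ℝ) ≤ sin r ^ 2 := by
  have e0 : (0 : ℝ) < zd := by exact_mod_cast h0
  have e1 : (kn : ℝ) < kd := by exact_mod_cast h1
  have e2 : (0 : ℝ) ≤ kn := Nat.cast_nonneg _
  have e3 : (0 : ℝ) < kd := by linarith
  have e4 : 0 < (kd : ℝ) ^ 2 - (kn : ℝ) ^ 2 := by nlinarith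
  have f1 : ((wD zd kn kd : ℕ) : ℝ) = 1000000 * zd * ((kd : ℝ) ^ 2 - (kn : ℝ) ^ 2) := by
    unfold wD
    rw [cmul, cmul, csub_le (show Nat.mul kn kn ≤ Nat.mul kd kd from Nat.mul_le_mul h1.le h1.le),
      cmul, cmul, c6]
    ring
  have f2 : ((wN k zn zd kn kd : ℕ) : ℝ) =
      max ((k : ℝ) * k * zn * ((kd : ℝ) ^ 2 - (kn : ℝ) ^ 2) - 1000000 * zd * (kn : ℝ) ^ 2) 0 := by
    unfold wN
    rw [csub, cmul, cmul, cmul, csub_le (show Nat.mul kn kn ≤ Nat.mul kd kd from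
      Nat.mul_le_mul h1.le h1.le), cmul, cmul, cmul, cmul]
    congr 1
    rw [cmul, c6]
    ring
  have f3 : (0 : ℝ) < ((wD zd kn kd : ℕ) : ℝ) := by
    rw [f1]
    positivity
  refine ⟨by exact_mod_cast f3, ?_⟩
  rw [div_le_iff₀ f3, f2]
  apply max_le _ (by positivity)
  have h2 := hs.norm_sq
  rw [mul_pow, tt_q h h'] at h2
  have h5 : ((k : ℝ) / 1000) ^ 2 ≤ ρ ^ 2 := pow_le_pow_left₀ (by positivity) hk 2
  have h6 : ((k : ℝ) / 1000) ^ 2 * ((zn : ℝ) / zd) ≤ ρ ^ 2 * Zq (tan R) (tanh I) :=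
    mul_le_mul h5 hZ (by positivity) (sq_nonneg _)
  have h7 : sinh p ^ 2 ≤ ((kn : ℝ) / kd) ^ 2 * (1 - ((kn : ℝ) / kd) ^ 2)⁻¹ := by
    rw [Pool.Agent.S5.E.V.sinh_sq_eq]
    exact Pool.Agent.S5.E.V.s_mono (tanh_nonneg hs.p0) sb.up (by rw [div_lt_one e3]; exact e1)
  have h8 : ((kn : ℝ) / kd) ^ 2 * (1 - ((kn : ℝ) / kd) ^ 2)⁻¹ =
      (kn : ℝ) ^ 2 / ((kd : ℝ) ^ 2 - (kn : ℝ) ^ 2) := by
    have : 1 - ((kn : ℝ) / kd) ^ 2 = ((kd : ℝ) ^ 2 - (kn : ℝ) ^ 2) / (kd : ℝ) ^ 2 := by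
      field_simp
    rw [this, inv_div]
    field_simp
  rw [h8] at h7
  have h9 : ((k : ℝ) / 1000) ^ 2 * ((zn : ℝ) / zd) -
      (kn : ℝ) ^ 2 / ((kd : ℝ) ^ 2 - (kn : ℝ) ^ 2) ≤ sin r ^ 2 := by linarith
  have h10 := mul_le_mul_of_nonneg_right h9 f3.le
  refine le_trans (le_of_eq ?_) h10
  rw [f1]
  field_simp
  ring

end one

/-! ### Angles -/

section ang

variable {f : Fa} {a : ℕ}

/-- `P > 0`: the angle `π - a θ`. -/
theorem ang_of (hf : f.Ok a) {x : ℕ} (hx : x ≤ f.xm) (hP : 0 < fP f x) :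
    (0 : ℝ) < ((fP f x : ℕ) : ℝ) ∧ π / 2 < a * arctan (rr x) ∧ a * arctan (rr x) < 3 * π / 2 ∧
      π - a * arctan (rr x) =
        arctan ((((f.sp x : ℕ) : ℝ) - ((f.sn x : ℕ) : ℝ)) / ((fP f x : ℕ) : ℝ)) := by
  have hP' := hP
  unfold fP at hP'
  obtain ⟨h1, h2⟩ := csub_of_pos hP'
  have e1 : ((fP f x : ℕ) : ℝ) = ((f.cn x : ℕ) : ℝ) - ((f.cp x : ℕ) : ℝ) := h1
  have hc := hf.c x
  have hs := hf.s x
  have hu := hf.xu x hx
  have hcp : 0 < cos (arctan (rr x)) ^ a := pow_pos (cos_arctan_pos _) _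
  have hU : (0 : ℝ) < 16384 ^ a := by positivity
  have hneg : cos (a * arctan (rr x)) < 0 := by
    by_contra hcc
    push Not at hcc
    have h3 : 0 ≤ cos (a * arctan (rr x)) * 16384 ^ a := mul_nonneg hcc hU.le
    rw [hc] at h3
    have h4 := nonneg_of_mul_nonneg_right h3 hcp
    linarith
  have h0 : 0 ≤ (a : ℝ) * arctan (rr x) :=
    mul_nonneg (Nat.cast_nonneg a) (arctan_nonneg.2 (rr_nonneg x))
  have g1 : π / 2 < a * arctan (rr x) := by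
    by_contra hcc
    push Not at hcc
    have := cos_nonneg_of_neg_pi_div_two_le_of_le (by linarith [pi_pos]) hcc
    linarith
  have g2 : a * arctan (rr x) < 3 * π / 2 := by
    rcases hu.lt_or_eq with h3 | h3
    · exact h3
    · exfalso
      rw [h3] at hneg
      have : cos (3 * π / 2) = 0 := by
        have e : 3 * π / 2 = π / 2 + π := by ring
        rw [e, cos_add_pi, cos_pi_div_two, neg_zero]
      linarith
  refine ⟨by rw [e1]; exact h2, g1, g2, ?_⟩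
  rw [← arctan_tan (x := π - a * arctan (rr x)) (by linarith) (by linarith)]
  congr 1
  rw [tan_eq_sin_div_cos, sin_pi_sub, cos_pi_sub, e1, div_eq_div_iff (by linarith) (by linarith)]
  have h5 : (sin (a * arctan (rr x)) * (((f.cn x : ℕ) : ℝ) - ((f.cp x : ℕ) : ℝ))) *
      (cos (arctan (rr x)) ^ a * 16384 ^ a) =
      ((((f.sp x : ℕ) : ℝ) - ((f.sn x : ℕ) : ℝ)) * -cos (a * arctan (rr x))) *
      (cos (arctan (rr x)) ^ a * 16384 ^ a) := by
    linear_combination (((f.cn x : ℕ) : ℝ) - ((f.cp x : ℕ) : ℝ)) * cos (arctan (rr x)) ^ a * hs +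
      (((f.sp x : ℕ) : ℝ) - ((f.sn x : ℕ) : ℝ)) * cos (arctan (rr x)) ^ a * hc
  exact mul_right_cancel₀ (mul_pos hcp hU).ne' h5

theorem sin_of (hf : f.Ok a) (x : ℕ) : sin (a * arctan (rr x)) ^ 2 * ((f.nn x : ℕ) : ℝ) =
    (((f.sp x : ℕ) : ℝ) - ((f.sn x : ℕ) : ℝ)) ^ 2 ∧ (0 : ℝ) < ((f.nn x : ℕ) : ℝ) := by
  have hs := hf.s x
  rw [hf.n x]
  have h1 := (Pool.Agent.S5.E.V.sc_arctan (rr x)).2
  have h2 : (cos (arctan (rr x)) ^ a) ^ 2 * (268435456 + (x : ℝ) ^ 2) ^ a = (16384 ^ a) ^ 2 := by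
    have e : (268435456 + (x : ℝ) ^ 2) = 16384 ^ 2 * (1 + rr x ^ 2) := by
      unfold rr
      ring
    rw [e, ← pow_mul, mul_comm a 2, pow_mul, ← mul_pow, ← pow_mul (16384 : ℝ), mul_comm a 2,
      pow_mul (16384 : ℝ)]
    congr 1
    linear_combination 16384 ^ 2 * h1
  refine ⟨?_, by positivity⟩
  have h3 : (sin (a * arctan (rr x)) * 16384 ^ a) ^ 2 =
      (cos (arctan (rr x)) ^ a * (((f.sp x : ℕ) : ℝ) - ((f.sn x : ℕ) : ℝ))) ^ 2 := by rw [hs]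
  have h4 : (0 : ℝ) < (cos (arctan (rr x)) ^ a) ^ 2 :=
    pow_pos (pow_pos (cos_arctan_pos _) _) 2
  apply mul_left_cancel₀ h4.ne'
  linear_combination h3 + sin (a * arctan (rr x)) ^ 2 * h2

theorem nat_pos_of_mul {d e : ℕ} (h : 0 < Nat.mul d e) : 0 < d ∧ 0 < e := by
  have h' : 0 < d * e := h
  exact ⟨Nat.pos_of_mul_pos_right h' |> fun _ => by
    rcases Nat.eq_zero_or_pos d with hz | hz
    · rw [hz, Nat.zero_mul] at h'
      exact absurd h' (lt_irrefl _)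
    · exact hz, by
    rcases Nat.eq_zero_or_pos e with hz | hz
    · rw [hz, Nat.mul_zero] at h'
      exact absurd h' (lt_irrefl _)
    · exact hz⟩

theorem nL_cast (p n q m : ℕ) : ((nL p n q m : ℕ) : ℝ) = p * q + n * m := by
  unfold nL
  rw [cadd, cmul, cmul]

theorem nR_cast (p n d q m e : ℕ) : ((nR p n d q m e : ℕ) : ℝ) = d * e + (p * m + n * q) := by
  unfold nR
  rw [cadd, cadd, cmul, cmul, cmul]

theorem sA_cast (p d q e : ℕ) : ((sA p d q e : ℕ) : ℝ) = p * e + q * d := by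
  unfold sA
  rw [cadd, cmul, cmul]

/-- `a R + r₁ + r₂ < π` -/
theorem angU_sound (hf : f.Ok a) {p n d q m e x : ℕ} (hx : x ≤ f.xm)
    (h : angU f p n d q m e x = true) : 0 < d ∧ 0 < e ∧
    a * arctan (rr x) + arctan (((p : ℝ) - n) / d) + arctan (((q : ℝ) - m) / e) < π := by
  unfold angU at h
  rw [an_iff, an_iff, an_iff, lt_iff, lt_iff, lt_iff] at h
  obtain ⟨h1, h2, h3, h4⟩ := h
  obtain ⟨hd, he⟩ := nat_pos_of_mul h2
  obtain ⟨g1, g2, g3, g4⟩ := ang_of hf hx h1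
  refine ⟨hd, he, ?_⟩
  have hd' : (0 : ℝ) < d := by exact_mod_cast hd
  have he' : (0 : ℝ) < e := by exact_mod_cast he
  have k1 : ((p : ℝ) * q + n * m) < d * e + (p * m + n * q) := by
    rw [← nL_cast, ← nR_cast]
    exact_mod_cast h3
  have k2 : ((p : ℝ) - n) / d * (((q : ℝ) - m) / e) < 1 := by
    rw [div_mul_div_comm, div_lt_one (by positivity)]
    linarith
  have h5 := lt_real h4
  rw [cadd, cadd, cmul, cmul, cmul, cmul, csub_le h3.le] at h5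
  have k3 := csub_csub (sA p d q e) (sA n d m e)
  have k4 := csub_csub (f.sp x) (f.sn x)
  rw [sA_cast, sA_cast] at k3
  rw [nL_cast, nR_cast] at h5
  have k5 : (p * e + q * d - (n * e + m * d)) * ((fP f x : ℕ) : ℝ) <
      (d * e + (p * m + n * q) - (p * q + n * m)) * (((f.sp x : ℕ) : ℝ) - ((f.sn x : ℕ) : ℝ)) := by
    rw [← k3, ← k4]
    nlinarith
  have k6 := arctan_add k2
  have k7 : arctan (((p : ℝ) - n) / d) + arctan (((q : ℝ) - m) / e) <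
      π - a * arctan (rr x) := by
    rw [k6, g4]
    apply arctan_strictMono
    have e1 : (((p : ℝ) - n) / d + ((q : ℝ) - m) / e) / (1 - ((p : ℝ) - n) / d * (((q : ℝ) - m) / e)) =
        (p * e + q * d - (n * e + m * d)) / (d * e + (p * m + n * q) - (p * q + n * m)) := by
      have e2 : 1 - ((p : ℝ) - n) / d * (((q : ℝ) - m) / e) =
          (d * e + (p * m + n * q) - (p * q + n * m)) / (d * e) := by
        field_simp
        ring
      have e3 : ((p : ℝ) - n) / d + ((q : ℝ) - m) / e =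
          (p * e + q * d - (n * e + m * d)) / (d * e) := by
        field_simp
        ring
      rw [e2, e3]
      field_simp
    rw [e1, div_lt_div_iff₀ (by linarith) g1]
    linarith
  linarith

/-- `π < a R + r₁ + r₂` -/
theorem angL_sound (hf : f.Ok a) {p n d q m e x : ℕ} (hx : x ≤ f.xm)
    (h : angL f p n d q m e x = true) : 0 < d ∧ 0 < e ∧
    π < a * arctan (rr x) + arctan (((p : ℝ) - n) / d) + arctan (((q : ℝ) - m) / e) := by
  unfold angL at h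
  rw [an_iff, an_iff, lt_iff, lt_iff] at h
  obtain ⟨h1, h2, h3⟩ := h
  obtain ⟨hd, he⟩ := nat_pos_of_mul h2
  obtain ⟨g1, g2, g3, g4⟩ := ang_of hf hx h1
  refine ⟨hd, he, ?_⟩
  have hd' : (0 : ℝ) < d := by exact_mod_cast hd
  have he' : (0 : ℝ) < e := by exact_mod_cast he
  rcases hb : lt (nL p n q m) (nR p n d q m e) with _ | _
  · rw [hb, br_false, Nat.ble_eq] at h3
    have h4 : n = 0 ∧ m = 0 := by
      have : n + m ≤ 0 := h3
      omega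
    obtain ⟨rfl, rfl⟩ := h4
    have h5 : ¬ (nL p 0 q 0 < nR p 0 d q 0 e) := by
      intro hc
      rw [← lt_iff, hb] at hc
      exact absurd hc (by decide)
    push Not at h5
    have h6 : ((nR p 0 d q 0 e : ℕ) : ℝ) ≤ ((nL p 0 q 0 : ℕ) : ℝ) := by exact_mod_cast h5
    rw [nL_cast, nR_cast] at h6
    norm_num at h6
    have h7 : (0 : ℝ) < p * q := lt_of_lt_of_le (by positivity) h6
    have hp0 : (0 : ℝ) ≤ p := Nat.cast_nonneg _
    have hq0 : (0 : ℝ) ≤ q := Nat.cast_nonneg _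
    have hp : (0 : ℝ) < p := by
      rcases hp0.eq_or_lt with h8 | h8
      · rw [← h8, zero_mul] at h7
        exact absurd h7 (lt_irrefl _)
      · exact h8
    have e1 : ((p : ℝ) - ((0 : ℕ) : ℝ)) / d = p / d := by norm_num
    have e2 : ((q : ℝ) - ((0 : ℕ) : ℝ)) / e = q / e := by norm_num
    rw [e1, e2]
    have h8 : arctan ((d : ℝ) / p) ≤ arctan ((q : ℝ) / e) := by
      apply arctan_mono
      rw [div_le_div_iff₀ hp he']
      linarith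
    have h9 := arctan_inv_of_pos (x := (p : ℝ) / d) (by positivity)
    rw [inv_div] at h9
    linarith
  · rw [hb, br_true] at h3
    rw [lt_iff] at hb
    have k1 : ((p : ℝ) * q + n * m) < d * e + (p * m + n * q) := by
      rw [← nL_cast, ← nR_cast]
      exact_mod_cast hb
    have k2 : ((p : ℝ) - n) / d * (((q : ℝ) - m) / e) < 1 := by
      rw [div_mul_div_comm, div_lt_one (by positivity)]
      linarith
    have h5 := lt_real h3
    rw [cadd, cadd, cmul, cmul, cmul, cmul, csub_le hb.le] at h5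
    have k3 := csub_csub (sA p d q e) (sA n d m e)
    have k4 := csub_csub (f.sp x) (f.sn x)
    rw [sA_cast, sA_cast] at k3
    rw [nL_cast, nR_cast] at h5
    have k5 : (d * e + (p * m + n * q) - (p * q + n * m)) *
        (((f.sp x : ℕ) : ℝ) - ((f.sn x : ℕ) : ℝ)) <
        (p * e + q * d - (n * e + m * d)) * ((fP f x : ℕ) : ℝ) := by
      rw [← k3, ← k4]
      nlinarith
    have k6 := arctan_add k2
    have k7 : π - a * arctan (rr x) <
        arctan (((p : ℝ) - n) / d) + arctan (((q : ℝ) - m) / e) := by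
      rw [k6, g4]
      apply arctan_strictMono
      have e1 : (((p : ℝ) - n) / d + ((q : ℝ) - m) / e) /
          (1 - ((p : ℝ) - n) / d * (((q : ℝ) - m) / e)) =
          (p * e + q * d - (n * e + m * d)) / (d * e + (p * m + n * q) - (p * q + n * m)) := by
        have e2 : 1 - ((p : ℝ) - n) / d * (((q : ℝ) - m) / e) =
            (d * e + (p * m + n * q) - (p * q + n * m)) / (d * e) := by
          field_simp
          ring
        have e3 : ((p : ℝ) - n) / d + ((q : ℝ) - m) / e =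
            (p * e + q * d - (n * e + m * d)) / (d * e) := by
          field_simp
          ring
        rw [e2, e3]
        field_simp
      rw [e1, div_lt_div_iff₀ g1 (by linarith)]
      linarith
    linarith

/-- `tan (π - a θ - arctan ((p - n) / d)) = y` -/
theorem y_sound (hf : f.Ok a) {p n d x : ℕ} (hx : x ≤ f.xm) (hP : 0 < fP f x) (hd : 0 < d)
    (hy : 0 < yD f p n d x) : ∃ y : ℝ, π - a * arctan (rr x) - arctan (((p : ℝ) - n) / d) = arctan y ∧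
      max y 0 = ((yP f p n d x : ℕ) : ℝ) / ((yD f p n d x : ℕ) : ℝ) ∧
      (yS f p n d x = true → 0 ≤ y) := by
  obtain ⟨g1, g2, g3, g4⟩ := ang_of hf hx hP
  have hd' : (0 : ℝ) < d := by exact_mod_cast hd
  have hy' := hy
  unfold yD at hy'
  obtain ⟨h1, h2⟩ := csub_of_pos hy'
  have h3 : ((yD f p n d x : ℕ) : ℝ) = ((fP f x : ℕ) : ℝ) * d +
      (((f.sp x : ℕ) : ℝ) - ((f.sn x : ℕ) : ℝ)) * ((p : ℝ) - n) := by
    unfold yD
    rw [h1, cadd, cadd, cadd, cmul, cmul, cmul, cmul, cmul]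
    ring
  have h4 : ((yP f p n d x : ℕ) : ℝ) = max ((((f.sp x : ℕ) : ℝ) - ((f.sn x : ℕ) : ℝ)) * d -
      ((fP f x : ℕ) : ℝ) * ((p : ℝ) - n)) 0 := by
    unfold yP
    rw [csub, cadd, cadd, cmul, cmul, cmul, cmul]
    congr 1
    ring
  have h5 : (0 : ℝ) < ((yD f p n d x : ℕ) : ℝ) := by exact_mod_cast hy
  set P : ℝ := ((fP f x : ℕ) : ℝ) with hPd
  set Q : ℝ := ((f.sp x : ℕ) : ℝ) - ((f.sn x : ℕ) : ℝ) with hQd
  refine ⟨(Q * d - P * ((p : ℝ) - n)) / ((yD f p n d x : ℕ) : ℝ), ?_, ?_, ?_⟩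
  · have k1 : Q / P * -(((p : ℝ) - n) / d) < 1 := by
      have : 0 < 1 - Q / P * -(((p : ℝ) - n) / d) := by
        have e : 1 - Q / P * -(((p : ℝ) - n) / d) = ((yD f p n d x : ℕ) : ℝ) / (P * d) := by
          rw [h3]
          field_simp
          ring
        rw [e]
        positivity
      linarith
    have k2 := arctan_add k1
    rw [arctan_neg] at k2
    rw [g4, sub_eq_add_neg, k2]
    congr 1
    have e : 1 - Q / P * -(((p : ℝ) - n) / d) = ((yD f p n d x : ℕ) : ℝ) / (P * d) := by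
      rw [h3]
      field_simp
      ring
    rw [e]
    field_simp
    ring
  · rw [h4]
    rcases le_total (Q * d - P * ((p : ℝ) - n)) 0 with hc | hc
    · rw [max_eq_right hc, max_eq_right (div_nonpos_of_nonpos_of_nonneg hc h5.le), zero_div]
    · rw [max_eq_left hc, max_eq_left (div_nonneg hc h5.le)]
  · intro h6
    have h7 := ble_real h6
    rw [cadd, cadd, cmul, cmul, cmul, cmul] at h7
    exact div_nonneg (by rw [hQd]; linarith) h5.le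

end ang

/-! ### The law of cosines -/

section cosines

variable {R r₁ r₂ A θ w₁ w₂ s : ℝ}

theorem MU_real (hR : A + r₁ + r₂ = π) (hA : A ≤ θ) (hsin : 0 ≤ sin θ)
    (hθ' : θ < 3 * π / 2) (u₁ : r₁ < π / 2) (l₂ : -(π / 2) < r₂) (u₂ : r₂ < π / 2)
    (h₁ : sin r₁ ^ 2 ≤ w₁) (h₂ : sin r₂ ^ 2 ≤ w₂) (hs : sin θ ^ 2 = s)
    (hD : 0 < s - w₁ - w₂) (hE : 4 * (w₁ * w₂) * (1 - s) < (s - w₁ - w₂) ^ 2) : False := by
  have hθ1 : θ ≤ π := by
    by_contra hc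
    push Not at hc
    have h1 : 0 < sin (θ - π) := sin_pos_of_pos_of_lt_pi (by linarith) (by linarith)
    rw [sin_sub_pi] at h1
    linarith
  have hs1 : s ≤ 1 := by
    rw [← hs]
    nlinarith [sin_sq_add_cos_sq θ, sq_nonneg (cos θ)]
  set ψ := r₁ + r₂ with hψ
  -- `ψ < π / 2`
  have hψ1 : ψ < π / 2 := by
    by_contra hc
    push Not at hc
    have h1 : π / 2 - r₂ ≤ r₁ := by linarith
    have h2 : sin (π / 2 - r₂) ≤ sin r₁ := by
      apply sin_le_sin_of_le_of_le_pi_div_two (by linarith) u₁.le h1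
    rw [sin_pi_div_two_sub] at h2
    have h3 : 0 ≤ cos r₂ := (cos_pos_of_mem_Ioo ⟨l₂, u₂⟩).le
    have h4 := sin_sq_add_cos_sq r₂
    nlinarith
  have hψ0 : π - θ ≤ ψ := by linarith
  have h3 : sin (π - θ) ≤ sin ψ := sin_le_sin_of_le_of_le_pi_div_two (by linarith) hψ1.le hψ0
  rw [sin_pi_sub] at h3
  have h4 : s ≤ sin ψ ^ 2 := by
    rw [← hs]
    exact pow_le_pow_left₀ hsin h3 2
  have h5 : sin ψ ^ 2 = sin r₁ ^ 2 + sin r₂ ^ 2 + 2 * (sin r₁ * sin r₂) * cos ψ := by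
    have e1 := sin_sq_add_cos_sq r₁
    have e2 := sin_sq_add_cos_sq r₂
    rw [hψ, sin_add, cos_add]
    linear_combination sin r₁ ^ 2 * e2 + sin r₂ ^ 2 * e1
  have h6 : cos ψ ^ 2 ≤ 1 - s := by
    have := sin_sq_add_cos_sq ψ
    linarith
  have h7 : (2 * (sin r₁ * sin r₂) * cos ψ) ^ 2 ≤ 4 * (w₁ * w₂) * (1 - s) := by
    have e1 : (2 * (sin r₁ * sin r₂) * cos ψ) ^ 2 = 4 * (sin r₁ ^ 2 * sin r₂ ^ 2) * cos ψ ^ 2 := by
      ring
    rw [e1]
    have e2 : sin r₁ ^ 2 * sin r₂ ^ 2 ≤ w₁ * w₂ :=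
      mul_le_mul h₁ h₂ (sq_nonneg _) ((sq_nonneg _).trans h₁)
    have e3 : 0 ≤ w₁ * w₂ := le_trans (by positivity) e2
    exact mul_le_mul (by linarith) h6 (sq_nonneg _) (by linarith)
  have h8 : s - w₁ - w₂ ≤ 2 * (sin r₁ * sin r₂) * cos ψ := by linarith
  have h9 : (s - w₁ - w₂) ^ 2 ≤ (2 * (sin r₁ * sin r₂) * cos ψ) ^ 2 :=
    pow_le_pow_left₀ hD.le h8 2
  linarith

theorem ML_real (hR : A + r₁ + r₂ = π) (hA : θ ≤ A) (hθ : π / 2 < θ)
    (l₁ : 0 ≤ r₁) (u₁ : r₁ < π / 2) (l₂ : 0 ≤ r₂)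
    (w1 : 0 ≤ w₁) (w2 : 0 ≤ w₂)
    (h₁ : w₁ ≤ sin r₁ ^ 2) (h₂ : w₂ ≤ sin r₂ ^ 2) (hs : sin θ ^ 2 = s)
    (hE : (max (s - w₁ - w₂) 0) ^ 2 < 4 * (w₁ * w₂) * (1 - s)) : False := by
  set ψ := r₁ + r₂ with hψ
  have hψ0 : 0 ≤ ψ := by linarith
  have hψ1 : ψ ≤ π - θ := by linarith
  have h3 : sin ψ ≤ sin (π - θ) := sin_le_sin_of_le_of_le_pi_div_two (by linarith) (by linarith) hψ1
  rw [sin_pi_sub] at h3
  have h3' : 0 ≤ sin ψ := sin_nonneg_of_nonneg_of_le_pi hψ0 (by linarith)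
  have h4 : sin ψ ^ 2 ≤ s := by
    rw [← hs]
    exact pow_le_pow_left₀ h3' h3 2
  have h5 : sin ψ ^ 2 = sin r₁ ^ 2 + sin r₂ ^ 2 + 2 * (sin r₁ * sin r₂) * cos ψ := by
    have e1 := sin_sq_add_cos_sq r₁
    have e2 := sin_sq_add_cos_sq r₂
    rw [hψ, sin_add, cos_add]
    linear_combination sin r₁ ^ 2 * e2 + sin r₂ ^ 2 * e1
  have h6 : 1 - s ≤ cos ψ ^ 2 := by
    have := sin_sq_add_cos_sq ψ
    linarith
  have hc : 0 ≤ cos ψ := cos_nonneg_of_neg_pi_div_two_le_of_le (by linarith [pi_pos]) (by linarith)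
  have s1 : 0 ≤ sin r₁ := sin_nonneg_of_nonneg_of_le_pi l₁ (by linarith [pi_pos])
  have s2 : 0 ≤ sin r₂ := sin_nonneg_of_nonneg_of_le_pi l₂ (by linarith [pi_pos])
  have hs1 : 0 ≤ 1 - s := by
    rw [← hs]
    nlinarith [sin_sq_add_cos_sq θ, sq_nonneg (cos θ)]
  have h7 : 4 * (w₁ * w₂) * (1 - s) ≤ (2 * (sin r₁ * sin r₂) * cos ψ) ^ 2 := by
    have e1 : (2 * (sin r₁ * sin r₂) * cos ψ) ^ 2 = 4 * (sin r₁ ^ 2 * sin r₂ ^ 2) * cos ψ ^ 2 := by
      ring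
    rw [e1]
    have e2 : w₁ * w₂ ≤ sin r₁ ^ 2 * sin r₂ ^ 2 := mul_le_mul h₁ h₂ w2 (sq_nonneg _)
    have e3 : 0 ≤ w₁ * w₂ := mul_nonneg w1 w2
    exact mul_le_mul (by linarith) h6 hs1 (by nlinarith)
  have h8 : 2 * (sin r₁ * sin r₂) * cos ψ ≤ s - w₁ - w₂ := by linarith
  have h10 : 0 ≤ 2 * (sin r₁ * sin r₂) * cos ψ := by positivity
  rw [max_eq_left (by linarith)] at hE
  have h9 : (2 * (sin r₁ * sin r₂) * cos ψ) ^ 2 ≤ (s - w₁ - w₂) ^ 2 := pow_le_pow_left₀ h10 h8 2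
  linarith

end cosines

/-! ### The tests of the law of cosines -/

section mm

variable {sn sd a b c d : ℕ}

theorem dP_cast (sn sd a b c d : ℕ) : ((dP sn sd a b c d : ℕ) : ℝ) =
    max ((sn : ℝ) * (b * d) - sd * (a * d + c * b)) 0 := by
  unfold dP
  rw [csub, cmul, cmul, cmul, cadd, cmul, cmul]

theorem eP_cast (h : sn ≤ sd) : ((eP sn sd a b c d : ℕ) : ℝ) =
    (4 * ((a : ℝ) * c)) * (b * d) * ((sd - sn) * sd) := by
  unfold eP
  rw [cmul, cmul, cmul, cmul, cmul, cmul, csub_le h]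
  norm_num

theorem mmU_sound (hsd : (0 : ℝ) < sd) (hb : 0 < b) (hd : 0 < d) (h : sn ≤ sd)
    (hm : mmU sn sd a b c d = true) :
    0 < (sn : ℝ) / sd - (a : ℝ) / b - (c : ℝ) / d ∧
    4 * ((a : ℝ) / b * ((c : ℝ) / d)) * (1 - (sn : ℝ) / sd) <
      ((sn : ℝ) / sd - (a : ℝ) / b - (c : ℝ) / d) ^ 2 := by
  unfold mmU at hm
  rw [an_iff, lt_iff] at hm
  obtain ⟨h1, h2⟩ := hm
  have hb' : (0 : ℝ) < b := by exact_mod_cast hb
  have hd' : (0 : ℝ) < d := by exact_mod_cast hd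
  have h3 : (0 : ℝ) < ((dP sn sd a b c d : ℕ) : ℝ) := by exact_mod_cast h1
  have h4 : ((dP sn sd a b c d : ℕ) : ℝ) = (sn : ℝ) * (b * d) - sd * (a * d + c * b) := by
    rw [dP_cast] at h3 ⊢
    rcases le_total ((sn : ℝ) * (b * d) - sd * (a * d + c * b)) 0 with hc | hc
    · rw [max_eq_right hc] at h3
      exact absurd h3 (lt_irrefl _)
    · rw [max_eq_left hc]
  have h5 := lt_real h2
  rw [cmul, eP_cast h] at h5
  have e1 : (sn : ℝ) / sd - (a : ℝ) / b - (c : ℝ) / d =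
      ((dP sn sd a b c d : ℕ) : ℝ) / (sd * (b * d)) := by
    rw [h4]
    field_simp
    ring
  rw [e1]
  refine ⟨by positivity, ?_⟩
  have e2 : 4 * ((a : ℝ) / b * ((c : ℝ) / d)) * (1 - (sn : ℝ) / sd) =
      ((4 * ((a : ℝ) * c)) * (b * d) * ((sd - sn) * sd)) / (sd * (b * d)) ^ 2 := by
    field_simp
  rw [e2, div_pow]
  apply div_lt_div_of_pos_right _ (by positivity)
  rw [pow_two]
  exact h5

theorem mmL_sound (hsd : (0 : ℝ) < sd) (hb : 0 < b) (hd : 0 < d) (h : sn ≤ sd)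
    (hm : mmL sn sd a b c d = true) :
    (max ((sn : ℝ) / sd - (a : ℝ) / b - (c : ℝ) / d) 0) ^ 2 <
    4 * ((a : ℝ) / b * ((c : ℝ) / d)) * (1 - (sn : ℝ) / sd) := by
  unfold mmL at hm
  have hb' : (0 : ℝ) < b := by exact_mod_cast hb
  have hd' : (0 : ℝ) < d := by exact_mod_cast hd
  have h5 := lt_real hm
  rw [cmul, eP_cast h] at h5
  have e1 : (sn : ℝ) / sd - (a : ℝ) / b - (c : ℝ) / d =
      ((sn : ℝ) * (b * d) - sd * (a * d + c * b)) / (sd * (b * d)) := by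
    field_simp
    ring
  have e3 : max ((sn : ℝ) / sd - (a : ℝ) / b - (c : ℝ) / d) 0 =
      ((dP sn sd a b c d : ℕ) : ℝ) / (sd * (b * d)) := by
    rw [e1, dP_cast]
    rcases le_total ((sn : ℝ) * (b * d) - sd * (a * d + c * b)) 0 with hc | hc
    · rw [max_eq_right hc, zero_div, max_eq_right]
      exact div_nonpos_of_nonpos_of_nonneg hc (by positivity)
    · rw [max_eq_left hc, max_eq_left]
      exact div_nonneg hc (by positivity)
  rw [e3]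
  have e2 : 4 * ((a : ℝ) / b * ((c : ℝ) / d)) * (1 - (sn : ℝ) / sd) =
      ((4 * ((a : ℝ) * c)) * (b * d) * ((sd - sn) * sd)) / (sd * (b * d)) ^ 2 := by
    field_simp
  rw [e2, div_pow]
  apply div_lt_div_of_pos_right _ (by positivity)
  rw [pow_two]
  exact h5

end mm

end Pool.Agent.S5.E.X3
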